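import Mathlib
import Pool.Agent.H72.NP.Defs

/-!
# MP_838af4_lc: definitions

Time-bounded Kolmogorov complexity of the members of sets in P. Machines are Mathlib's multi-stack
Turing machines `FinTM2`; `PolyTimeFun`, `pairEnc` and `InNP` are those of
`Pool.Agent.H72.NP.Defs`: polynomial-time computability of a function between encoded types, the
encoding of a pair (the second component is written with a disjoint copy of its alphabet), and the
class NP.
-/

set_option autoImplicit false

namespace Pool.Agent.H83.TK

open Turing Computability Pool.Agent.H72.NP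

/-- The set (or relation) `S` of objects encoded by `e` is in P. -/
def InP {α A : Type} (e : α → List A) (S : Set α) : Prop :=
  ∃ D : α → Bool, PolyTimeFun e encodeBool D ∧ ∀ a, a ∈ S ↔ D a = true

/-- P = NP -/
def PeqNP : Prop :=
  ∀ L : List Bool → Prop, InNP (id : List Bool → List Bool) L → InP id {x | L x}

/-- `A^n`: the members of `A` of length `n` -/
def slice (A : Set (List Bool)) (n : ℕ) : Set (List Bool) := {s | s ∈ A ∧ s.length = n}

/-- A machine with two input strings `q` and `y`, written one after the other on its input stack with
disjoint copies of the alphabet `{0,1}`, and an output string over `{0,1}`. -/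
structure BM where
  /-- the machine -/
  tm : FinTM2
  /-- the input alphabet -/
  inp : tm.Γ tm.k₀ ≃ Bool ⊕ Bool
  /-- the output alphabet -/
  out : tm.Γ tm.k₁ ≃ Bool

/-- `M(q, y)` outputs `s` within `t` steps. -/
def BM.Out (M : BM) (q y s : List Bool) (t : ℕ) : Prop :=
  Nonempty (TM2OutputsInTime M.tm ((pairEnc id (q, y)).map M.inp.symm) (some (s.map M.out.symm)) t)

/-- `U` is universal: for every machine `M` there is a string `w` such that `U(wq, y)` simulates
`M(q, y)` with a polynomial overhead. -/
def Universal (U : BM) : Prop :=
  ∀ M : BM, ∃ (w : List Bool) (p : Polynomial ℕ), ∀ (q y s : List Bool) (t : ℕ),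
    M.Out q y s t → U.Out (w ++ q) y s (p.eval (q.length + y.length + t))

/-- `K^t(s | y) ≤ r`: some `q` of length at most `r` is such that `U(q, y)` outputs `s` within
`t(|s|)` steps. -/
def KLE (U : BM) (t : ℕ → ℕ) (s y : List Bool) (r : ℝ) : Prop :=
  ∃ q : List Bool, (q.length : ℝ) ≤ r ∧ U.Out q y s (t s.length)

/-- The assertion of Q1 for the language `A`: there are a constant `c` and a polynomial `p` such that
`K^p(s | n) ≤ log |A^n| + c` for all `n` and all `s ∈ A^n`; `n` is given in binary. -/
def Q1For (U : BM) (A : Set (List Bool)) : Prop :=
  ∃ (c : ℕ) (p : Polynomial ℕ), ∀ n, ∀ s ∈ slice A n,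
    KLE U (fun k => p.eval k) s (encodeNat n) (Real.logb 2 (slice A n).ncard + c)

/-- Q1: the assertion holds for every language in P. -/
def Q1 (U : BM) : Prop := ∀ A : Set (List Bool), InP id A → Q1For U A

/-- The weakening of the assertion of Q1 for `A` with `c log(n + 2)` in place of `c`. -/
def Q1LogFor (U : BM) (A : Set (List Bool)) : Prop :=
  ∃ (c : ℕ) (p : Polynomial ℕ), ∀ n : ℕ, ∀ s ∈ slice A n,
    KLE U (fun k => p.eval k) s (encodeNat n)
      (Real.logb 2 (slice A n).ncard + c * Real.logb 2 (n + 2))

/-- The weak form of Q1: slack `c log(n + 2)` instead of `c`. -/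
def Q1Log (U : BM) : Prop := ∀ A : Set (List Bool), InP id A → Q1LogFor U A

/-- `L` is a tally language: its members are strings of ones. -/
def Tally (L : List Bool → Prop) : Prop := ∀ x, L x → ∀ b ∈ x, b = true

/-- The class RP: a polynomial-time computation with `p(|x|)` random bits accepts every `x ∈ L` with
probability at least `1/2`, and never accepts an `x ∉ L`. -/
def InRP (L : List Bool → Prop) : Prop :=
  ∃ (V : List Bool × List Bool → Bool) (p : Polynomial ℕ), PolyTimeFun (pairEnc id) encodeBool V ∧
    ∀ x, (L x → 2 ^ p.eval x.length ≤
        2 * {r : List Bool | r.length = p.eval x.length ∧ V (x, r) = true}.ncard) ∧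
      (¬ L x → ∀ r : List Bool, r.length = p.eval x.length → V (x, r) = false)

/-- `A` is sparse. -/
def Sparse (A : Set (List Bool)) : Prop :=
  ∃ p : Polynomial ℕ, ∀ n, (slice A n).ncard ≤ p.eval n

/-- A list of strings as a bit string: the bit `b` becomes `1b`, and `0` is the end mark of a
string. -/
def listCode (l : List (List Bool)) : List Bool :=
  l.flatMap fun s => (s.flatMap fun b => [true, b]) ++ [false]

/-- `A` is P-printable: some polynomial-time function lists the members of `A^n`, given `1^n`. -/
def PPrintable (A : Set (List Bool)) : Prop :=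
  ∃ f : List Bool → List (List Bool), PolyTimeFun id listCode f ∧
    ∀ n s, s ∈ f (List.replicate n true) ↔ s ∈ slice A n

/-- The class `Σ₂` of the polynomial hierarchy (`NP^NP`): `P a` holds iff some `w` of polynomially
bounded length is such that `W (a, w)`, where the complement of `W` is in NP. -/
def InSigma2 {α A : Type} (e : α → List A) (P : α → Prop) : Prop :=
  ∃ (W : α × List Bool → Prop) (p : Polynomial ℕ), InNP (pairEnc e) (fun a => ¬ W a) ∧
    ∀ a, P a ↔ ∃ w : List Bool, w.length ≤ p.eval (e a).length ∧ W (a, w)

open Classical in
/-- One round of a computation with oracle `O`: the query `qry s` is made in state `s`, and the next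
state is `yes s` or `no s`. -/
noncomputable def ostep (O : List Bool → Prop) (qry yes no : List Bool → List Bool)
    (s : List Bool) : List Bool :=
  if O (qry s) then yes s else no s

/-- `f` is computable in polynomial time with oracle `O`: starting from the state `init a`, polynomially
many rounds are made, all states have polynomially bounded length, and `f a` is computed from the
final state. -/
def InFPO {α A : Type} (O : List Bool → Prop) (e : α → List A) (f : α → List Bool) : Prop :=
  ∃ (init : α → List Bool) (qry yes no out : List Bool → List Bool) (T b : Polynomial ℕ),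
    PolyTimeFun e id init ∧ PolyTimeFun id id qry ∧ PolyTimeFun id id yes ∧
    PolyTimeFun id id no ∧ PolyTimeFun id id out ∧
    ∀ a, (∀ i ≤ T.eval (e a).length,
        ((ostep O qry yes no)^[i] (init a)).length ≤ b.eval (e a).length) ∧
      out ((ostep O qry yes no)^[T.eval (e a).length] (init a)) = f a

/-- `{s : |s| = n, (x, s) ∈ B}` -/
def fib (B : Set (List Bool × List Bool)) (x : List Bool) (n : ℕ) : Set (List Bool) :=
  {s | s.length = n ∧ (x, s) ∈ B}

/-- The encoding of `(z, n)`: `z` encoded by `e`, then `n` in unary. -/
def unEnc {α A : Type} (e : α → List A) (p : α × ℕ) : List (A ⊕ Bool) :=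
  pairEnc e (p.1, List.replicate p.2 true)

end Pool.Agent.H83.TK
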