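import Pool.Agent.H31.Dag.TM
import Pool.Agent.H83.TK.Defs

/-!
# Simulation of a fixed machine for a given number of steps, with its output string
-/

set_option autoImplicit false

namespace Pool.Agent.H83.TK

open Pool.Agent.H80.Poly Pool.Agent.H72.NP Pool.Agent.H31.Dag.TM Turing Computability

namespace SimAux

/-- once the simulated machine has halted the stacks do not change any more -/
theorem stk_fixed (tm : FinTM2) (good : tm.Γ tm.k₁) (o : Option Bool)
    (S : tm.K → List (Sim.AT tm.m tm.k₀)) (n : ℕ) :
    ∃ o' : Option Bool, (Sim.gm tm.m tm.k₀ tm.k₁ good).step^[n] (Sum.inr o, S) =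
      (Sum.inr o', S) := by
  induction n with
  | zero => exact ⟨o, rfl⟩
  | succ n ih =>
    obtain ⟨o', h⟩ := ih
    rw [Function.iterate_succ_apply', h]
    cases o' with
    | none =>
      exact ⟨_, by simp only [GM.step, Sim.gm, Sim.rdT, Sim.opT, Sim.nxT, GOp.act,
        Function.update_eq_self]; rfl⟩
    | some b =>
      exact ⟨some b, by simp only [GM.step, Sim.gm, Sim.rdT, Sim.opT, Sim.nxT, GOp.act,
        Function.update_eq_self]⟩

/-- the machine in normal form -/
noncomputable abbrev nf (tm : FinTM2) (good : tm.Γ tm.k₁) : SM :=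
  Sim.toSM (Sim.gm tm.m tm.k₀ tm.k₁ good) (Sim.stOf (initList tm [])) (Sum.inr (some true)) tm.k₀

/-- translation of configurations -/
noncomputable abbrev tc (tm : FinTM2) (good : tm.Γ tm.k₁)
    (c : Sim.QT tm.m × (tm.K → List (Sim.AT tm.m tm.k₀))) : (nf tm good).Cf :=
  Sim.trC (Sim.gm tm.m tm.k₀ tm.k₁ good) (Sim.stOf (initList tm [])) (Sum.inr (some true)) tm.k₀ c

/-- numbering of the symbols -/
noncomputable abbrev ea (tm : FinTM2) (good : tm.Γ tm.k₁) :
    Sim.AT tm.m tm.k₀ ≃ Fin (nf tm good).na :=
  Sim.eA (Sim.gm tm.m tm.k₀ tm.k₁ good) (Sim.stOf (initList tm [])) (Sum.inr (some true)) tm.k₀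

/-- numbering of the stacks -/
noncomputable abbrev ek (tm : FinTM2) (good : tm.Γ tm.k₁) : tm.K ≃ Fin (nf tm good).nk :=
  Sim.eK (Sim.gm tm.m tm.k₀ tm.k₁ good) (Sim.stOf (initList tm [])) (Sum.inr (some true)) tm.k₀

theorem conv_tc (tm : FinTM2) (good : tm.Γ tm.k₁)
    (c : Sim.QT tm.m × (tm.K → List (Sim.AT tm.m tm.k₀))) (k : tm.K) :
    ((conv (nf tm good) (tc tm good c)).2.drop (ek tm good k).val).head?.getD [] =
      (c.2 k).map (ea tm good) := by
  unfold conv
  rw [drop_ofFn_head]
  simp only [tc, Sim.trC, ek, Equiv.symm_apply_apply]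

/-- the stacks after enough steps represent the output -/
theorem run_out (tm : FinTM2) (good : tm.Γ tm.k₁) (l : List (tm.Γ tm.k₀))
    (s : List (tm.Γ tm.k₁)) (n : ℕ) (h : TM2OutputsInTime tm l (some s) n) (T : ℕ)
    (hT : Sim.costB tm * n ≤ T) :
    ∃ S' : tm.K → List (Sim.AT tm.m tm.k₀), Sim.RelS (haltList tm s).stk S' ∧
      ∃ q, (nf tm good).run (l.map (fun a => ea tm good (Sim.symIn tm a))) T =
        tc tm good (q, S') := by
  classical
  obtain ⟨⟨st, hs⟩, hsn⟩ := h
  obtain ⟨N, hN, S', h1, h2⟩ := Sim.sim_run (k₀ := tm.k₀) good (Sim.le_costB tm) st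
    (initList tm l) (haltList tm s) _ (Sim.relS_init tm l) hs
  have hNn : N ≤ Sim.costB tm * n := hN.trans (Nat.mul_le_mul_left _ hsn)
  have e1 : (nf tm good).run (l.map (fun a => ea tm good (Sim.symIn tm a))) T =
      tc tm good ((Sim.gm tm.m tm.k₀ tm.k₁ good).step^[T]
        (Sim.stOf (initList tm []), Function.update (fun _ => []) tm.k₀
          (l.map (Sim.symIn tm)))) := by
    have e2 : l.map (fun a => ea tm good (Sim.symIn tm a)) = (l.map (Sim.symIn tm)).map
        (ea tm good) := by
      rw [List.map_map]; rfl
    unfold SM.run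
    rw [e2, Sim.init_trC, Sim.iterate_trC]
  have h1' : (Sim.gm tm.m tm.k₀ tm.k₁ good).step^[N]
      (Sim.stOf (initList tm []), Function.update (fun _ => []) tm.k₀ (l.map (Sim.symIn tm))) =
      (Sim.stOf (haltList tm s), S') := h1
  refine ⟨S', h2, ?_⟩
  obtain ⟨r, rfl⟩ : ∃ r, T = r + N := ⟨T - N, by omega⟩
  have e5 : (Sim.stOf (haltList tm s) : Sim.QT tm.m) = Sum.inr none := rfl
  obtain ⟨o', ho⟩ := stk_fixed tm good none S' r
  refine ⟨Sum.inr o', ?_⟩
  rw [e1, Function.iterate_add_apply, h1', e5, ho]

end SimAux

/-- For a fixed machine there is a polynomial-time function `F` such that `F (l, 1^T)` is the output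
on input `l`, whenever the machine halts within `t` steps and `T ≥ C t + C`. -/
theorem exists_sim {A : Type} [Finite A] [BEnc A] (tm : FinTM2) (ia : tm.Γ tm.k₀ ≃ A)
    (oa : tm.Γ tm.k₁ ≃ Bool) :
    ∃ (F : List A × UNat → List Bool) (C : ℕ), PolyTime F ∧
      ∀ (l : List A) (s : List Bool) (t T : ℕ),
        Nonempty (TM2OutputsInTime tm (l.map ia.symm) (some (s.map oa.symm)) t) →
        C * t + C ≤ T → F (l, UNat.ofNat T) = s := by
  classical
  set good : tm.Γ tm.k₁ := oa.symm true with hgood
  set M : SM := SimAux.nf tm good with hM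
  set ex : A → Fin M.na := fun b => SimAux.ea tm good (Sim.symIn tm (ia.symm b)) with hex
  set dec : Sim.AT tm.m tm.k₀ → Bool := fun a =>
    match Sim.toΓ tm.k₁ a.1 with
    | some g => oa g
    | none => false with hdec
  set outF : Fin M.na → Bool := fun i => dec ((SimAux.ea tm good).symm i) with houtF
  set r : ℕ := (SimAux.ek tm good tm.k₁).val with hr
  set F : List A × UNat → List Bool := fun x =>
    (((((dstep M)^[x.2.toNat] (conv M (M.init (x.1.map ex)))).2.drop r).head?.getD []).map
      outF) with hF
  refine ⟨F, Sim.costB tm, ?_, ?_⟩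
  · -- polynomial time
    have hbits : PolyTime (fun x : List A × UNat => x.1.map ex) :=
      PolyTime.map (g := fun w : (List A × UNat) × A => ex w.2) PolyTime.fst'
        ((PolyTime.ofFinite ex).comp PolyTime.snd')
    have hinit : PolyTime (fun x : List A × UNat => conv M (M.init (x.1.map ex))) := by
      have h1 : PolyTime (fun x : List A × UNat => ((M.start,
          List.replicate M.inp.val [] ++ ((x.1.map ex) ::
            List.replicate (M.nk - M.inp.val - 1) [])) : Dt M)) :=
        (PolyTime.const M.start).pair ((PolyTime.const _).append (hbits.cons (PolyTime.const _)))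
      refine h1.congr fun a => ?_
      unfold conv SM.init
      congr 1
      apply List.ext_getElem
      · simp
        have := M.inp.2
        omega
      · intro i h1 h2
        rw [List.length_ofFn] at h2
        simp only [List.getElem_ofFn]
        rcases Nat.lt_trichotomy i M.inp with h | h | h
        · rw [Function.update_of_ne (by intro h'; rw [Fin.ext_iff] at h'; simp at h'; omega)]
          rw [List.getElem_append_left (by simpa using h)]
          simp
        · have h' : (⟨i, h2⟩ : Fin M.nk) = M.inp := Fin.ext h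
          rw [h', Function.update_self]
          rw [List.getElem_append_right (by simp; omega)]
          simp [h]
        · rw [Function.update_of_ne (by intro h'; rw [Fin.ext_iff] at h'; simp at h'; omega)]
          rw [List.getElem_append_right (by simp; omega)]
          obtain ⟨j, hj⟩ : ∃ j, i = (M.inp : ℕ) + 1 + j := ⟨i - M.inp - 1, by omega⟩
          subst hj
          have h4 : (M.inp : ℕ) + 1 + j - (M.inp : ℕ) = j + 1 := by omega
          simp [h4]
    have htime : PolyTime (fun x : List A × UNat => toStr x.2) :=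
      PolyTime.toStr'.comp PolyTime.snd'
    obtain ⟨C1, hC1⟩ := exists_size_bound M.na
    obtain ⟨C2, hC2⟩ := exists_size_bound M.nq
    obtain ⟨bi, hbi, hbis⟩ := hinit.size_le
    have hlen : ∀ x : List A × UNat, (enc (toStr x.2)).length = x.2.toNat := by
      intro x
      exact size_unat _
    have hiter := PolyTime.iterate (h := dstep M) htime hinit (poly_dstep M)
      ⟨fun n => bi n + n * (2 * (2 * (max C1 C2) + 1)) + 2 * max C1 C2,
        ((hbi.add (PB.id.mul (PB.const _))).add (PB.const _)), by
        intro a i hi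
        rw [hlen] at hi
        have h1 := (size_iter M (conv M (M.init (a.1.map ex))) (by simp [conv]) (max C1 C2)
          (fun a => (hC1 a).trans (le_max_left _ _)) (fun a => (hC2 a).trans (le_max_right _ _))
          i).2
        have h2 := hbis a
        have h4 : a.2.toNat ≤ size a := by
          obtain ⟨l, T⟩ := a
          rw [size_pair, size_unat]
          show T.toNat ≤ _
          omega
        have h3 : i * (2 * (2 * (max C1 C2) + 1)) ≤ size a * (2 * (2 * (max C1 C2) + 1)) :=
          Nat.mul_le_mul_right _ (hi.trans h4)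
        exact h1.trans (Nat.add_le_add_right (Nat.add_le_add h2 h3) _)⟩
    have hst : PolyTime (fun x : List A × UNat =>
        ((((dstep M)^[(enc (toStr x.2)).length] (conv M (M.init (x.1.map ex)))).2.drop r).head?.getD
          [])) :=
      (hiter.snd.drop (PolyTime.const r)).head?.getD (PolyTime.const [])
    have hfin := PolyTime.map (g := fun w : (List A × UNat) × Fin M.na => outF w.2) hst
      ((PolyTime.ofFinite outF).comp PolyTime.snd')
    refine hfin.congr fun x => ?_
    rw [hlen]
  · -- correctness
    rintro l s t T ⟨h⟩ hT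
    obtain ⟨S', hS', q, hq⟩ := SimAux.run_out tm good _ _ t h T (by omega)
    have e2 : (l.map ia.symm).map (fun a => SimAux.ea tm good (Sim.symIn tm a)) = l.map ex := by
      rw [List.map_map]; rfl
    rw [e2] at hq
    have h1 : F (l, UNat.ofNat T) =
        (((conv M (M.run (l.map ex) T)).2.drop r).head?.getD []).map outF := by
      simp only [hF]
      unfold SM.run
      rw [conv_iter]
    have h2 : ((conv M (M.run (l.map ex) T)).2.drop r).head?.getD [] =
        (S' tm.k₁).map (SimAux.ea tm good) := by
      rw [hq]
      exact SimAux.conv_tc tm good (q, S') tm.k₁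
    rw [h1, h2, List.map_map]
    have h3 := hS' tm.k₁
    rw [Sim.halt_stk] at h3
    have h4 : (S' tm.k₁).map (outF ∘ SimAux.ea tm good) =
        ((S' tm.k₁).map Subtype.val).map (fun a =>
        match Sim.toΓ tm.k₁ a with
        | some g => oa g
        | none => false) := by
      rw [List.map_map]
      refine List.map_congr_left fun a _ => ?_
      simp only [houtF, hdec, Function.comp_apply, Equiv.symm_apply_apply]
    rw [h4, h3, List.map_map, List.map_map]
    have h5 : ∀ b : Bool, ((fun a : Sigma tm.Γ =>
        match Sim.toΓ tm.k₁ a with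
        | some g => oa g
        | none => false) ∘ Sigma.mk tm.k₁ ∘ oa.symm) b = b := by
      intro b
      simp only [Function.comp_apply, Sim.toΓ_mk, Equiv.apply_symm_apply]
    calc _ = s.map id := List.map_congr_left fun b _ => h5 b
      _ = s := List.map_id s

end Pool.Agent.H83.TK
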