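import Pool.Agent.H83.TK.Mach
import Pool.Agent.H83.TK.Sim

/-!
# Between Mathlib's machines and `PolyTime`
-/

set_option autoImplicit false

namespace Pool.Agent.H83.TK

open Pool.Agent.H80.Poly Pool.Agent.H72.NP Turing Computability

/-! ### from `PolyTime` to machines -/

theorem polyTimeFun_of {A : Type} [Fintype A] [BEnc A] {α β : Type} [BEnc β] {e : α → List A}
    {D : List A → β} (hD : PolyTime D) {f : α → β} (hf : ∀ a, f a = D (e a)) :
    PolyTimeFun e (enc : β → List Bool) f := by
  obtain ⟨p, t, hp⟩ := hD.poly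
  obtain ⟨tm, ia, oa, C, hM⟩ := exists_mach A p
  -- a bound for the size of the letters
  obtain ⟨c, hc⟩ : ∃ c : ℕ, ∀ a : A, size a ≤ c :=
    ⟨Finset.univ.sup fun a : A => size a, fun a =>
      Finset.le_sup (f := fun a : A => size a) (Finset.mem_univ a)⟩
  refine ⟨{ tm := tm, inputAlphabet := ia, outputAlphabet := oa,
            time := t.comp (Polynomial.X * Polynomial.C (2 * c + 1)) +
              Polynomial.C C * Polynomial.X + Polynomial.C C, outputsFun := ?_ }⟩
  intro a
  have h := hp (e a)
  have h3 : Nonempty (TM2OutputsInTime tm ((e a).map ia.symm)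
      (some ((enc (f a)).map oa.symm))
      ((t.comp (Polynomial.X * Polynomial.C (2 * c + 1)) +
        Polynomial.C C * Polynomial.X + Polynomial.C C : Polynomial ℕ).eval (e a).length)) := by
    obtain ⟨n, hn, h1⟩ := h
    rw [hf a]
    obtain ⟨h2⟩ := hM (e a) (enc (D (e a))) n h1
    refine ⟨{ h2 with steps_le_m := h2.steps_le_m.trans ?_ }⟩
    simp only [Polynomial.eval_add, Polynomial.eval_comp, Polynomial.eval_mul, Polynomial.eval_X,
      Polynomial.eval_C]
    have h4 : size (e a) ≤ (e a).length * (2 * c + 1) := size_list_le _ fun x _ => hc x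
    have h5 := hn.trans (eval_mono t h4)
    omega
  exact h3.some

theorem polyTimeFun_bool_of {A : Type} [Fintype A] [BEnc A] {α : Type} {e : α → List A}
    {D : List A → Bool} (hD : PolyTime D) {f : α → Bool} (hf : ∀ a, f a = D (e a)) :
    PolyTimeFun e encodeBool f :=
  polyTimeFun_of hD hf

theorem polyTimeFun_id_of {A : Type} [Fintype A] [BEnc A] {α : Type} {e : α → List A}
    {D : List A → List Bool} (hD : PolyTime D) {f : α → List Bool} (hf : ∀ a, f a = D (e a)) :
    PolyTimeFun e (id : List Bool → List Bool) f :=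
  polyTimeFun_of (β := Str) (D := fun l => listToStr (D l)) (PolyTime.listToStr'.comp hD)
    (f := f) hf

/-! ### from machines to `PolyTime` -/

/-- the time bound as a unary number -/
theorem conv_timeU {A : Type} [BEnc A] (T : Polynomial ℕ) (C : ℕ) :
    PolyTime (fun l : List A => (l, UNat.ofNat (C * T.eval l.length + C))) := by
  refine PolyTime.pair PolyTime.id ?_
  refine (PolyTime.unatEval (Polynomial.C C * T + Polynomial.C C)
    (PolyTime.lengthU (PolyTime.id (α := List A)))).congr fun l => ?_
  simp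

theorem exists_poly_of_fun {A : Type} [Finite A] [BEnc A] {α : Type} {e : α → List A}
    {f : α → List Bool} (h : PolyTimeFun e (id : List Bool → List Bool) f) :
    ∃ g : List A → List Bool, PolyTime g ∧ ∀ a, g (e a) = f a := by
  obtain ⟨⟨⟨tm, ia, oa⟩, time, hout⟩⟩ := h
  obtain ⟨F, C, hF, hs⟩ := exists_sim tm ia oa
  exact ⟨_, hF.comp (conv_timeU time C), fun a => hs (e a) (f a) (time.eval (e a).length) _
    ⟨hout a⟩ le_rfl⟩

theorem exists_poly_of_bool {A : Type} [Finite A] [BEnc A] {α : Type} {e : α → List A}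
    {f : α → Bool} (h : PolyTimeFun e encodeBool f) :
    ∃ g : List A → Bool, PolyTime g ∧ ∀ a, g (e a) = f a := by
  obtain ⟨⟨⟨tm, ia, oa⟩, time, hout⟩⟩ := h
  obtain ⟨F, C, hF, hs⟩ := exists_sim tm ia oa
  refine ⟨_, PolyTime.headD false (hF.comp (conv_timeU time C)), fun a => ?_⟩
  have h1 := hs (e a) [f a] (time.eval (e a).length) (C * time.eval (e a).length + C)
    ⟨hout a⟩ le_rfl
  show (F (e a, UNat.ofNat (C * time.eval (e a).length + C))).headD false = f a
  rw [h1]
  rfl

/-! ### pairs -/

/-- the first part of an encoded pair -/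
def lefts {A : Type} (l : List (A ⊕ Bool)) : List A := l.filterMap Sum.getLeft?

/-- the second part of an encoded pair -/
def rights {A : Type} (l : List (A ⊕ Bool)) : List Bool := l.filterMap Sum.getRight?

theorem lefts_pairEnc {α A : Type} (e : α → List A) (p : α × List Bool) :
    lefts (pairEnc e p) = e p.1 := by
  unfold lefts pairEnc
  rw [List.filterMap_append]
  have h1 : ((e p.1).map (Sum.inl : A → A ⊕ Bool)).filterMap Sum.getLeft? = e p.1 := by
    induction e p.1 with
    | nil => rfl
    | cons a l ih => simp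
  have h2 : (p.2.map (Sum.inr : Bool → A ⊕ Bool)).filterMap Sum.getLeft? = [] := by
    induction p.2 with
    | nil => rfl
    | cons a l ih => simp
  rw [h1, h2, List.append_nil]

theorem rights_pairEnc {α A : Type} (e : α → List A) (p : α × List Bool) :
    rights (pairEnc e p) = p.2 := by
  unfold rights pairEnc
  rw [List.filterMap_append]
  have h1 : ((e p.1).map (Sum.inl : A → A ⊕ Bool)).filterMap Sum.getRight? = [] := by
    induction e p.1 with
    | nil => rfl
    | cons a l ih => simp
  have h2 : (p.2.map (Sum.inr : Bool → A ⊕ Bool)).filterMap Sum.getRight? = p.2 := by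
    induction p.2 with
    | nil => rfl
    | cons a l ih => simp
  rw [h1, h2, List.nil_append]

theorem poly_lefts {γ A : Type} [BEnc γ] [BEnc A] {f : γ → List (A ⊕ Bool)} (hf : PolyTime f) :
    PolyTime (fun c => lefts (f c)) := by
  have h0 : PolyTime (fun x : (A ⊕ Bool) × Unit =>
      Sum.elim (fun a : A => some a) (fun _ : Bool => (none : Option A)) x.1) :=
    PolyTime.sumCase (f := fun y : A × Unit => some y.1)
      (g := fun _ : Bool × Unit => (none : Option A)) (PolyTime.someOf.comp PolyTime.fst')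
      (PolyTime.const none)
  have h1 : PolyTime (fun x : A ⊕ Bool => x.getLeft?) :=
    (h0.comp (PolyTime.pair PolyTime.id (PolyTime.const ()))).congr fun x => by cases x <;> rfl
  exact PolyTime.filterMap (g := fun w : γ × (A ⊕ Bool) => w.2.getLeft?) hf
    (h1.comp PolyTime.snd')

theorem poly_rights {γ A : Type} [BEnc γ] [BEnc A] {f : γ → List (A ⊕ Bool)} (hf : PolyTime f) :
    PolyTime (fun c => rights (f c)) := by
  have h0 : PolyTime (fun x : (A ⊕ Bool) × Unit =>
      Sum.elim (fun _ : A => (none : Option Bool)) (fun b : Bool => some b) x.1) :=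
    PolyTime.sumCase (f := fun _ : A × Unit => (none : Option Bool))
      (g := fun y : Bool × Unit => some y.1) (PolyTime.const none)
      (PolyTime.someOf.comp PolyTime.fst')
  have h1 : PolyTime (fun x : A ⊕ Bool => x.getRight?) :=
    (h0.comp (PolyTime.pair PolyTime.id (PolyTime.const ()))).congr fun x => by cases x <;> rfl
  exact PolyTime.filterMap (g := fun w : γ × (A ⊕ Bool) => w.2.getRight?) hf
    (h1.comp PolyTime.snd')

theorem poly_pairEnc {γ A : Type} [BEnc γ] [BEnc A] {f : γ → List A} {g : γ → List Bool}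
    (hf : PolyTime f) (hg : PolyTime g) :
    PolyTime (fun c => pairEnc (id : List A → List A) (f c, g c)) :=
  (hf.map (g := fun w : γ × A => (Sum.inl w.2 : A ⊕ Bool))
    (PolyTime.inl'.comp PolyTime.snd')).append
    (hg.map (g := fun w : γ × Bool => (Sum.inr w.2 : A ⊕ Bool))
      (PolyTime.inr'.comp PolyTime.snd'))

/-- simulation of a two-input machine -/
theorem exists_simBM (U : BM) :
    ∃ (F : (List Bool × List Bool) × UNat → List Bool) (C : ℕ), PolyTime F ∧
      ∀ (q y s : List Bool) (t T : ℕ), U.Out q y s t → C * t + C ≤ T →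
        F ((q, y), UNat.ofNat T) = s := by
  obtain ⟨F, C, hF, hs⟩ := exists_sim U.tm U.inp U.out
  refine ⟨fun x => F (pairEnc id (x.1.1, x.1.2), x.2), C, ?_, ?_⟩
  · exact hF.comp (PolyTime.pair
      (poly_pairEnc PolyTime.id.fst.fst PolyTime.id.fst.snd) PolyTime.id.snd)
  · intro q y s t T h hT
    exact hs (pairEnc id (q, y)) s t T h hT

/-! ### the classes in terms of `PolyTime` -/

theorem inP_iff {S : Set (List Bool)} :
    InP (id : List Bool → List Bool) S ↔
      ∃ b : List Bool → Bool, PolyTime b ∧ ∀ x, x ∈ S ↔ b x = true := by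
  constructor
  · rintro ⟨D, hD, h⟩
    obtain ⟨g, hg, hgs⟩ := exists_poly_of_bool hD
    exact ⟨g, hg, fun x => by rw [h x, ← hgs x]; rfl⟩
  · rintro ⟨b, hb, h⟩
    exact ⟨b, polyTimeFun_bool_of hb fun _ => rfl, h⟩

theorem polyTimeFun_pair_bool_iff {V : List Bool × List Bool → Bool} :
    PolyTimeFun (pairEnc (id : List Bool → List Bool)) encodeBool V ↔ PolyTime V := by
  constructor
  · intro h
    obtain ⟨g, hg, hgs⟩ := exists_poly_of_bool h
    exact (hg.comp (poly_pairEnc PolyTime.id.fst PolyTime.id.snd)).congr hgs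
  · intro h
    refine polyTimeFun_bool_of (h.comp (PolyTime.pair (poly_lefts PolyTime.id)
      (poly_rights PolyTime.id))) fun a => ?_
    rw [lefts_pairEnc, rights_pairEnc]
    rfl

theorem inP_pair_iff {S : Set (List Bool × List Bool)} :
    InP (pairEnc (id : List Bool → List Bool)) S ↔
      ∃ b : List Bool × List Bool → Bool, PolyTime b ∧ ∀ x, x ∈ S ↔ b x = true :=
  ⟨fun ⟨D, hD, h⟩ => ⟨D, polyTimeFun_pair_bool_iff.1 hD, h⟩,
    fun ⟨b, hb, h⟩ => ⟨b, polyTimeFun_pair_bool_iff.2 hb, h⟩⟩

theorem polyTimeFun_id_iff {f : List Bool → List Bool} :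
    PolyTimeFun (id : List Bool → List Bool) (id : List Bool → List Bool) f ↔ PolyTime f := by
  constructor
  · intro h
    obtain ⟨g, hg, hgs⟩ := exists_poly_of_fun h
    exact hg.congr hgs
  · intro h
    exact polyTimeFun_id_of h fun _ => rfl

theorem inNP_iff {L : List Bool → Prop} :
    InNP (id : List Bool → List Bool) L ↔
      ∃ (b : List Bool × List Bool → Bool) (p : Polynomial ℕ), PolyTime b ∧
        ∀ x, L x ↔ ∃ w : List Bool, w.length ≤ p.eval x.length ∧ b (x, w) = true :=
  ⟨fun ⟨V, p, hV, h⟩ => ⟨V, p, polyTimeFun_pair_bool_iff.1 hV, h⟩,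
    fun ⟨b, p, hb, h⟩ => ⟨b, p, polyTimeFun_pair_bool_iff.2 hb, h⟩⟩

theorem conv_triple {V : (List Bool × List Bool) × List Bool → Bool} :
    PolyTimeFun (pairEnc (pairEnc (id : List Bool → List Bool))) encodeBool V ↔ PolyTime V := by
  constructor
  · intro h
    obtain ⟨g, hg, hgs⟩ := exists_poly_of_bool h
    exact (hg.comp (poly_pairEnc (poly_pairEnc PolyTime.id.fst.fst PolyTime.id.fst.snd)
      PolyTime.id.snd)).congr hgs
  · intro h
    refine polyTimeFun_bool_of (h.comp (PolyTime.pair (PolyTime.pair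
      (poly_lefts (poly_lefts PolyTime.id)) (poly_rights (poly_lefts PolyTime.id)))
      (poly_rights PolyTime.id))) fun a => ?_
    rw [lefts_pairEnc, rights_pairEnc, lefts_pairEnc, rights_pairEnc]
    rfl

theorem inNP_pair_iff {L : List Bool × List Bool → Prop} :
    InNP (pairEnc (id : List Bool → List Bool)) L ↔
      ∃ (b : (List Bool × List Bool) × List Bool → Bool) (p : Polynomial ℕ), PolyTime b ∧
        ∀ x, L x ↔ ∃ w : List Bool, w.length ≤ p.eval (x.1.length + x.2.length) ∧
          b (x, w) = true := by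
  have hl : ∀ x : List Bool × List Bool,
      (pairEnc (id : List Bool → List Bool) x).length = x.1.length + x.2.length := by
    intro x
    simp [pairEnc]
  constructor
  · rintro ⟨V, p, hV, h⟩
    exact ⟨V, p, conv_triple.1 hV, fun x => by rw [h x, hl]⟩
  · rintro ⟨b, p, hb, h⟩
    exact ⟨b, p, conv_triple.2 hb, fun x => by rw [h x, hl]⟩

end Pool.Agent.H83.TK
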