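import Mathlib

/-!
# Counting bit strings
-/

set_option autoImplicit false

namespace Pool.Agent.H83.TK

/-- the number of strings of length `N` in `P` -/
noncomputable def cnt (N : ℕ) (P : Set (List Bool)) : ℕ := {r : List Bool | r.length = N ∧ r ∈ P}.ncard

theorem finite_len (N : ℕ) (P : Set (List Bool)) : {r : List Bool | r.length = N ∧ r ∈ P}.Finite := by
  refine (List.finite_length_eq Bool N).subset ?_
  rintro r ⟨h, _⟩
  exact h

theorem cnt_univ (N : ℕ) : cnt N Set.univ = 2 ^ N := by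
  have h : {r : List Bool | r.length = N ∧ r ∈ Set.univ} = {r : List Bool | r.length = N} := by
    ext r; simp
  rw [cnt, h, ← Nat.card_coe_set_eq]
  have h2 : Nat.card {r : List Bool | r.length = N} = Nat.card (List.Vector Bool N) := rfl
  rw [h2, Nat.card_eq_fintype_card, card_vector, Fintype.card_bool]

theorem cnt_mono {N : ℕ} {P Q : Set (List Bool)} (h : ∀ r ∈ P, r.length = N → r ∈ Q) :
    cnt N P ≤ cnt N Q := by
  apply Set.ncard_le_ncard _ (finite_len N Q)
  rintro r ⟨h1, h2⟩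
  exact ⟨h1, h r h2 h1⟩

theorem cnt_compl (N : ℕ) (P : Set (List Bool)) : cnt N P + cnt N Pᶜ = 2 ^ N := by
  rw [← cnt_univ N, cnt, cnt, cnt, ← Set.ncard_union_eq _ (finite_len N P) (finite_len N Pᶜ)]
  · congr 1
    ext r
    simp only [Set.mem_union, Set.mem_setOf_eq, Set.mem_compl_iff, Set.mem_univ, and_true]
    tauto
  · rw [Set.disjoint_left]
    rintro r ⟨_, h1⟩ ⟨_, h2⟩
    exact h2 h1

/-- independent parts -/
theorem cnt_split (a b : ℕ) (P Q : Set (List Bool)) :
    cnt (a + b) {r | r.take a ∈ P ∧ r.drop a ∈ Q} = cnt a P * cnt b Q := by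
  rw [cnt, cnt, cnt, ← Set.ncard_prod]
  symm
  rw [← Set.ncard_image_of_injOn (f := fun p : List Bool × List Bool => p.1 ++ p.2)]
  · congr 1
    ext r
    simp only [Set.mem_image, Set.mem_prod, Set.mem_setOf_eq, Prod.exists]
    constructor
    · rintro ⟨x, y, ⟨⟨hx, hxP⟩, ⟨hy, hyQ⟩⟩, rfl⟩
      refine ⟨by simp [hx, hy], ?_, ?_⟩
      · rw [List.take_left' hx]; exact hxP
      · rw [List.drop_left' hx]; exact hyQ
    · rintro ⟨hl, h1, h2⟩
      refine ⟨r.take a, r.drop a, ⟨⟨?_, h1⟩, ⟨?_, h2⟩⟩, List.take_append_drop a r⟩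
      · rw [List.length_take, hl]; omega
      · rw [List.length_drop, hl]; omega
  · rintro ⟨x, y⟩ ⟨⟨hx, _⟩, _⟩ ⟨x', y'⟩ ⟨⟨hx', _⟩, _⟩ h
    simp only at h hx hx'
    have := List.append_inj h (by rw [hx, hx'])
    rw [Prod.mk.injEq]
    exact this

/-- a condition on a prefix -/
theorem cnt_take {j N : ℕ} (h : j ≤ N) (P : Set (List Bool)) :
    cnt N {r | r.take j ∈ P} = cnt j P * 2 ^ (N - j) := by
  have h1 := cnt_split j (N - j) P Set.univ
  rw [cnt_univ, Nat.add_sub_cancel' h] at h1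
  rw [← h1]
  congr 1
  ext r
  simp

/-- If more than `2^(L-c)` strings of length at most `L` are good then a good prefix has probability
at least `2^(-c-1)`. -/
theorem exists_prefix {L c B : ℕ} {G : Set (List Bool)} (hB : L ≤ B) {S : Finset (List Bool)}
    (hS : ∀ q ∈ S, q ∈ G ∧ q.length ≤ L) (hc : 2 ^ L ≤ S.card * 2 ^ c) :
    2 ^ B ≤ 2 ^ (c + 1) * cnt B {r | ∃ j ≤ r.length, r.take j ∈ G} := by
  classical
  by_contra hcon
  push Not at hcon
  have h1 : ∀ j ∈ Finset.range (L + 1), 2 ^ (c + 1) * cnt j G ≤ 2 ^ j := by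
    intro j hj
    rw [Finset.mem_range] at hj
    have hjB : j ≤ B := by omega
    have h2 : cnt j G * 2 ^ (B - j) ≤ cnt B {r | ∃ j ≤ r.length, r.take j ∈ G} := by
      rw [← cnt_take hjB G]
      apply cnt_mono
      intro r hr hl
      exact ⟨j, by omega, hr⟩
    have h3 : 2 ^ (c + 1) * cnt j G * 2 ^ (B - j) < 2 ^ j * 2 ^ (B - j) := by
      rw [← pow_add, Nat.add_sub_cancel' hjB, mul_assoc]
      exact lt_of_le_of_lt (Nat.mul_le_mul_left _ h2) hcon
    exact (Nat.lt_of_mul_lt_mul_right h3).le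
  have h2 : S.card ≤ ∑ j ∈ Finset.range (L + 1), cnt j G := by
    rw [Finset.card_eq_sum_card_fiberwise (f := fun q : List Bool => q.length)
      (t := Finset.range (L + 1))]
    · apply Finset.sum_le_sum
      intro j _
      rw [cnt, ← Set.ncard_coe_finset]
      apply Set.ncard_le_ncard _ (finite_len j G)
      intro q hq
      simp only [Finset.coe_filter, Set.mem_setOf_eq] at hq
      exact ⟨hq.2, (hS q hq.1).1⟩
    · intro q hq
      have := (hS q hq).2
      simp only [Finset.coe_range, Set.mem_Iio]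
      omega
  have h3 : 2 ^ (c + 1) * S.card ≤ ∑ j ∈ Finset.range (L + 1), 2 ^ j := by
    calc 2 ^ (c + 1) * S.card ≤ 2 ^ (c + 1) * ∑ j ∈ Finset.range (L + 1), cnt j G :=
          Nat.mul_le_mul_left _ h2
      _ = ∑ j ∈ Finset.range (L + 1), 2 ^ (c + 1) * cnt j G := by rw [Finset.mul_sum]
      _ ≤ ∑ j ∈ Finset.range (L + 1), 2 ^ j := Finset.sum_le_sum h1
  have h4 : ∑ j ∈ Finset.range (L + 1), 2 ^ j < 2 ^ (L + 1) :=
    Nat.geomSum_lt (m := 2) le_rfl (fun k hk => Finset.mem_range.1 hk)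
  have h5 : 2 ^ (L + 1) ≤ 2 ^ (c + 1) * S.card := by
    rw [pow_succ, pow_succ]
    nlinarith
  omega

/-- block `i` of length `B` -/
def blkB (B i : ℕ) (r : List Bool) : List Bool := (r.drop (i * B)).take B

private lemma Cnt_fail (B : ℕ) (P : Set (List Bool)) (n : ℕ) :
    cnt (n * B) {r | ∀ i < n, blkB B i r ∈ P} = cnt B P ^ n := by
  induction n with
  | zero =>
    have h : {r : List Bool | ∀ i < 0, blkB B i r ∈ P} = Set.univ := by
      ext r; simp
    rw [h, Nat.zero_mul, cnt_univ, pow_zero, pow_zero]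
  | succ n ih =>
    have h : {r : List Bool | ∀ i < n + 1, blkB B i r ∈ P} =
        {r | r.take B ∈ P ∧ r.drop B ∈ {r | ∀ i < n, blkB B i r ∈ P}} := by
      ext r
      simp only [Set.mem_setOf_eq]
      have hb : ∀ i, blkB B (i + 1) r = blkB B i (r.drop B) := by
        intro i
        rw [blkB, blkB, List.drop_drop]
        congr 2
        ring
      constructor
      · intro h
        refine ⟨?_, fun i hi => ?_⟩
        · have := h 0 (by omega)
          simpa [blkB] using this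
        · rw [← hb]; exact h (i + 1) (by omega)
      · rintro ⟨h0, h1⟩ i hi
        cases i with
        | zero => simpa [blkB] using h0
        | succ i => rw [hb]; exact h1 i (by omega)
    rw [h, show (n + 1) * B = B + n * B by ring, cnt_split, ih, pow_succ, mul_comm]

private lemma Cnt_bern (m n : ℕ) : m ^ n * (m + n) ≤ m * (m + 1) ^ n := by
  induction n with
  | zero => simp
  | succ n ih =>
    calc m ^ (n + 1) * (m + (n + 1)) = m ^ n * (m * m + m * n + m) := by ring
      _ ≤ m ^ n * (m * m + m * n + m + n) := Nat.mul_le_mul_left _ (by omega)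
      _ = (m + 1) * (m ^ n * (m + n)) := by ring
      _ ≤ (m + 1) * (m * (m + 1) ^ n) := Nat.mul_le_mul_left _ ih
      _ = m * (m + 1) ^ (n + 1) := by ring

private lemma Cnt_two {m : ℕ} (hm : 1 ≤ m) : 2 * m ^ (m + 1) ≤ (m + 1) ^ (m + 1) := by
  have h := Cnt_bern m (m + 1)
  have h2 : m * (2 * m ^ (m + 1)) ≤ m * (m + 1) ^ (m + 1) := by
    refine le_trans ?_ h
    calc m * (2 * m ^ (m + 1)) = m ^ (m + 1) * (2 * m) := by ring
      _ ≤ m ^ (m + 1) * (m + (m + 1)) := Nat.mul_le_mul_left _ (by omega)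
  exact Nat.le_of_mul_le_mul_left h2 (by omega)

/-- amplification: `2^(c+1)` independent trials, each with success probability at least `2^(-c-1)` -/
theorem cnt_amplify {B c : ℕ} {P : Set (List Bool)} (h : 2 ^ B ≤ 2 ^ (c + 1) * cnt B P) :
    2 ^ (2 ^ (c + 1) * B) ≤ 2 * cnt (2 ^ (c + 1) * B) {r | ∃ i < 2 ^ (c + 1), blkB B i r ∈ P} := by
  obtain ⟨m, hm⟩ : ∃ m, 2 ^ (c + 1) = m + 1 :=
    ⟨2 ^ (c + 1) - 1, by have := Nat.one_le_two_pow (n := c + 1); omega⟩
  have hm1 : 1 ≤ m := by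
    have : 2 ≤ 2 ^ (c + 1) := by
      calc 2 = 2 ^ 1 := rfl
        _ ≤ 2 ^ (c + 1) := Nat.pow_le_pow_right (by norm_num) (by omega)
    omega
  rw [hm] at h ⊢
  set M := m + 1 with hM
  have hcompl := cnt_compl (M * B) {r | ∃ i < M, blkB B i r ∈ P}
  have hset : {r : List Bool | ∃ i < M, blkB B i r ∈ P}ᶜ = {r | ∀ i < M, blkB B i r ∈ Pᶜ} := by
    ext r
    simp only [Set.mem_compl_iff, Set.mem_setOf_eq, not_exists, not_and]
  rw [hset, Cnt_fail B Pᶜ M] at hcompl
  set F := cnt B Pᶜ with hF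
  have hF1 : cnt B P + F = 2 ^ B := cnt_compl B P
  have hF2 : M * F ≤ m * 2 ^ B := by
    have h1 : M * cnt B P + M * F = M * 2 ^ B := by rw [← mul_add, hF1]
    have h2 : M * 2 ^ B = m * 2 ^ B + 2 ^ B := by rw [hM]; ring
    omega
  have hF3 : 2 * F ^ M ≤ 2 ^ (M * B) := by
    have h1 : M ^ M * (2 * F ^ M) ≤ M ^ M * 2 ^ (M * B) := by
      calc M ^ M * (2 * F ^ M) = 2 * (M * F) ^ M := by rw [mul_pow]; ring
        _ ≤ 2 * (m * 2 ^ B) ^ M := Nat.mul_le_mul_left _ (Nat.pow_le_pow_left hF2 M)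
        _ = (2 * m ^ M) * 2 ^ (M * B) := by
            rw [mul_pow, ← pow_mul, mul_comm B M]; ring
        _ ≤ M ^ M * 2 ^ (M * B) := Nat.mul_le_mul_right _ (Cnt_two hm1)
    exact Nat.le_of_mul_le_mul_left h1 (by positivity)
  omega

end Pool.Agent.H83.TK
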