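import Mathlib

/-!
# Linear hashing over the field with two elements
-/

set_option autoImplicit false

namespace Pool.Agent.H83.TK

/-- inner product of bit strings, mod 2 -/
def ip (r s : List Bool) : Bool :=
  (List.zipWith (fun a b => a && b) r s).foldl (fun a b => a ^^ b) false

/-- linear hash function of the matrix with rows `M` -/
def hsh (M : List (List Bool)) (s : List Bool) : List Bool := M.map fun r => ip r s

theorem length_hsh (M : List (List Bool)) (s : List Bool) : (hsh M s).length = M.length := by
  simp [hsh]

theorem hsh_nil (s : List Bool) : hsh [] s = [] := rfl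

theorem hsh_cons (r : List Bool) (M : List (List Bool)) (s : List Bool) :
    hsh (r :: M) s = ip r s :: hsh M s := rfl

private theorem foldl_xor (l : List Bool) (a b : Bool) :
    l.foldl (fun a b => a ^^ b) (a ^^ b) = (a ^^ l.foldl (fun a b => a ^^ b) b) := by
  induction l generalizing a b with
  | nil => rfl
  | cons c l ih =>
    rw [List.foldl_cons, List.foldl_cons, Bool.xor_assoc, ih]

private theorem ip_nil : ip [] [] = false := rfl

private theorem ip_cons (a b : Bool) (r s : List Bool) :
    ip (a :: r) (b :: s) = ((a && b) ^^ ip r s) := by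
  unfold ip
  rw [List.zipWith_cons_cons, List.foldl_cons]
  have h := foldl_xor (List.zipWith (fun a b => a && b) r s) (a && b) false
  rw [Bool.xor_false] at h
  rw [Bool.false_xor]
  exact h

/-- all strings of length `n` -/
private def allL : ℕ → List (List Bool)
  | 0 => [[]]
  | n + 1 => (allL n).map (fun r => false :: r) ++ (allL n).map (fun r => true :: r)

private theorem length_allL (n : ℕ) : (allL n).length = 2 ^ n := by
  induction n with
  | zero => rfl
  | succ n ih =>
    rw [allL, List.length_append, List.length_map, List.length_map, ih, pow_succ]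
    ring

private theorem mem_allL {n : ℕ} {r : List Bool} (h : r ∈ allL n) : r.length = n := by
  induction n generalizing r with
  | zero =>
    rw [allL, List.mem_singleton] at h
    rw [h]
    rfl
  | succ n ih =>
    rw [allL, List.mem_append, List.mem_map, List.mem_map] at h
    rcases h with ⟨x, hx, rfl⟩ | ⟨x, hx, rfl⟩
    · rw [List.length_cons, ih hx]
    · rw [List.length_cons, ih hx]

private theorem countP_not (L : List (List Bool)) (p : List Bool → Bool) :
    L.countP p + L.countP (fun r => !p r) = L.length := by
  induction L with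
  | nil => rfl
  | cons a L ih =>
    rw [List.countP_cons, List.countP_cons, List.length_cons]
    cases p a <;> simp <;> omega

private theorem count_half (n : ℕ) : ∀ s s' : List Bool, s.length = n → s'.length = n → s ≠ s' →
    2 * (allL n).countP (fun r => ip r s == ip r s') = 2 ^ n := by
  induction n with
  | zero =>
    intro s s' h h' hne
    rw [List.length_eq_zero_iff] at h h'
    exact absurd (h.trans h'.symm) hne
  | succ n ih =>
    intro s s' h h' hne
    obtain ⟨a, t, rfl⟩ := List.exists_cons_of_length_eq_add_one h
    obtain ⟨a', t', rfl⟩ := List.exists_cons_of_length_eq_add_one h'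
    rw [List.length_cons, Nat.add_right_cancel_iff] at h h'
    rw [allL, List.countP_append, List.countP_map, List.countP_map]
    have h1 : ((fun r => ip r (a :: t) == ip r (a' :: t')) ∘ fun r => false :: r)
        = fun r => ip r t == ip r t' := by
      funext r
      simp [ip_cons]
    rw [h1]
    by_cases haa : a = a'
    · subst haa
      have htt : t ≠ t' := fun hh => hne (by rw [hh])
      have h2 : ((fun r => ip r (a :: t) == ip r (a :: t')) ∘ fun r => true :: r)
          = fun r => ip r t == ip r t' := by
        funext r
        simp only [Function.comp, ip_cons]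
        cases a <;> cases ip r t <;> cases ip r t' <;> rfl
      rw [h2]
      have := ih t t' h h' htt
      rw [pow_succ]
      omega
    · have h2 : ((fun r => ip r (a :: t) == ip r (a' :: t')) ∘ fun r => true :: r)
          = fun r => !(ip r t == ip r t') := by
        funext r
        simp only [Function.comp, ip_cons]
        cases a <;> cases a' <;> cases ip r t <;> cases ip r t' <;> simp_all
      rw [h2]
      have := countP_not (allL n) (fun r => ip r t == ip r t')
      rw [length_allL] at this
      rw [this, pow_succ]
      ring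

private theorem sum_swap (L : List (List Bool)) (P : Finset (List Bool × List Bool)) :
    (L.map fun r => (P.filter fun z => ip r z.1 = ip r z.2).card).sum =
      ∑ z ∈ P, L.countP (fun r => ip r z.1 == ip r z.2) := by
  induction L with
  | nil => simp
  | cons a L ih =>
    rw [List.map_cons, List.sum_cons, ih, Finset.card_filter, ← Finset.sum_add_distrib]
    refine Finset.sum_congr rfl fun z _ => ?_
    rw [List.countP_cons]
    by_cases h : ip a z.1 = ip a z.2
    · simp [h, add_comm]
    · simp [h]

private theorem sum_lower (L : List (List Bool)) (f : List Bool → ℕ) (c : ℕ)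
    (h : ∀ r ∈ L, c < 2 * f r) : (c + 1) * L.length ≤ 2 * (L.map f).sum := by
  induction L with
  | nil => simp
  | cons a L ih =>
    rw [List.map_cons, List.sum_cons, List.length_cons]
    have h1 := h a List.mem_cons_self
    have h2 := ih fun r hr => h r (List.mem_cons_of_mem _ hr)
    rw [Nat.mul_succ, Nat.mul_add]
    omega

/-- some row separates half of the pairs -/
theorem exists_row (n : ℕ) (P : Finset (List Bool × List Bool))
    (hP : ∀ z ∈ P, z.1.length = n ∧ z.2.length = n ∧ z.1 ≠ z.2) :
    ∃ r : List Bool, r.length = n ∧
      2 * (P.filter fun z => ip r z.1 = ip r z.2).card ≤ P.card := by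
  by_contra hcon
  push Not at hcon
  have h1 := sum_lower (allL n) (fun r => (P.filter fun z => ip r z.1 = ip r z.2).card) P.card
    (fun r hr => hcon r (mem_allL hr))
  rw [sum_swap, length_allL, Finset.mul_sum] at h1
  have h2 : ∑ z ∈ P, 2 * (allL n).countP (fun r => ip r z.1 == ip r z.2) = ∑ z ∈ P, 2 ^ n :=
    Finset.sum_congr rfl fun z hz => count_half n z.1 z.2 (hP z hz).1 (hP z hz).2.1 (hP z hz).2.2
  rw [h2, Finset.sum_const, smul_eq_mul] at h1
  have h3 : 0 < 2 ^ n := by positivity
  nlinarith

private theorem exists_rows (n k : ℕ) (P : Finset (List Bool × List Bool))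
    (hP : ∀ z ∈ P, z.1.length = n ∧ z.2.length = n ∧ z.1 ≠ z.2) :
    ∃ M : List (List Bool), M.length = k ∧ (∀ r ∈ M, r.length = n) ∧
      2 ^ k * (P.filter fun z => hsh M z.1 = hsh M z.2).card ≤ P.card := by
  induction k with
  | zero =>
    refine ⟨[], rfl, by simp, ?_⟩
    rw [pow_zero, one_mul]
    exact Finset.card_filter_le _ _
  | succ k ih =>
    obtain ⟨M, hM, hr, hc⟩ := ih
    obtain ⟨r, hrl, hrc⟩ := exists_row n (P.filter fun z => hsh M z.1 = hsh M z.2)
      (fun z hz => hP z (Finset.mem_filter.1 hz).1)
    refine ⟨r :: M, by rw [List.length_cons, hM], ?_, ?_⟩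
    · intro r' hr'
      rcases List.mem_cons.1 hr' with h | h
      · rw [h, hrl]
      · exact hr r' h
    · have h1 : (P.filter fun z => hsh (r :: M) z.1 = hsh (r :: M) z.2)
          = (P.filter fun z => hsh M z.1 = hsh M z.2).filter fun z => ip r z.1 = ip r z.2 := by
        rw [Finset.filter_filter]
        refine Finset.filter_congr fun z _ => ?_
        rw [hsh_cons, hsh_cons, List.cons.injEq, and_comm]
      rw [h1, pow_succ, mul_assoc]
      exact (Nat.mul_le_mul_left _ hrc).trans hc

/-- some matrix with `k` rows leaves few colliding elements -/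
theorem exists_matrix (n k : ℕ) (Z : Finset (List Bool)) (hZ : ∀ s ∈ Z, s.length = n) :
    ∃ M : List (List Bool), M.length = k ∧ (∀ r ∈ M, r.length = n) ∧
      2 ^ k * (Z.filter fun s => ∃ s' ∈ Z, s' ≠ s ∧ hsh M s' = hsh M s).card ≤ Z.card ^ 2 := by
  classical
  obtain ⟨M, hM, hr, hc⟩ := exists_rows n k Z.offDiag (fun z hz => by
    rw [Finset.mem_offDiag] at hz
    exact ⟨hZ _ hz.1, hZ _ hz.2.1, hz.2.2⟩)
  refine ⟨M, hM, hr, ?_⟩
  have h1 : (Z.filter fun s => ∃ s' ∈ Z, s' ≠ s ∧ hsh M s' = hsh M s).card ≤
      (Z.offDiag.filter fun z => hsh M z.1 = hsh M z.2).card := by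
    have hsub : (Z.filter fun s => ∃ s' ∈ Z, s' ≠ s ∧ hsh M s' = hsh M s) ⊆
        (Z.offDiag.filter fun z => hsh M z.1 = hsh M z.2).image Prod.fst := by
      intro s hs
      rw [Finset.mem_filter] at hs
      obtain ⟨hs, s', hs', hne, hh⟩ := hs
      rw [Finset.mem_image]
      refine ⟨(s, s'), ?_, rfl⟩
      rw [Finset.mem_filter, Finset.mem_offDiag]
      exact ⟨⟨hs, hs', fun h => hne h.symm⟩, hh.symm⟩
    exact (Finset.card_le_card hsub).trans Finset.card_image_le
  have h2 : Z.offDiag.card ≤ Z.card ^ 2 := by
    rw [Finset.offDiag_card, sq]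
    exact Nat.sub_le _ _
  exact (Nat.mul_le_mul_left _ h1).trans (hc.trans h2)

end Pool.Agent.H83.TK
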