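import Pool.Agent.H83.TK.Greedy
import Pool.Agent.H83.TK.Conv

/-!
# Pairs of bit strings as bit strings
-/

set_option autoImplicit false

namespace Pool.Agent.H83.TK

open Pool.Agent.H80.Poly

/-- the pair `(u, v)` as a bit string -/
def pk (u v : List Bool) : List Bool := List.replicate u.length true ++ false :: (u ++ v)

/-- first component -/
def fs (z : List Bool) : List Bool := (z.drop (lead z + 1)).take (lead z)

/-- second component -/
def sn (z : List Bool) : List Bool := z.drop (2 * lead z + 1)

theorem lead_pk (u v : List Bool) : lead (pk u v) = u.length := lead_replicate_append _ _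

theorem drop_pk (u v : List Bool) (k : ℕ) : (pk u v).drop (u.length + 1 + k) = (u ++ v).drop k := by
  unfold pk
  rw [show u.length + 1 + k = (List.replicate u.length true).length + (k + 1) by simp; omega,
    List.drop_append]
  simp

theorem fs_pk (u v : List Bool) : fs (pk u v) = u := by
  have := drop_pk u v 0
  unfold fs
  rw [lead_pk]
  rw [Nat.add_zero] at this
  rw [this]
  simp

theorem sn_pk (u v : List Bool) : sn (pk u v) = v := by
  have := drop_pk u v u.length
  unfold sn
  rw [lead_pk, show 2 * u.length + 1 = u.length + 1 + u.length by omega, this]
  simp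

theorem length_pk (u v : List Bool) : (pk u v).length = 2 * u.length + 1 + v.length := by
  simp only [pk, List.length_append, List.length_replicate, List.length_cons]
  omega

theorem pk_append (u v w : List Bool) : pk u v ++ w = pk u (v ++ w) := by
  simp [pk]

theorem length_fs_le (z : List Bool) : (fs z).length ≤ z.length := by
  unfold fs
  rw [List.length_take, List.length_drop]
  omega

theorem length_sn_le (z : List Bool) : (sn z).length ≤ z.length := by
  unfold sn
  rw [List.length_drop]
  omega

variable {α : Type} [BEnc α]

theorem poly_lead' {y : α → List Bool} (hy : PolyTime y) : PolyTime (fun a => lead (y a)) := by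
  unfold lead
  exact PolyTime.findIdx (g := fun w : α × Bool => !w.2) hy (PolyTime.not PolyTime.snd')

theorem poly_pk {u v : α → List Bool} (hu : PolyTime u) (hv : PolyTime v) :
    PolyTime (fun a => pk (u a) (v a)) := by
  unfold pk
  obtain ⟨b, hb, hbs⟩ := hu.size_le
  refine PolyTime.append ?_ ((PolyTime.const false).cons (hu.append hv))
  exact PolyTime.replicate (PolyTime.length hu)
    ⟨b, hb, fun a => (length_le_size _).trans (hbs a)⟩ (PolyTime.const true)

theorem poly_fs {z : α → List Bool} (hz : PolyTime z) : PolyTime (fun a => fs (z a)) := by
  unfold fs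
  exact PolyTime.take (PolyTime.drop hz (PolyTime.succ (poly_lead' hz))) (poly_lead' hz)

theorem poly_sn {z : α → List Bool} (hz : PolyTime z) : PolyTime (fun a => sn (z a)) := by
  unfold sn
  exact PolyTime.drop hz (PolyTime.succ (PolyTime.mul (PolyTime.const 2) (poly_lead' hz)))

end Pool.Agent.H83.TK
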