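import Pool.Agent.H83.TK.Conv

/-!
# Existence of a universal machine
-/

set_option autoImplicit false

namespace Pool.Agent.H83.TK

open Pool.Agent.H80.Poly Pool.Agent.H72.NP Turing Computability

namespace UnivAux

/-! ### while loops -/

section

variable {σ : Type} [BEnc σ] {h : σ → σ ⊕ Str} {p : Prog} {t : ℕ → ℕ}

theorem loop_spec (hp : ∀ s, ∃ n ≤ t (size s), Ex p (ini (enc s)) (ini (enc (h s))) n) (B : ℕ) :
    ∀ (N : ℕ) (x : ℕ → σ) (b : Str), (∀ i < N, h (x i) = Sum.inl (x (i + 1))) →
      h (x N) = Sum.inr b → (∀ i ≤ N, t (size (x i)) ≤ B) →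
      ∃ n ≤ (N + 1) * (B + 2) + 1, Ex (Prog.loop 0 ff (Prog.seq (Prog.pop 0) p))
        (ini (false :: enc (x 0))) (ini (true :: b)) n := by
  intro N
  induction N with
  | zero =>
    intro x b _ h2 h3
    obtain ⟨n, hn, e⟩ := hp (x 0)
    rw [h2] at e
    have e' : Ex p (ini (enc (x 0))) (ini (true :: b)) n := e
    have h4 := h3 0 le_rfl
    refine ⟨(1 + n) + 1 + 1, by omega, Ex.loopT (by rw [ini_0]; rfl)
      (Ex.seq (pop_ini false _) e') (Ex.loopF (by rw [ini_0]; rfl))⟩
  | succ N ih =>
    intro x b h1 h2 h3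
    obtain ⟨n, hn, e⟩ := hp (x 0)
    rw [h1 0 (by omega)] at e
    have e' : Ex p (ini (enc (x 0))) (ini (false :: enc (x 1))) n := e
    have h4 := h3 0 (by omega)
    obtain ⟨m, hm, e2⟩ := ih (fun i => x (i + 1)) b (fun i hi => h1 (i + 1) (by omega)) h2
      (fun i hi => h3 (i + 1) (by omega))
    refine ⟨(1 + n) + m + 1, ?_, Ex.loopT (by rw [ini_0]; rfl)
      (Ex.seq (pop_ini false _) e') e2⟩
    have e3 : (N + 1 + 1) * (B + 2) = (N + 1) * (B + 2) + (B + 2) := by ring
    omega

/-- iterate `h` until it gives an output -/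
def whileP (p : Prog) : Prog := Prog.seq (Prog.push 0 false)
  (Prog.seq (Prog.loop 0 ff (Prog.seq (Prog.pop 0) p)) (Prog.pop 0))

theorem while_spec (hp : ∀ s, ∃ n ≤ t (size s), Ex p (ini (enc s)) (ini (enc (h s))) n) (B : ℕ)
    (N : ℕ) (x : ℕ → σ) (b : Str) (h1 : ∀ i < N, h (x i) = Sum.inl (x (i + 1)))
    (h2 : h (x N) = Sum.inr b) (h3 : ∀ i ≤ N, t (size (x i)) ≤ B) :
    ∃ n ≤ (N + 1) * (B + 2) + 3, Ex (whileP p) (ini (enc (x 0))) (ini b) n := by
  obtain ⟨n, hn, e⟩ := loop_spec hp B N x b h1 h2 h3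
  exact ⟨1 + (n + 1), by omega, Ex.seq (push_ini false _) (Ex.seq e (pop_ini true _))⟩

end

/-! ### machines as data -/

/-- data of a state: the stack that is read, the operation (nothing, pop, push), the next states -/
abbrev StD : Type := ℕ × Option (Option ℕ) × ℕ × List ℕ

/-- data of a machine: states; start state, halting state and output stack; the empty stacks before
and after the input stack; the input letters; the values of the output letters -/
abbrev Hd : Type := List StD × (ℕ × ℕ × ℕ) × (List (List ℕ) × List (List ℕ)) ×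
  ((ℕ × ℕ) × (ℕ × ℕ)) × List Bool

/-- configurations as data -/
abbrev Cd : Type := ℕ × List (List ℕ)

/-- effect of an operation -/
def uact (o : Option (Option ℕ)) (s : List ℕ) : List ℕ :=
  o.elim s (fun a => a.elim s.tail (fun a => a :: s))

/-- data of the current state -/
def cur (H : Hd) (c : Cd) : StD := (H.1[c.1]?).getD (0, none, 0, [])

/-- universal step -/
def ustep (H : Hd) (c : Cd) : Cd :=
  ((H31.Dag.TM.top c.2 (cur H c).1).elim (cur H c).2.2.1
    (fun a => ((cur H c).2.2.2[a]?).getD 0),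
   H31.Dag.TM.repl c.2 (cur H c).1 (uact (cur H c).2.1))

/-- output of a configuration -/
def uout (H : Hd) (c : Cd) : Str :=
  listToStr (((c.2[H.2.1.2.2]?).getD []).map (fun j => (H.2.2.2.2[j]?).getD false))

/-- step of the loop -/
def uh (z : Hd × Cd) : (Hd × Cd) ⊕ Str :=
  bif decide (z.2.1 = z.1.2.1.2.1) then Sum.inr (uout z.1 z.2) else Sum.inl (z.1, ustep z.1 z.2)

/-- initial data -/
def uinit (z : (Hd × Str) × Str) : Hd × Cd :=
  (z.1.1, (z.1.1.2.1.1, z.1.1.2.2.1.1 ++
    (((strToList z.1.2).map (fun b => bif b then z.1.1.2.2.2.1.1.2 else z.1.1.2.2.2.1.1.1) ++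
      (strToList z.2).map (fun b => bif b then z.1.1.2.2.2.1.2.2 else z.1.1.2.2.2.1.2.1)) ::
      z.1.1.2.2.1.2)))

theorem poly_cur : PolyTime (fun z : Hd × Cd => cur z.1 z.2) :=
  (PolyTime.getElem? PolyTime.fst'.fst PolyTime.snd'.fst).getD (PolyTime.const _)

theorem poly_uact {γ : Type} [BEnc γ] {o : γ → Option (Option ℕ)} {s : γ → List ℕ}
    (ho : PolyTime o) (hs : PolyTime s) : PolyTime (fun c => uact (o c) (s c)) := by
  unfold uact
  refine PolyTime.optElim (g := fun w : Option ℕ × γ => w.1.elim (s w.2).tail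
    (fun a => a :: s w.2)) ho hs ?_
  exact PolyTime.optElim (g := fun w : ℕ × (Option ℕ × γ) => w.1 :: s w.2.2) PolyTime.fst'
    (hs.comp PolyTime.snd').tail (PolyTime.fst'.cons (hs.comp PolyTime.snd'.snd))

theorem poly_ustep : PolyTime (fun z : Hd × Cd => ustep z.1 z.2) := by
  have hc := poly_cur
  have hS : PolyTime (fun z : Hd × Cd => z.2.2) := PolyTime.snd'.snd
  have hs : PolyTime (fun z : Hd × Cd => ((z.2.2.drop (cur z.1 z.2).1).head?.getD [])) :=
    (hS.drop hc.fst).head?.getD (PolyTime.const [])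
  refine PolyTime.pair ?_ ?_
  · refine PolyTime.optElim (g := fun w : ℕ × (Hd × Cd) =>
      ((cur w.2.1 w.2.2).2.2.2[w.1]?).getD 0) hs.head? hc.snd.snd.fst ?_
    exact (PolyTime.getElem? ((hc.comp PolyTime.snd').snd.snd.snd) PolyTime.fst').getD
      (PolyTime.const 0)
  · exact (hS.take hc.fst).append ((poly_uact hc.snd.fst hs).cons (hS.drop hc.fst.succ))

theorem poly_uout : PolyTime (fun z : Hd × Cd => uout z.1 z.2) := by
  refine PolyTime.listToStr'.comp (PolyTime.map
    (l := fun z : Hd × Cd => (z.2.2[z.1.2.1.2.2]?).getD [])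
    (g := fun w : (Hd × Cd) × ℕ => (w.1.1.2.2.2.2[w.2]?).getD false) ?_ ?_)
  · exact (PolyTime.getElem? PolyTime.snd'.snd PolyTime.fst'.snd.fst.snd.snd).getD
      (PolyTime.const [])
  · exact (PolyTime.getElem? PolyTime.fst'.fst.snd.snd.snd.snd PolyTime.snd').getD
      (PolyTime.const false)

theorem poly_uh : PolyTime uh := by
  refine PolyTime.cond (PolyTime.eq PolyTime.snd'.fst PolyTime.fst'.snd.fst.snd.fst)
    (PolyTime.inr'.comp poly_uout) (PolyTime.inl'.comp (PolyTime.fst'.pair poly_ustep))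

theorem poly_uinit : PolyTime uinit := by
  refine PolyTime.fst'.fst.pair (PolyTime.pair PolyTime.fst'.fst.snd.fst.fst
    (PolyTime.append PolyTime.fst'.fst.snd.snd.fst.fst
      (PolyTime.cons (PolyTime.append ?_ ?_) PolyTime.fst'.fst.snd.snd.fst.snd)))
  · refine PolyTime.map (l := fun z : (Hd × Str) × Str => strToList z.1.2)
      (g := fun w : ((Hd × Str) × Str) × Bool =>
        bif w.2 then w.1.1.1.2.2.2.1.1.2 else w.1.1.1.2.2.2.1.1.1)
      (PolyTime.strToList'.comp PolyTime.fst'.snd) ?_
    exact PolyTime.cond PolyTime.snd' PolyTime.fst'.fst.fst.snd.snd.snd.fst.fst.snd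
      PolyTime.fst'.fst.fst.snd.snd.snd.fst.fst.fst
  · refine PolyTime.map (l := fun z : (Hd × Str) × Str => strToList z.2)
      (g := fun w : ((Hd × Str) × Str) × Bool =>
        bif w.2 then w.1.1.1.2.2.2.1.2.2 else w.1.1.1.2.2.2.1.2.1)
      (PolyTime.strToList'.comp PolyTime.snd') ?_
    exact PolyTime.cond PolyTime.snd' PolyTime.fst'.fst.fst.snd.snd.snd.fst.snd.snd
      PolyTime.fst'.fst.fst.snd.snd.snd.fst.snd.fst

/-! ### the header of a machine in normal form -/

section

variable (M : SM)

/-- data of an operation -/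
def opd {na : ℕ} : Op na → Option (Option ℕ)
  | .keep => none
  | .pop => some none
  | .push a => some (some a.val)

/-- data of the states -/
def stD (q : Fin M.nq) : StD :=
  ((M.rd q).val, opd (M.op q), (M.nx q none).val, List.ofFn (fun a => (M.nx q (some a)).val))

/-- header -/
def hdOf (hlt : Fin M.nq) (ok : Fin M.nk) (i0 i1 j0 j1 : Fin M.na) (f : Fin M.na → Bool) : Hd :=
  (List.ofFn (stD M), (M.start.val, hlt.val, ok.val),
    (List.replicate M.inp.val [], List.replicate (M.nk - M.inp.val - 1) []),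
    ((i0.val, i1.val), (j0.val, j1.val)), List.ofFn f)

/-- configurations over numbers -/
def cv (z : H31.Dag.TM.Dt M) : Cd := (z.1.val, z.2.map (List.map Fin.val))

variable {M}

theorem enc_map_val {n : ℕ} (l : List (Fin n)) : enc (l.map Fin.val) = enc l := by
  induction l with
  | nil => rfl
  | cons a l ih => rw [List.map_cons, enc_cons, enc_cons, ih]; rfl

theorem enc_map_map_val {n : ℕ} (l : List (List (Fin n))) :
    enc (l.map (List.map Fin.val)) = enc l := by
  induction l with
  | nil => rfl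
  | cons a l ih => rw [List.map_cons, enc_cons, enc_cons, ih, enc_map_val]

theorem enc_cv (z : H31.Dag.TM.Dt M) : enc (cv M z) = enc z := by
  unfold cv
  rw [enc_prod, enc_prod]
  simp only
  rw [enc_map_map_val]
  rfl

theorem top_map {A B : Type} (g : A → B) (S : List (List A)) (r : ℕ) :
    H31.Dag.TM.top (S.map (List.map g)) r = (H31.Dag.TM.top S r).map g := by
  unfold H31.Dag.TM.top
  rw [← List.map_drop]
  cases S.drop r with
  | nil => rfl
  | cons s l => cases s <;> rfl

theorem repl_map {A B : Type} (g : A → B) (S : List (List A)) (r : ℕ) (f : List A → List A)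
    (f' : List B → List B) (hf : ∀ s, f' (s.map g) = (f s).map g) :
    H31.Dag.TM.repl (S.map (List.map g)) r f' = (H31.Dag.TM.repl S r f).map (List.map g) := by
  unfold H31.Dag.TM.repl
  rw [List.map_append, List.map_cons, ← List.map_drop, ← List.map_drop, ← List.map_take, ← hf]
  cases S.drop r with
  | nil => rfl
  | cons s l => rfl

theorem uact_opd {na : ℕ} (o : Op na) (s : List (Fin na)) :
    uact (opd o) (s.map Fin.val) = (o.act s).map Fin.val := by
  cases o with
  | keep => rfl
  | push a => rfl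
  | pop => simp [uact, opd, Op.act]

theorem cur_hdOf {hlt : Fin M.nq} {ok : Fin M.nk} {i0 i1 j0 j1 : Fin M.na} {f : Fin M.na → Bool}
    (z : H31.Dag.TM.Dt M) : cur (hdOf M hlt ok i0 i1 j0 j1 f) (cv M z) = stD M z.1 := by
  unfold cur hdOf cv
  simp

theorem ustep_cv {hlt : Fin M.nq} {ok : Fin M.nk} {i0 i1 j0 j1 : Fin M.na} {f : Fin M.na → Bool}
    (z : H31.Dag.TM.Dt M) :
    ustep (hdOf M hlt ok i0 i1 j0 j1 f) (cv M z) = cv M (H31.Dag.TM.dstep M z) := by
  unfold ustep
  rw [cur_hdOf]
  have e1 : (cv M z).2 = z.2.map (List.map Fin.val) := rfl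
  rw [e1, top_map, repl_map Fin.val z.2 (stD M z.1).1 (M.op z.1).act (uact (stD M z.1).2.1)
    (fun s => uact_opd (M.op z.1) s)]
  unfold H31.Dag.TM.dstep cv
  refine Prod.ext ?_ rfl
  simp only
  have e2 : (stD M z.1).1 = (M.rd z.1 : ℕ) := rfl
  rw [e2]
  cases H31.Dag.TM.top z.2 (M.rd z.1) with
  | none => rfl
  | some a => simp [stD]

theorem uout_cv {hlt : Fin M.nq} {ok : Fin M.nk} {i0 i1 j0 j1 : Fin M.na} {f : Fin M.na → Bool}
    (c : M.Cf) : uout (hdOf M hlt ok i0 i1 j0 j1 f) (cv M (H31.Dag.TM.conv M c)) =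
      listToStr ((c.stk ok).map f) := by
  unfold uout hdOf cv H31.Dag.TM.conv
  congr 1
  simp only [List.getElem?_map]
  have e1 : (List.ofFn c.stk)[ok.val]? = some (c.stk ok) := by simp
  rw [e1]
  simp only [Option.map_some, Option.getD_some, List.map_map]
  apply List.map_congr_left
  intro j _
  simp

theorem conv_init (l : List (Fin M.na)) : H31.Dag.TM.conv M (M.init l) =
    (M.start, List.replicate M.inp.val [] ++ (l :: List.replicate (M.nk - M.inp.val - 1) [])) := by
  symm
  unfold H31.Dag.TM.conv SM.init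
  congr 1
  apply List.ext_getElem
  · simp
    have := M.inp.2
    omega
  · intro i h1 h2
    rw [List.length_ofFn] at h2
    simp only [List.getElem_ofFn]
    rcases Nat.lt_trichotomy i M.inp with h | h | h
    · rw [Function.update_of_ne (by intro h'; rw [Fin.ext_iff] at h'; simp at h'; omega)]
      rw [List.getElem_append_left (by simpa using h)]
      simp
    · have h' : (⟨i, h2⟩ : Fin M.nk) = M.inp := Fin.ext h
      rw [h', Function.update_self]
      rw [List.getElem_append_right (by simp; omega)]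
      simp [h]
    · rw [Function.update_of_ne (by intro h'; rw [Fin.ext_iff] at h'; simp at h'; omega)]
      rw [List.getElem_append_right (by simp; omega)]
      obtain ⟨j, hj⟩ : ∃ j, i = (M.inp : ℕ) + 1 + j := ⟨i - M.inp - 1, by omega⟩
      subst hj
      have h4 : (M.inp : ℕ) + 1 + j - (M.inp : ℕ) = j + 1 := by omega
      simp [h4]

theorem uinit_hdOf {hlt : Fin M.nq} {ok : Fin M.nk} {i0 i1 j0 j1 : Fin M.na}
    {f : Fin M.na → Bool} (q y : List Bool) :
    uinit ((hdOf M hlt ok i0 i1 j0 j1 f, listToStr q), listToStr y) =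
      (hdOf M hlt ok i0 i1 j0 j1 f, cv M (H31.Dag.TM.conv M (M.init
        (q.map (fun b => bif b then i1 else i0) ++ y.map (fun b => bif b then j1 else j0))))) := by
  rw [conv_init]
  unfold uinit cv hdOf strToList listToStr
  refine Prod.ext rfl (Prod.ext rfl ?_)
  simp only [List.map_append, List.map_cons, List.map_replicate, List.map_map, List.map_nil]
  congr 1
  congr 1
  congr 1
  · apply List.map_congr_left
    intro b _
    cases b <;> rfl
  · apply List.map_congr_left
    intro b _
    cases b <;> rfl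

end

/-! ### the normal form of a machine with two inputs -/

section

variable (M : BM)

/-- the normal form of a machine -/
noncomputable abbrev nf : SM := Sim.smOf M.tm (M.out.symm true)

/-- numbering of the symbols -/
noncomputable def eA' : Sim.AT M.tm.m M.tm.k₀ ≃ Fin (nf M).na :=
  Sim.eA (Sim.gm M.tm.m M.tm.k₀ M.tm.k₁ (M.out.symm true)) (Sim.stOf (initList M.tm []))
    (Sum.inr (some true)) M.tm.k₀

/-- numbering of the states -/
noncomputable def eQ' : Sim.QT M.tm.m ≃ Fin (nf M).nq :=
  Sim.eQ (Sim.gm M.tm.m M.tm.k₀ M.tm.k₁ (M.out.symm true)) (Sim.stOf (initList M.tm []))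
    (Sum.inr (some true)) M.tm.k₀

/-- numbering of the stacks -/
noncomputable def eK' : M.tm.K ≃ Fin (nf M).nk :=
  Sim.eK (Sim.gm M.tm.m M.tm.k₀ M.tm.k₁ (M.out.symm true)) (Sim.stOf (initList M.tm []))
    (Sum.inr (some true)) M.tm.k₀

open Classical in
/-- values of the output letters -/
noncomputable def vals (j : Fin (nf M).na) : Bool :=
  decide (((eA' M).symm j).1 = ⟨M.tm.k₁, M.out.symm true⟩)

/-- the input letters -/
noncomputable def lett (x : Bool ⊕ Bool) : Fin (nf M).na :=
  Sim.symSM M.tm (M.out.symm true) (M.inp.symm x)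

/-- the input -/
noncomputable def input (q y : List Bool) : List (Fin (nf M).na) :=
  q.map (fun b => bif b then lett M (Sum.inl true) else lett M (Sum.inl false)) ++
    y.map (fun b => bif b then lett M (Sum.inr true) else lett M (Sum.inr false))

theorem input_eq (q y : List Bool) : input M q y =
    ((pairEnc id (q, y)).map M.inp.symm).map (Sim.symSM M.tm (M.out.symm true)) := by
  unfold input pairEnc
  simp only [List.map_append, List.map_map, id]
  congr 1
  · apply List.map_congr_left
    intro b _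
    cases b <;> rfl
  · apply List.map_congr_left
    intro b _
    cases b <;> rfl

theorem iter_eq (l : List (M.tm.Γ M.tm.k₀)) (i : ℕ) :
    (nf M).step^[i] ((nf M).init (l.map (Sim.symSM M.tm (M.out.symm true)))) =
      Sim.trC (Sim.gm M.tm.m M.tm.k₀ M.tm.k₁ (M.out.symm true)) (Sim.stOf (initList M.tm []))
        (Sum.inr (some true)) M.tm.k₀
        ((Sim.gm M.tm.m M.tm.k₀ M.tm.k₁ (M.out.symm true)).step^[i]
          (Sim.stOf (initList M.tm []),
            Function.update (fun _ => []) M.tm.k₀ (l.map (Sim.symIn M.tm)))) := by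
  have e2 : l.map (Sim.symSM M.tm (M.out.symm true)) = (l.map (Sim.symIn M.tm)).map
      (Sim.eA (Sim.gm M.tm.m M.tm.k₀ M.tm.k₁ (M.out.symm true)) (Sim.stOf (initList M.tm []))
        (Sum.inr (some true)) M.tm.k₀) := by
    rw [List.map_map]; rfl
  rw [e2]
  unfold nf Sim.smOf
  rw [Sim.init_trC, Sim.iterate_trC]

theorem run_out (q y s : List Bool) (t : ℕ) (h : M.Out q y s t) :
    ∃ N ≤ Sim.costB M.tm * t,
      (∀ i < N, ((nf M).step^[i] ((nf M).init (input M q y))).q ≠ eQ' M (Sum.inr none)) ∧
      ((nf M).step^[N] ((nf M).init (input M q y))).q = eQ' M (Sum.inr none) ∧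
      (((nf M).step^[N] ((nf M).init (input M q y))).stk (eK' M M.tm.k₁)).map (vals M) = s := by
  classical
  obtain ⟨⟨⟨n, hs⟩, hsn⟩⟩ := h
  obtain ⟨N, hN, S', h1, h2⟩ := Sim.sim_run (k₀ := M.tm.k₀) (M.out.symm true)
    (Sim.le_costB M.tm) n (initList M.tm _) (haltList M.tm _) _ (Sim.relS_init M.tm _) hs
  rw [input_eq]
  simp only [iter_eq]
  set G := Sim.gm M.tm.m M.tm.k₀ M.tm.k₁ (M.out.symm true) with hG
  set X : Sim.QT M.tm.m × (M.tm.K → List (Sim.AT M.tm.m M.tm.k₀)) :=
    (Sim.stOf (initList M.tm []), Function.update (fun _ => []) M.tm.k₀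
      (((pairEnc id (q, y)).map M.inp.symm).map (Sim.symIn M.tm))) with hX
  have h1' : G.step^[N] X = (Sum.inr none, S') := h1
  refine ⟨N, hN.trans (Nat.mul_le_mul_left _ hsn), ?_, ?_, ?_⟩
  · intro i hi h3
    have h4 : (G.step^[i] X).1 = Sum.inr none := (eQ' M).injective h3
    obtain ⟨r, rfl⟩ : ∃ r, N = r + (1 + i) := ⟨N - (1 + i), by omega⟩
    rw [Function.iterate_add_apply, Function.iterate_add_apply, Function.iterate_one] at h1'
    obtain ⟨b, S'', h5⟩ : ∃ b S'', G.step (G.step^[i] X) = (Sum.inr (some b), S'') := by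
      have h6 : G.step^[i] X = (Sum.inr none, (G.step^[i] X).2) := Prod.ext h4 rfl
      rw [h6]
      exact ⟨_, _, rfl⟩
    rw [h5] at h1'
    have h7 := Sim.acc_fixed M.tm (M.out.symm true) b S'' r
    rw [← hG, h1'] at h7
    simp at h7
  · rw [h1']
    rfl
  · rw [h1']
    have h3 := h2 M.tm.k₁
    rw [Sim.halt_stk] at h3
    have e : (Sim.trC G (Sim.stOf (initList M.tm [])) (Sum.inr (some true)) M.tm.k₀
        ((Sum.inr none : Sim.QT M.tm.m), S')).stk (eK' M M.tm.k₁) =
        (S' M.tm.k₁).map (eA' M) := by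
      show (S' ((eK' M).symm (eK' M M.tm.k₁))).map (eA' M) = _
      rw [Equiv.symm_apply_apply]
    have e' := congrArg (List.map (vals M)) e
    refine e'.trans ?_
    rw [List.map_map]
    have e2 : (vals M) ∘ (eA' M) = (fun g => decide (g = ⟨M.tm.k₁, M.out.symm true⟩)) ∘
        Subtype.val := by
      funext a
      simp [vals]
    rw [e2, ← List.map_map, h3, List.map_map, List.map_map]
    conv_rhs => rw [← List.map_id s]
    apply List.map_congr_left
    intro b _
    simp

end

end UnivAux

/-! ### the universal machine -/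

namespace UnivAux

theorem out_mono {M : BM} {q y s : List Bool} {t t' : ℕ} (h : M.Out q y s t) (ht : t ≤ t') :
    M.Out q y s t' := by
  obtain ⟨⟨h1, h2⟩⟩ := h
  exact ⟨⟨h1, h2.trans ht⟩⟩

/-- the two inputs as a pair of raw strings -/
def dec (l : List (Bool ⊕ Bool)) : Str × Str := (listToStr (lefts l), listToStr (rights l))

theorem poly_dec : PolyTime dec :=
  (PolyTime.listToStr'.comp (poly_lefts PolyTime.id)).pair
    (PolyTime.listToStr'.comp (poly_rights PolyTime.id))

theorem dec_pairEnc (q y : List Bool) : dec (pairEnc id (q, y)) = (listToStr q, listToStr y) := by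
  unfold dec
  rw [lefts_pairEnc, rights_pairEnc]
  rfl

theorem enc_lts (q : List Bool) : enc (listToStr q) = q := rfl

/-- the prefix of the program -/
def pre (H : Hd) : List Bool := esc (enc H) ++ [false]

theorem enc_dec (H : Hd) (q y : List Bool) :
    enc (dec (pairEnc id (pre H ++ q, y))) = enc ((H, listToStr q), listToStr y) := by
  have e1 : pre H ++ q = pr (enc H) q := by
    unfold pre pr
    rw [List.append_assoc]
    rfl
  rw [dec_pairEnc, enc_prod, enc_prod, enc_prod]
  simp only [enc_lts]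
  rw [e1]

theorem size_bb (l : List (Bool ⊕ Bool)) : size l = 5 * l.length := by
  induction l with
  | nil => rfl
  | cons a l ih =>
    rw [size_cons, ih, List.length_cons]
    have : size a = 2 := by cases a <;> rfl
    omega

theorem length_pairEnc (q y : List Bool) :
    (pairEnc (id : List Bool → List Bool) (q, y)).length = q.length + y.length := by
  simp [pairEnc]

theorem size_input (H : Hd) (q y : List Bool) : size ((H, listToStr q), listToStr y) =
    2 * ((pre H).length + q.length) + 1 + y.length := by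
  rw [size_pair, size_pair]
  have e1 : size (listToStr q) = q.length := rfl
  have e2 : size (listToStr y) = y.length := rfl
  have e3 : (pre H).length = 2 * size H + 1 := by
    unfold pre
    simp [size]
  rw [e1, e2, e3]

/-- header of a machine -/
noncomputable def hd (M : BM) : Hd :=
  hdOf (nf M) (eQ' M (Sum.inr none)) (eK' M M.tm.k₁) (lett M (Sum.inl false))
    (lett M (Sum.inl true)) (lett M (Sum.inr false)) (lett M (Sum.inr true)) (vals M)

/-- the data of the run -/
noncomputable def xs (M : BM) (q y : List Bool) (i : ℕ) : Hd × Cd :=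
  (hd M, cv (nf M) (H31.Dag.TM.conv (nf M) ((nf M).step^[i] ((nf M).init (input M q y)))))

theorem xs_zero (M : BM) (q y : List Bool) :
    xs M q y 0 = uinit ((hd M, listToStr q), listToStr y) := by
  unfold hd
  rw [uinit_hdOf]
  rfl

theorem xs_step (M : BM) (q y : List Bool) (i : ℕ)
    (h : ((nf M).step^[i] ((nf M).init (input M q y))).q ≠ eQ' M (Sum.inr none)) :
    uh (xs M q y i) = Sum.inl (xs M q y (i + 1)) := by
  unfold uh
  have e1 : decide ((xs M q y i).2.1 = (xs M q y i).1.2.1.2.1) = false := by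
    rw [decide_eq_false_iff_not]
    intro h'
    exact h (Fin.ext h')
  rw [e1]
  simp only [cond_false]
  congr 1
  refine Prod.ext rfl ?_
  show ustep (hd M) (cv (nf M) _) = cv (nf M) _
  unfold hd
  rw [ustep_cv, ← H31.Dag.TM.conv_step, Function.iterate_succ_apply']

theorem xs_halt (M : BM) (q y : List Bool) (i : ℕ)
    (h : ((nf M).step^[i] ((nf M).init (input M q y))).q = eQ' M (Sum.inr none)) :
    uh (xs M q y i) = Sum.inr (listToStr ((((nf M).step^[i] ((nf M).init (input M q y))).stk
      (eK' M M.tm.k₁)).map (vals M))) := by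
  unfold uh
  have e1 : decide ((xs M q y i).2.1 = (xs M q y i).1.2.1.2.1) = true := by
    rw [decide_eq_true_eq]
    exact congrArg Fin.val h
  rw [e1]
  simp only [cond_true]
  congr 1
  show uout (hd M) (cv (nf M) _) = _
  unfold hd
  rw [uout_cv]

theorem size_xs (M : BM) : ∃ K, ∀ (q y : List Bool) (i : ℕ), size (xs M q y i) ≤
    2 * size (hd M) + 1 + (size (uinit ((hd M, listToStr q), listToStr y)) + i * K + K) := by
  obtain ⟨C1, hC1⟩ := H31.Dag.TM.exists_size_bound (nf M).na
  obtain ⟨C2, hC2⟩ := H31.Dag.TM.exists_size_bound (nf M).nq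
  refine ⟨2 * (2 * max C1 C2 + 1), fun q y i => ?_⟩
  have h1 := (H31.Dag.TM.size_iter (nf M) (H31.Dag.TM.conv (nf M) ((nf M).init (input M q y)))
    (by simp [H31.Dag.TM.conv]) (max C1 C2)
    (fun a => (hC1 a).trans (le_max_left _ _)) (fun a => (hC2 a).trans (le_max_right _ _)) i).2
  rw [← H31.Dag.TM.conv_iter] at h1
  have e0 : ∀ z : H31.Dag.TM.Dt (nf M), size (cv (nf M) z) = size z := fun z => by
    unfold size
    rw [enc_cv]
  have e1 : size (xs M q y i) = 2 * size (hd M) + 1 +
      size (H31.Dag.TM.conv (nf M) ((nf M).step^[i] ((nf M).init (input M q y)))) := by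
    unfold xs
    rw [size_pair, e0]
  have e2 : size (uinit ((hd M, listToStr q), listToStr y)) = 2 * size (hd M) + 1 +
      size (H31.Dag.TM.conv (nf M) ((nf M).init (input M q y))) := by
    rw [← xs_zero]
    unfold xs
    rw [size_pair, e0]
    rfl
  rw [e1, e2]
  omega

end UnivAux

theorem exists_universal : ∃ U : BM, Universal U := by
  classical
  obtain ⟨p1, t1, hp1⟩ := UnivAux.poly_dec.poly
  obtain ⟨p2, t2, hp2⟩ := UnivAux.poly_uinit.poly
  obtain ⟨p3, t3, hp3⟩ := UnivAux.poly_uh.poly
  obtain ⟨b, ⟨b2, hb2⟩, hb⟩ := UnivAux.poly_uinit.size_le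
  obtain ⟨tm, ia, oa, C, hU⟩ := exists_mach (Bool ⊕ Bool)
    (Prog.seq p1 (Prog.seq p2 (UnivAux.whileP p3)))
  refine ⟨⟨tm, ia, oa⟩, fun M => ?_⟩
  obtain ⟨K, hK⟩ := UnivAux.size_xs M
  set H := UnivAux.hd M with hH
  set w := UnivAux.pre H with hw
  set D := Sim.costB M.tm with hD
  -- the time bound
  have hPB : PB (fun m => t1.eval (5 * (w.length + m)) + (t2.eval (2 * (w.length + m) + 1 + m) +
      ((D * m + 1) * (t3.eval (2 * size H + 1 + (b2.eval (2 * (w.length + m) + 1 + m) +
        D * m * K + K)) + 2) + 3)) + C * (w.length + m) + C) := by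
    have i1 : PB (fun m => w.length + m) := (PB.const _).add PB.id
    have i2 : PB (fun m => 2 * (w.length + m) + 1 + m) :=
      (((PB.const 2).mul i1).add (PB.const 1)).add PB.id
    have i3 : PB (fun m => D * m) := (PB.const D).mul PB.id
    have i4 : PB (fun m => 2 * size H + 1 + (b2.eval (2 * (w.length + m) + 1 + m) +
        D * m * K + K)) :=
      (PB.const (2 * size H + 1)).add (((PB.evalComp b2 i2).add (i3.mul (PB.const K))).add
        (PB.const K))
    exact (((PB.evalComp t1 ((PB.const 5).mul i1)).add ((PB.evalComp t2 i2).add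
      (((i3.add (PB.const 1)).mul ((PB.evalComp t3 i4).add (PB.const 2))).add
        (PB.const 3)))).add ((PB.const C).mul i1)).add (PB.const C)
  obtain ⟨P, hP⟩ := hPB
  refine ⟨w, P, fun q y s t h => ?_⟩
  obtain ⟨N, hN, r1, r2, r3⟩ := UnivAux.run_out M q y s t h
  obtain ⟨n1, hn1, e1⟩ := hp1 (pairEnc id (w ++ q, y))
  obtain ⟨n2, hn2, e2⟩ := hp2 ((H, listToStr q), listToStr y)
  rw [UnivAux.enc_dec] at e1
  rw [← UnivAux.xs_zero] at e2
  set m := q.length + y.length + t with hm
  have hq : q.length ≤ m := by omega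
  have hy : y.length ≤ m := by omega
  have ht : t ≤ m := by omega
  have hsz : size ((H, listToStr q), listToStr y) ≤ 2 * (w.length + m) + 1 + m := by
    rw [UnivAux.size_input, ← hw]
    omega
  have hND : N ≤ D * m := hN.trans (Nat.mul_le_mul_left _ ht)
  obtain ⟨n3, hn3, e3⟩ := UnivAux.while_spec (t := fun n => t3.eval n) hp3
    (t3.eval (2 * size H + 1 + (b2.eval (2 * (w.length + m) + 1 + m) + D * m * K + K)))
    N (UnivAux.xs M q y) (listToStr s) (fun i hi => UnivAux.xs_step M q y i (r1 i hi))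
    (by rw [UnivAux.xs_halt M q y N r2, r3]) (fun i hi => by
      apply eval_mono
      refine (hK q y i).trans ?_
      have g1 : size (UnivAux.uinit ((H, listToStr q), listToStr y)) ≤
          b2.eval (2 * (w.length + m) + 1 + m) :=
        ((hb _).trans (hb2 _)).trans (eval_mono b2 hsz)
      have g2 : i * K ≤ D * m * K := Nat.mul_le_mul_right _ (hi.trans hND)
      omega)
  have e4 := Ex.seq e1 (Ex.seq e2 e3)
  refine UnivAux.out_mono (hU _ _ _ e4) ?_
  refine le_trans ?_ (hP m)
  have l0 : (pairEnc (id : List Bool → List Bool) (w ++ q, y)).length ≤ w.length + m := by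
    rw [UnivAux.length_pairEnc, List.length_append]
    omega
  have l1 : n1 ≤ t1.eval (5 * (w.length + m)) := by
    refine hn1.trans (eval_mono t1 ?_)
    have := UnivAux.size_bb (pairEnc id (w ++ q, y))
    unfold size at this
    rw [this]
    omega
  have l2 : n2 ≤ t2.eval (2 * (w.length + m) + 1 + m) := hn2.trans (eval_mono t2 hsz)
  have l3 := Nat.mul_le_mul_right (t3.eval (2 * size H + 1 +
    (b2.eval (2 * (w.length + m) + 1 + m) + D * m * K + K)) + 2) (Nat.succ_le_succ hND)
  have l4 := Nat.mul_le_mul_left C l0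
  simp only [Nat.succ_eq_add_one] at l3
  simp only
  omega

end Pool.Agent.H83.TK
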