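import Pool.Agent.H83.TK.Lay
import Pool.Agent.H80.Poly.More

/-!
# The verification of certificates takes polynomial time
-/

set_option autoImplicit false

namespace Pool.Agent.H83.TK

open Pool.Agent.H80.Poly

variable {α : Type} [BEnc α]

theorem poly_lead {y : α → List Bool} (hy : PolyTime y) : PolyTime (fun a => lead (y a)) :=
  PolyTime.findIdx (g := fun z : α × Bool => !z.2) hy (PolyTime.snd'.not)

theorem poly_two_pow {i : α → ℕ} (hi : PolyTime i) (hb : ∃ β, PB β ∧ ∀ a, i a ≤ β (size a)) :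
    PolyTime (fun a => 2 ^ i a) := by
  have h1 : PolyTime (fun a => val (List.replicate (i a) false ++ [true])) :=
    PolyTime.val ((PolyTime.replicate hi hb (PolyTime.const false)).append
      (PolyTime.const [true]))
  refine h1.congr fun a => ?_
  rw [val_append, val_replicate_false, List.length_replicate]
  simp [val]

theorem poly_blk {n t : α → ℕ} {y : α → List Bool} (hn : PolyTime n) (ht : PolyTime t)
    (hy : PolyTime y) : PolyTime (fun a => blk (n a) (t a) (y a)) :=
  (hy.drop (ht.mul hn)).take hn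

private theorem poly_ip {r s : α → List Bool} (hr : PolyTime r) (hs : PolyTime s) :
    PolyTime (fun a => ip (r a) (s a)) := by
  have h1 : PolyTime (fun a => List.zipWith (fun x y => x && y) (r a) (s a)) :=
    PolyTime.zipWith (g := fun z : α × Bool × Bool => z.2.1 && z.2.2) hr hs
      ((PolyTime.snd'.fst).and (PolyTime.snd'.snd))
  exact PolyTime.foldl_add (h := fun z : α × Bool × Bool => z.2.1 ^^ z.2.2) h1
    (PolyTime.const false) ((PolyTime.snd'.fst).xor (PolyTime.snd'.snd))
    ⟨fun _ => 0, PB.const 0, fun a s x _ => by rw [size_bool, size_bool]; exact le_rfl⟩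

theorem poly_hsh {M : α → List (List Bool)} {s : α → List Bool} (hM : PolyTime M)
    (hs : PolyTime s) : PolyTime (fun a => hsh (M a) (s a)) :=
  PolyTime.map (g := fun z : α × List Bool => ip z.2 (s z.1)) hM
    (poly_ip PolyTime.snd' (hs.comp PolyTime.fst'))

theorem poly_par {n : α → ℕ} {κ : α → List Bool} (hn : PolyTime n) (hκ : PolyTime κ) :
    PolyTime (fun a => par (n a) (κ a)) :=
  poly_lead (hκ.take hn.succ)

private theorem par_le (n : ℕ) (κ : List Bool) : par n κ ≤ n + 1 := by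
  unfold par
  refine (lead_le_length _).trans ?_
  rw [List.length_take]
  exact min_le_left _ _

private theorem bd_lift {γ : Type} [BEnc γ] {n : α → ℕ} (h : ∃ β, PB β ∧ ∀ a, n a ≤ β (size a)) :
    ∃ β, PB β ∧ ∀ z : α × γ, n z.1 ≤ β (size z) := by
  obtain ⟨β, ⟨p, hp⟩, h⟩ := h
  refine ⟨fun m => p.eval m, PB.eval p, fun z => ?_⟩
  refine (h z.1).trans ((hp _).trans (eval_mono p ?_))
  rw [size_prod]
  omega

theorem poly_mat {n j : α → ℕ} {κ : α → List Bool} (hn : PolyTime n) (hj : PolyTime j)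
    (hκ : PolyTime κ) (hnb : ∃ β, PB β ∧ ∀ a, n a ≤ β (size a)) :
    PolyTime (fun a => mat (n a) (κ a) (j a)) := by
  have h1 : PolyTime (fun a => List.range (par (n a) (κ a) + 2 - j a)) := by
    refine PolyTime.range (((poly_par hn hκ).add (PolyTime.const 2)).sub hj) ?_
    obtain ⟨β, hβ, h⟩ := hnb
    refine ⟨fun m => β m + 3, hβ.add (PB.const 3), fun a => ?_⟩
    have h1 := par_le (n a) (κ a)
    have h2 := h a
    show par (n a) (κ a) + 2 - j a ≤ β (size a) + 3
    omega
  have fst : PolyTime (fun z : α × ℕ => z.1) := PolyTime.fst'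
  have snd : PolyTime (fun z : α × ℕ => z.2) := PolyTime.snd'
  exact PolyTime.map (g := fun z : α × ℕ => blk (n z.1) (j z.1 * (n z.1 + 3) + z.2)
    ((κ z.1).drop (n z.1 + 1))) h1
    (poly_blk (hn.comp fst) (((hj.comp fst).mul ((hn.comp fst).add (PolyTime.const 3))).add snd)
      ((hκ.comp fst).drop (hn.comp fst).succ))

theorem poly_rounds {n m : α → ℕ} (hn : PolyTime n) (hm : PolyTime m) :
    PolyTime (fun a => rounds (n a) (m a)) := by
  have h1 : PolyTime (fun a => (Computability.encodeNat (n a)).length) :=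
    PolyTime.length (PolyTime.bits hn)
  refine ((h1.succ).min (hm.add (PolyTime.const 2))).congr fun a => ?_
  unfold rounds
  have h2 : (Computability.encodeNat (n a)).length = (n a).size := size_nat (n a)
  rw [h2]

private theorem all_congr {β : Type} {l : List β} {p q : β → Bool} (h : ∀ x ∈ l, p x = q x) :
    l.all p = l.all q := by
  rw [Bool.eq_iff_iff, List.all_eq_true, List.all_eq_true]
  exact forall₂_congr fun x hx => by rw [h x hx]

theorem poly_certB {b : List Bool × List Bool → Bool} (hb : PolyTime b)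
    {x κ V : α → List Bool} {n i : α → ℕ} (hx : PolyTime x) (hn : PolyTime n) (hκ : PolyTime κ)
    (hi : PolyTime i) (hV : PolyTime V) (hnb : ∃ β, PB β ∧ ∀ a, n a ≤ β (size a))
    (hib : ∃ β, PB β ∧ ∀ a, i a ≤ β (size a)) :
    PolyTime (fun a => certB (fun s => b (x a, s)) (n a) (κ a) (i a) (V a)) := by
  have hcapb : ∃ β, PB β ∧ ∀ a, cap (n a) ≤ β (size a) := by
    obtain ⟨β, hβ, h⟩ := hnb
    refine ⟨fun m => 4 * β m + 4, ((PB.const 4).mul hβ).add (PB.const 4), fun a => ?_⟩
    have := h a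
    show 4 * n a + 4 ≤ 4 * β (size a) + 4
    omega
  have hcap : PolyTime (fun a => cap (n a)) :=
    ((PolyTime.const 4).mul hn).add (PolyTime.const 4)
  have minb : ∀ {γ : Type} [BEnc γ] (f g : γ → ℕ), (∃ β, PB β ∧ ∀ a, g a ≤ β (size a)) →
      ∃ β, PB β ∧ ∀ a, min (f a) (g a) ≤ β (size a) := by
    intro γ _ f g h
    obtain ⟨β, hβ, h⟩ := h
    exact ⟨β, hβ, fun a => (min_le_right _ _).trans (h a)⟩
  have fst : ∀ {γ δ : Type} [BEnc γ] [BEnc δ], PolyTime (fun z : γ × δ => z.1) :=
    PolyTime.fst'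
  have snd : ∀ {γ δ : Type} [BEnc γ] [BEnc δ], PolyTime (fun z : γ × δ => z.2) :=
    PolyTime.snd'
  -- first part
  have h1 : PolyTime (fun a => (List.range (min (2 ^ i a) (cap (n a)))).all fun t =>
      b (x a, blk (n a) t (V a)) && decide ((blk (n a) t (V a)).length = n a)) := by
    have hr : PolyTime (fun a => List.range (min (2 ^ i a) (cap (n a)))) :=
      PolyTime.range ((poly_two_pow hi hib).min hcap) (minb _ _ hcapb)
    have hblk : PolyTime (fun z : α × ℕ => blk (n z.1) z.2 (V z.1)) :=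
      poly_blk (hn.comp fst) snd (hV.comp fst)
    exact PolyTime.all (g := fun z : α × ℕ => b (x z.1, blk (n z.1) z.2 (V z.1)) &&
      decide ((blk (n z.1) z.2 (V z.1)).length = n z.1)) hr
      ((hb.comp ((hx.comp fst).pair hblk)).and
        (PolyTime.eq (PolyTime.length hblk) (hn.comp fst)))
  -- second part
  have h2 : PolyTime (fun a => (List.range (i a)).all fun j =>
      (List.range (min (2 ^ (i a - j - 1)) (cap (n a)))).all fun t =>
        !(decide (blk (n a) (2 * t * 2 ^ (min j (i a))) (V a) =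
          blk (n a) ((2 * t + 1) * 2 ^ (min j (i a))) (V a))) &&
        decide (hsh (mat (n a) (κ a) j) (blk (n a) (2 * t * 2 ^ (min j (i a))) (V a)) =
          hsh (mat (n a) (κ a) j) (blk (n a) ((2 * t + 1) * 2 ^ (min j (i a))) (V a)))) := by
    have hr : PolyTime (fun a => List.range (i a)) := PolyTime.range hi hib
    have hjn : PolyTime (fun z : α × ℕ => n z.1) := hn.comp fst
    have hji : PolyTime (fun z : α × ℕ => i z.1) := hi.comp fst
    have hjib : ∃ β, PB β ∧ ∀ z : α × ℕ, i z.1 ≤ β (size z) := bd_lift hib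
    have hjcapb : ∃ β, PB β ∧ ∀ z : α × ℕ, cap (n z.1) ≤ β (size z) :=
      bd_lift (n := fun a => cap (n a)) hcapb
    have hjnb : ∃ β, PB β ∧ ∀ z : α × ℕ, n z.1 ≤ β (size z) := bd_lift hnb
    have hr2 : PolyTime (fun z : α × ℕ =>
        List.range (min (2 ^ (i z.1 - z.2 - 1)) (cap (n z.1)))) := by
      refine PolyTime.range ((poly_two_pow ((hji.sub snd).pred) ?_).min (hcap.comp fst))
        (minb _ _ hjcapb)
      obtain ⟨β, hβ, h⟩ := hjib
      refine ⟨β, hβ, fun z => ?_⟩
      have := h z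
      show i z.1 - z.2 - 1 ≤ β (size z)
      omega
    have hmp : PolyTime (fun z : α × ℕ => 2 ^ (min z.2 (i z.1))) :=
      poly_two_pow ((snd).min hji) (minb _ _ hjib)
    have hmat : PolyTime (fun z : α × ℕ => mat (n z.1) (κ z.1) z.2) :=
      poly_mat hjn snd (hκ.comp fst) hjnb
    have f2 : PolyTime (fun z : (α × ℕ) × ℕ => z.1) := fst
    have s2 : PolyTime (fun z : (α × ℕ) × ℕ => z.2) := snd
    have f3 : PolyTime (fun z : (α × ℕ) × ℕ => z.1.1) := (fst).comp f2
    have hb1 : PolyTime (fun z : (α × ℕ) × ℕ =>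
        blk (n z.1.1) (2 * z.2 * 2 ^ (min z.1.2 (i z.1.1))) (V z.1.1)) :=
      poly_blk (hn.comp f3) (((PolyTime.const 2).mul s2).mul (hmp.comp f2)) (hV.comp f3)
    have hb2 : PolyTime (fun z : (α × ℕ) × ℕ =>
        blk (n z.1.1) ((2 * z.2 + 1) * 2 ^ (min z.1.2 (i z.1.1))) (V z.1.1)) :=
      poly_blk (hn.comp f3) ((((PolyTime.const 2).mul s2).succ).mul (hmp.comp f2))
        (hV.comp f3)
    have hmat2 : PolyTime (fun z : (α × ℕ) × ℕ => mat (n z.1.1) (κ z.1.1) z.1.2) :=
      hmat.comp f2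
    have h3 : PolyTime (fun z : α × ℕ =>
        (List.range (min (2 ^ (i z.1 - z.2 - 1)) (cap (n z.1)))).all fun t =>
        !(decide (blk (n z.1) (2 * t * 2 ^ (min z.2 (i z.1))) (V z.1) =
          blk (n z.1) ((2 * t + 1) * 2 ^ (min z.2 (i z.1))) (V z.1))) &&
        decide (hsh (mat (n z.1) (κ z.1) z.2)
            (blk (n z.1) (2 * t * 2 ^ (min z.2 (i z.1))) (V z.1)) =
          hsh (mat (n z.1) (κ z.1) z.2)
            (blk (n z.1) ((2 * t + 1) * 2 ^ (min z.2 (i z.1))) (V z.1)))) :=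
      PolyTime.all (g := fun z : (α × ℕ) × ℕ =>
        !(decide (blk (n z.1.1) (2 * z.2 * 2 ^ (min z.1.2 (i z.1.1))) (V z.1.1) =
          blk (n z.1.1) ((2 * z.2 + 1) * 2 ^ (min z.1.2 (i z.1.1))) (V z.1.1))) &&
        decide (hsh (mat (n z.1.1) (κ z.1.1) z.1.2)
            (blk (n z.1.1) (2 * z.2 * 2 ^ (min z.1.2 (i z.1.1))) (V z.1.1)) =
          hsh (mat (n z.1.1) (κ z.1.1) z.1.2)
            (blk (n z.1.1) ((2 * z.2 + 1) * 2 ^ (min z.1.2 (i z.1.1))) (V z.1.1)))) hr2
        (((PolyTime.eqListBool hb1 hb2).not).and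
          (PolyTime.eqListBool (poly_hsh hmat2 hb1) (poly_hsh hmat2 hb2)))
    exact PolyTime.all (g := fun z : α × ℕ =>
        (List.range (min (2 ^ (i z.1 - z.2 - 1)) (cap (n z.1)))).all fun t =>
        !(decide (blk (n z.1) (2 * t * 2 ^ (min z.2 (i z.1))) (V z.1) =
          blk (n z.1) ((2 * t + 1) * 2 ^ (min z.2 (i z.1))) (V z.1))) &&
        decide (hsh (mat (n z.1) (κ z.1) z.2)
            (blk (n z.1) (2 * t * 2 ^ (min z.2 (i z.1))) (V z.1)) =
          hsh (mat (n z.1) (κ z.1) z.2)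
            (blk (n z.1) ((2 * t + 1) * 2 ^ (min z.2 (i z.1))) (V z.1)))) hr h3
  refine (h1.and h2).congr fun a => ?_
  unfold certB
  congr 1
  apply all_congr
  intro j hj
  rw [min_eq_left (List.mem_range.1 hj).le]

theorem poly_relB {b : List Bool × List Bool → Bool} (hb : PolyTime b)
    {x κ q V : α → List Bool} {n : α → ℕ} (hx : PolyTime x) (hn : PolyTime n) (hκ : PolyTime κ)
    (hq : PolyTime q) (hV : PolyTime V) (hnb : ∃ β, PB β ∧ ∀ a, n a ≤ β (size a)) :
    PolyTime (fun a => relB (fun s => b (x a, s)) (n a) (κ a) (q a) (V a)) := by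
  have hl : PolyTime (fun a => lead (q a)) := poly_lead hq
  have hlb : ∃ β, PB β ∧ ∀ a, lead (q a) ≤ β (size a) := by
    obtain ⟨β, hβ, h⟩ := hq.size_le
    exact ⟨β, hβ, fun a => (lead_le_length _).trans ((length_le_size _).trans (h a))⟩
  have h1 : PolyTime (fun a => decide (lead (q a) < rounds (n a) (par (n a) (κ a)))) :=
    PolyTime.lt hl (poly_rounds hn (poly_par hn hκ))
  have h2 := poly_certB hb hx hn hκ hl hV hnb hlb
  have h3 : PolyTime (fun a => decide (hsh (mat (n a) (κ a) (lead (q a))) (blk (n a) 0 (V a)) =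
      (q a).drop (lead (q a) + 1))) :=
    PolyTime.eqListBool (poly_hsh (poly_mat hn hl hκ hnb)
      (poly_blk hn (PolyTime.const 0) hV)) (hq.drop hl.succ)
  exact (h1.and h2).and h3

end Pool.Agent.H83.TK
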