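import Pool.Agent.H80.Poly.More

/-!
# From binary to unary, in time polynomial in the number
-/

set_option autoImplicit false

namespace Pool.Agent.H83.TK

open Pool.Agent.H80.Poly

namespace ExpandAux

/-- replace one symbol of stack `0` by two symbols on stack `3` -/
def dbl : Prog := Prog.seq (Prog.pop 0) (Prog.seq (Prog.push 3 true) (Prog.push 3 true))

theorem dbl_loop (a b : List Bool) : ∀ u c : ℕ,
    Ex (Prog.loop 0 ne dbl) (hi 1 (List.replicate u true) a b (List.replicate c true))
      (hi 1 [] a b (List.replicate (c + 2 * u) true)) (4 * u + 1) := by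
  intro u
  induction u with
  | zero => intro c; exact Ex.loopF (by rw [hi_0]; rfl)
  | succ u ih =>
    intro c
    have h1 : Ex (Prog.pop 0) (hi 1 (List.replicate (u + 1) true) a b (List.replicate c true))
        (hi 1 (List.replicate u true) a b (List.replicate c true)) 1 := by
      have := Ex.pop 0 (hi 1 (List.replicate (u + 1) true) a b (List.replicate c true))
      rwa [hi_0, hi_u0, List.replicate_succ, List.tail_cons, ← List.replicate_succ] at this
    have h2 : ∀ c, Ex (Prog.push 3 true) (hi 1 (List.replicate u true) a b (List.replicate c true))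
        (hi 1 (List.replicate u true) a b (List.replicate (c + 1) true)) 1 := by
      intro c
      have := Ex.push 3 true (hi 1 (List.replicate u true) a b (List.replicate c true))
      rw [show (3 : ℕ) = 1 + 2 from rfl, hi_m2, hi_um2, ← List.replicate_succ] at this
      exact this
    have h3 := Ex.loopT (i := 0) (c := ne) (by rw [hi_0]; rfl)
      (Ex.seq h1 (Ex.seq (h2 c) (h2 (c + 1)))) (ih (c + 1 + 1))
    have e1 : c + 1 + 1 + 2 * u = c + 2 * (u + 1) := by ring
    have e2 : 1 + (1 + 1) + (4 * u + 1) + 1 = 4 * (u + 1) + 1 := by ring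
    rw [e1, e2] at h3
    exact h3

/-- one round: double stack `0` and add the top bit of stack `2` -/
def body : Prog := Prog.seq (Prog.loop 0 ne dbl) (Prog.seq (mv 3 0)
  (Prog.ite 2 tt (Prog.seq (Prog.pop 2) (Prog.push 0 true)) (Prog.pop 2)))

theorem body_spec (a b : List Bool) (x : Bool) (u : ℕ) : ∃ n ≤ 12 * u + 8,
    Ex body (hi 1 (List.replicate u true) a (x :: b) [])
      (hi 1 (List.replicate (2 * u + x.toNat) true) a b []) n := by
  have h1 := dbl_loop a (x :: b) u 0
  rw [zero_add] at h1
  have h2 : Ex (mv 3 0) (hi 1 [] a (x :: b) (List.replicate (2 * u) true))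
      (hi 1 (List.replicate (2 * u) true) a (x :: b) []) (4 * (2 * u) + 1) := by
    have := mv_spec (i := 3) (j := 0) (by omega) (List.replicate (2 * u) true)
      (hi 1 [] a (x :: b) (List.replicate (2 * u) true)) (hi_m2 _ _ _ _ _)
    rw [hi_0, List.append_nil, List.reverse_replicate, List.length_replicate,
      show (3 : ℕ) = 1 + 2 from rfl, hi_um2, hi_u0] at this
    exact this
  have h3 : Ex (Prog.pop 2) (hi 1 (List.replicate (2 * u) true) a (x :: b) [])
      (hi 1 (List.replicate (2 * u) true) a b []) 1 := by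
    have := Ex.pop 2 (hi 1 (List.replicate (2 * u) true) a (x :: b) [])
    rw [show (2 : ℕ) = 1 + 1 from rfl, hi_m1, hi_um1, List.tail_cons] at this
    exact this
  cases x with
  | false =>
    have h4 := Ex.seq h1 (Ex.seq h2 (Ex.iteF (i := 2) (c := tt)
      (p := Prog.seq (Prog.pop 2) (Prog.push 0 true)) (by
        rw [show (2 : ℕ) = 1 + 1 from rfl, hi_m1]; rfl) h3))
    exact ⟨_, by omega, h4⟩
  | true =>
    have h5 : Ex (Prog.push 0 true) (hi 1 (List.replicate (2 * u) true) a b [])
        (hi 1 (List.replicate (2 * u + 1) true) a b []) 1 := by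
      have := Ex.push 0 true (hi 1 (List.replicate (2 * u) true) a b [])
      rwa [hi_0, hi_u0, ← List.replicate_succ] at this
    have h4 := Ex.seq h1 (Ex.seq h2 (Ex.iteT (i := 2) (c := tt) (q := Prog.pop 2)
      (by rw [show (2 : ℕ) = 1 + 1 from rfl, hi_m1]; rfl) (Ex.seq h3 h5)))
    exact ⟨_, by omega, h4⟩

theorem le_valBE : ∀ (l : List Bool) (v : ℕ), v ≤ valBE l v := by
  intro l
  induction l with
  | nil => intro v; exact le_rfl
  | cons b l ih =>
    intro v
    have h1 := ih (2 * v + b.toNat)
    have h2 : valBE (b :: l) v = valBE l (2 * v + b.toNat) := rfl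
    omega

theorem rounds (a : List Bool) : ∀ (r : List Bool) (u : ℕ),
    ∃ n ≤ r.length * (12 * valBE r u + 10) + 1,
      Ex (Prog.loop 2 ne body) (hi 1 (List.replicate u true) a r [])
        (hi 1 (List.replicate (valBE r u) true) a [] []) n := by
  intro r
  induction r with
  | nil => intro u; exact ⟨1, by simp, Ex.loopF (by rw [show (2 : ℕ) = 1 + 1 from rfl, hi_m1]; rfl)⟩
  | cons x r ih =>
    intro u
    obtain ⟨n1, hn1, h1⟩ := body_spec a r x u
    obtain ⟨n2, hn2, h2⟩ := ih (2 * u + x.toNat)
    have e : valBE (x :: r) u = valBE r (2 * u + x.toNat) := rfl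
    have h3 := le_valBE r (2 * u + x.toNat)
    rw [e]
    refine ⟨n1 + n2 + 1, ?_, Ex.loopT (i := 2) (c := ne)
      (by rw [show (2 : ℕ) = 1 + 1 from rfl, hi_m1]; rfl) h1 h2⟩
    rw [List.length_cons, Nat.succ_mul]
    omega

/-- the program -/
def expandQ : Prog := Prog.seq (unEsc 0 1) (Prog.seq (Prog.pop 0) (Prog.seq (mv 0 2)
  (Prog.seq (Prog.loop 2 ne body) (Prog.seq (Prog.push 0 false) (mvEsc 1 0)))))

theorem expandQ_spec (q y : List Bool) : ∃ n ≤ (5 * q.length + 1) + (1 + ((4 * y.length + 1) +
      ((y.length * (12 * val y + 10) + 1) + (1 + (5 * q.length + 1))))),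
    Ex expandQ (ini (pr q y)) (ini (pr q (List.replicate (val y) true))) n := by
  have h1 : Ex (unEsc 0 1) (ini (pr q y)) (hi 1 (false :: y) q.reverse [] [])
      (5 * q.length + 1) := by
    have := unEsc_spec (i := 0) (j := 1) (by omega) y q (hi 1 (pr q y) [] [] []) (hi_0 _ _ _ _ _)
    rw [hi_u0, hi_m one_pos, hi_um one_pos, List.append_nil] at this
    rwa [hi_ini] at this
  have h2 : Ex (Prog.pop 0) (hi 1 (false :: y) q.reverse [] []) (hi 1 y q.reverse [] []) 1 := by
    have := Ex.pop 0 (hi 1 (false :: y) q.reverse [] [])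
    rwa [hi_0, hi_u0, List.tail_cons] at this
  have h3 : Ex (mv 0 2) (hi 1 y q.reverse [] []) (hi 1 [] q.reverse y.reverse [])
      (4 * y.length + 1) := by
    have := mv_spec (i := 0) (j := 2) (by omega) y (hi 1 y q.reverse [] []) (hi_0 _ _ _ _ _)
    rw [hi_u0, show (2 : ℕ) = 1 + 1 from rfl, hi_m1, hi_um1, List.append_nil] at this
    exact this
  obtain ⟨n, hn, h4⟩ := rounds q.reverse y.reverse 0
  rw [valBE_reverse, List.length_reverse] at hn
  rw [valBE_reverse] at h4
  set m := val y with hm
  have h5 : Ex (Prog.push 0 false) (hi 1 (List.replicate m true) q.reverse [] [])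
      (hi 1 (false :: List.replicate m true) q.reverse [] []) 1 := by
    have := Ex.push 0 false (hi 1 (List.replicate m true) q.reverse [] [])
    rwa [hi_0, hi_u0] at this
  have h6 : Ex (mvEsc 1 0) (hi 1 (false :: List.replicate m true) q.reverse [] [])
      (ini (pr q (List.replicate m true))) (5 * q.length + 1) := by
    have := mvEsc_spec (i := 1) (j := 0) (by omega) q.reverse
      (hi 1 (false :: List.replicate m true) q.reverse [] []) (hi_m one_pos _ _ _ _)
    rw [hi_um one_pos, hi_0, hi_u0, hi_ini, List.reverse_reverse, List.length_reverse] at this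
    exact this
  refine ⟨_, ?_, Ex.seq h1 (Ex.seq h2 (Ex.seq h3 (Ex.seq h4 (Ex.seq h5 h6))))⟩
  omega

end ExpandAux

theorem exists_expand : ∃ (p : Prog) (C : Polynomial ℕ), ∀ (q : List Bool) (n : ℕ),
    ∃ t ≤ C.eval (q.length + n),
      Ex p (ini (pr q (Computability.encodeNat n))) (ini (pr q (List.replicate n true))) t := by
  refine ⟨ExpandAux.expandQ, Polynomial.C 12 * Polynomial.X ^ 2 + Polynomial.C 24 * Polynomial.X +
    Polynomial.C 6, fun q n => ?_⟩
  obtain ⟨t, ht, h⟩ := ExpandAux.expandQ_spec q (Computability.encodeNat n)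
  rw [val_encodeNat] at ht h
  refine ⟨t, ht.trans ?_, h⟩
  have h1 : (Computability.encodeNat n).length ≤ n := size_nat_le_self n
  simp only [Polynomial.eval_add, Polynomial.eval_mul, Polynomial.eval_C, Polynomial.eval_pow,
    Polynomial.eval_X]
  set m := (Computability.encodeNat n).length with hm
  have h2 : m * (12 * n + 10) ≤ n * (12 * n + 10) := Nat.mul_le_mul_right _ h1
  nlinarith [Nat.zero_le (q.length * n), Nat.zero_le (q.length * q.length)]

end Pool.Agent.H83.TK
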