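import Pool.Agent.H83.TK.Conv
import Pool.Agent.H83.TK.Expand

/-!
# Polynomial-time decoders give programs for a universal machine
-/

set_option autoImplicit false

namespace Pool.Agent.H83.TK

open Pool.Agent.H80.Poly Pool.Agent.H72.NP Turing Computability

theorem BM.Out.mono {M : BM} {q y s : List Bool} {t t' : ℕ} (h : M.Out q y s t) (ht : t ≤ t') :
    M.Out q y s t' := by
  obtain ⟨h⟩ := h
  exact ⟨⟨h.toEvalsTo, h.steps_le_m.trans ht⟩⟩

private theorem Dec_encodeNat_len (n : ℕ) : (encodeNat n).length ≤ n := by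
  rw [show (encodeNat n).length = n.size from size_nat n]
  exact Nat.size_le.2 Nat.lt_two_pow_self

private theorem Dec_enc_len (l : List (Bool ⊕ Bool)) : (enc l).length = 5 * l.length := by
  induction l with
  | nil => rfl
  | cons a l ih =>
    rw [enc_cons, length_pr, ih]
    cases a <;> simp <;> ring

/-- A decoder `D (q, 1^n)` that runs in time polynomial in `|q| + n` is simulated by `U(wq, n)`, `n`
in binary, in time polynomial in `|q| + n`. -/
theorem exists_decoder {U : BM} (hU : Universal U) {D : List Bool × ℕ → List Bool}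
    (hD : PolyTime (fun a : List Bool × UNat => D (a.1, a.2.toNat))) :
    ∃ (w : List Bool) (P : Polynomial ℕ), ∀ (q : List Bool) (n : ℕ),
      U.Out (w ++ q) (encodeNat n) (D (q, n)) (P.eval (q.length + n)) := by
  -- the three programs
  have hf1 : PolyTime (fun l : List (Bool ⊕ Bool) =>
      ((listToStr (lefts l), listToStr (rights l)) : Str × Str)) :=
    (PolyTime.listToStr'.comp (poly_lefts PolyTime.id)).pair
      (PolyTime.listToStr'.comp (poly_rights PolyTime.id))
  have hf2 : PolyTime (fun a : Str × UNat => listToStr (D (strToList a.1, a.2.toNat))) := by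
    have h1 : PolyTime (fun a : Str × UNat => ((strToList a.1, a.2) : List Bool × UNat)) :=
      (PolyTime.strToList'.comp PolyTime.fst').pair PolyTime.snd'
    exact PolyTime.listToStr'.comp (hD.comp h1)
  obtain ⟨p1, t1, h1⟩ := hf1.poly
  obtain ⟨p2, t2, h2⟩ := hf2.poly
  obtain ⟨pe, te, he⟩ := exists_expand
  obtain ⟨tm, ia, oa, C, hM⟩ := exists_mach (Bool ⊕ Bool) (Prog.seq p1 (Prog.seq pe p2))
  obtain ⟨w, p, hw⟩ := hU ⟨tm, ia, oa⟩
  -- the bound
  have hPB : PB (fun k => p.eval (2 * k + (t1.eval (5 * (2 * k)) + (te.eval k + t2.eval (2 * k + 1 + k)) +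
      C * (2 * k) + C))) := by
    refine PB.evalComp p (PB.add ((PB.const 2).mul PB.id) ?_)
    refine PB.add (PB.add (PB.add (PB.evalComp t1 ((PB.const 5).mul ((PB.const 2).mul PB.id)))
      (PB.add (PB.eval te) (PB.evalComp t2 ?_))) ((PB.const C).mul ((PB.const 2).mul PB.id))) (PB.const C)
    exact (((PB.const 2).mul PB.id).add (PB.const 1)).add PB.id
  obtain ⟨P, hP⟩ := hPB
  refine ⟨w, P, fun q n => ?_⟩
  set k := q.length + n with hk
  have hyl := Dec_encodeNat_len n
  set l := pairEnc (id : List Bool → List Bool) (q, encodeNat n) with hl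
  have hll : l.length ≤ 2 * k := by
    rw [hl]
    unfold pairEnc
    rw [List.length_append, List.length_map, List.length_map]
    simp only [id]
    omega
  obtain ⟨m1, hm1, e1⟩ := h1 l
  obtain ⟨me, hme, ee⟩ := he q n
  obtain ⟨m2, hm2, e2⟩ := h2 ((q : Str), UNat.ofNat n)
  have hL : lefts l = q := lefts_pairEnc _ _
  have hR : rights l = encodeNat n := rights_pairEnc _ _
  have e1' : Ex p1 (ini (enc l)) (ini (pr q (encodeNat n))) m1 := by
    have : enc ((listToStr (lefts l), listToStr (rights l)) : Str × Str) = pr q (encodeNat n) := by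
      rw [hL, hR]; rfl
    rw [← this]; exact e1
  have e2' : Ex p2 (ini (pr q (List.replicate n true))) (ini (D (q, n))) m2 := e2
  have hex := Ex.seq e1' (Ex.seq ee e2')
  have hout : (⟨tm, ia, oa⟩ : BM).Out q (encodeNat n) (D (q, n)) (m1 + (me + m2) + C * l.length + C) :=
    hM l (D (q, n)) _ hex
  refine (hw q (encodeNat n) (D (q, n)) _ hout).mono ((eval_mono p ?_).trans (hP k))
  have hm1' : m1 ≤ t1.eval (5 * (2 * k)) := hm1.trans (eval_mono t1 (by
    rw [Dec_enc_len]; omega))
  have hm2' : m2 ≤ t2.eval (2 * k + 1 + k) := hm2.trans (eval_mono t2 (by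
    rw [enc_prod, length_pr, enc_unat, List.length_replicate]
    show 2 * q.length + 1 + n ≤ _
    omega))
  have hCl : C * l.length ≤ C * (2 * k) := Nat.mul_le_mul_left _ hll
  have hme' : me ≤ te.eval k := hme
  omega

end Pool.Agent.H83.TK
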