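import Pool.Agent.H83.TK.Levels

/-!
# Certificates of membership in a level: binary trees of collisions
-/

set_option autoImplicit false

namespace Pool.Agent.H83.TK

/-- `f 0, …, f (2^i - 1)` are members of `X` that form a binary tree of collisions -/
def CertF (X : Set (List Bool)) (H : ℕ → List Bool → List Bool) (i : ℕ) (f : ℕ → List Bool) :
    Prop :=
  (∀ t < 2 ^ i, f t ∈ X) ∧
    ∀ j < i, ∀ t < 2 ^ (i - j - 1), f (2 * t * 2 ^ j) ≠ f ((2 * t + 1) * 2 ^ j) ∧
      H j (f (2 * t * 2 ^ j)) = H j (f ((2 * t + 1) * 2 ^ j))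

theorem mem_lev_iff {X : Set (List Bool)} {H : ℕ → List Bool → List Bool} {i : ℕ}
    {s : List Bool} : s ∈ lev H X i ↔ ∃ f, CertF X H i f ∧ f 0 = s := by
  induction i generalizing s with
  | zero =>
    constructor
    · intro h
      exact ⟨fun _ => s, ⟨fun _ _ => h, fun j hj => absurd hj (Nat.not_lt_zero j)⟩, rfl⟩
    · rintro ⟨f, hf, rfl⟩
      exact hf.1 0 (by norm_num)
  | succ i ih =>
    constructor
    · rintro ⟨hs, s', hs', hne, hH⟩
      obtain ⟨f0, hf0, h0⟩ := ih.1 hs
      obtain ⟨f1, hf1, h1⟩ := ih.1 hs'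
      refine ⟨fun t => if t < 2 ^ i then f0 t else f1 (t - 2 ^ i), ⟨?_, ?_⟩, ?_⟩
      · intro t ht
        by_cases h : t < 2 ^ i
        · simpa [h] using hf0.1 t h
        · have : t - 2 ^ i < 2 ^ i := by
            rw [pow_succ] at ht; omega
          simpa [h] using hf1.1 _ this
      · intro j hj t ht
        rcases Nat.lt_succ_iff_lt_or_eq.1 hj with hj' | rfl
        · have hpow : (2:ℕ) ^ i = 2 ^ (i - j - 1) * 2 * 2 ^ j := by
            rw [← pow_succ, ← pow_add]; congr 1; omega
          have hpow2 : (2:ℕ) ^ (i + 1 - j - 1) = 2 ^ (i - j - 1) + 2 ^ (i - j - 1) := by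
            rw [← two_mul, ← pow_succ']; congr 1; omega
          have hjpos : 0 < 2 ^ j := by positivity
          rw [hpow2] at ht
          by_cases h : t < 2 ^ (i - j - 1)
          · have e1 : 2 * t * 2 ^ j < 2 ^ i := by
              rw [hpow]; apply Nat.mul_lt_mul_of_pos_right _ hjpos; omega
            have e2 : (2 * t + 1) * 2 ^ j < 2 ^ i := by
              rw [hpow]; apply Nat.mul_lt_mul_of_pos_right _ hjpos; omega
            have := hf0.2 j hj' t h
            simpa only [e1, e2, if_true] using this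
          · obtain ⟨u, rfl⟩ : ∃ u, t = 2 ^ (i - j - 1) + u := ⟨t - 2 ^ (i - j - 1), by omega⟩
            have hu : u < 2 ^ (i - j - 1) := by omega
            have e1 : 2 * (2 ^ (i - j - 1) + u) * 2 ^ j = 2 ^ i + 2 * u * 2 ^ j := by
              rw [hpow]; ring
            have e2 : (2 * (2 ^ (i - j - 1) + u) + 1) * 2 ^ j = 2 ^ i + (2 * u + 1) * 2 ^ j := by
              rw [hpow]; ring
            have e3 : ¬ (2 ^ i + 2 * u * 2 ^ j < 2 ^ i) := by omega
            have e4 : ¬ (2 ^ i + (2 * u + 1) * 2 ^ j < 2 ^ i) := by omega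
            have := hf1.2 j hj' u hu
            rw [e1, e2]
            simpa only [e3, e4, if_false, Nat.add_sub_cancel_left] using this
        · have ht0 : t = 0 := by
            have : j + 1 - j - 1 = 0 := by omega
            rw [this] at ht
            simpa using ht
          subst ht0
          have hjpos : 0 < 2 ^ j := by positivity
          simp only [mul_zero, zero_mul, zero_add, one_mul, lt_irrefl, if_false, hjpos, if_true,
            Nat.sub_self, h0, h1]
          exact ⟨fun h => hne h.symm, hH.symm⟩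
      · have : 0 < 2 ^ i := by positivity
        simp only [this, if_true, h0]
    · rintro ⟨f, hf, rfl⟩
      have hlt : (2:ℕ) ^ i < 2 ^ (i + 1) := Nat.pow_lt_pow_right (by norm_num) (by omega)
      refine ⟨ih.2 ⟨f, ⟨fun t ht => hf.1 t (ht.trans hlt), fun j hj t ht => ?_⟩, rfl⟩,
        f (2 ^ i), ih.2 ⟨fun t => f (2 ^ i + t), ⟨fun t ht => hf.1 _ ?_, fun j hj t ht => ?_⟩, ?_⟩,
        ?_, ?_⟩
      · refine hf.2 j (by omega) t (ht.trans_le (Nat.pow_le_pow_right (by norm_num) (by omega)))
      · rw [pow_succ]; omega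
      · have hpow : (2:ℕ) ^ i = 2 ^ (i - j - 1) * 2 * 2 ^ j := by
          rw [← pow_succ, ← pow_add]; congr 1; omega
        have hpow2 : (2:ℕ) ^ (i + 1 - j - 1) = 2 ^ (i - j - 1) + 2 ^ (i - j - 1) := by
          rw [← two_mul, ← pow_succ']; congr 1; omega
        have := hf.2 j (by omega) (2 ^ (i - j - 1) + t) (by rw [hpow2]; omega)
        have e1 : 2 * (2 ^ (i - j - 1) + t) * 2 ^ j = 2 ^ i + 2 * t * 2 ^ j := by
          rw [hpow]; ring
        have e2 : (2 * (2 ^ (i - j - 1) + t) + 1) * 2 ^ j = 2 ^ i + (2 * t + 1) * 2 ^ j := by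
          rw [hpow]; ring
        rw [e1, e2] at this
        exact this
      · simp
      · have := hf.2 i (by omega) 0 (by positivity)
        simpa using this.1.symm
      · have := hf.2 i (by omega) 0 (by positivity)
        simpa using this.2.symm

end Pool.Agent.H83.TK
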