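import Pool.Agent.H83.TK.Cnt

/-!
# Counting bit strings: general success probabilities
-/

set_option autoImplicit false

namespace Pool.Agent.H83.TK

/-- If at least `2^L / W` strings of length at most `L` are good then a good prefix has probability
at least `1 / (2 W)`. -/
theorem exists_prefix' {L W B : ℕ} {G : Set (List Bool)} (hB : L ≤ B) {S : Finset (List Bool)}
    (hS : ∀ q ∈ S, q ∈ G ∧ q.length ≤ L) (hc : 2 ^ L ≤ S.card * W) :
    2 ^ B ≤ (2 * W) * cnt B {r | ∃ j ≤ r.length, r.take j ∈ G} := by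
  classical
  by_contra hcon
  push Not at hcon
  have h1 : ∀ j ∈ Finset.range (L + 1), (2 * W) * cnt j G ≤ 2 ^ j := by
    intro j hj
    rw [Finset.mem_range] at hj
    have hjB : j ≤ B := by omega
    have h2 : cnt j G * 2 ^ (B - j) ≤ cnt B {r | ∃ j ≤ r.length, r.take j ∈ G} := by
      rw [← cnt_take hjB G]
      apply cnt_mono
      intro r hr hl
      exact ⟨j, by omega, hr⟩
    have h3 : (2 * W) * cnt j G * 2 ^ (B - j) < 2 ^ j * 2 ^ (B - j) := by
      rw [← pow_add, Nat.add_sub_cancel' hjB, mul_assoc]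
      exact lt_of_le_of_lt (Nat.mul_le_mul_left _ h2) hcon
    exact (Nat.lt_of_mul_lt_mul_right h3).le
  have h2 : S.card ≤ ∑ j ∈ Finset.range (L + 1), cnt j G := by
    rw [Finset.card_eq_sum_card_fiberwise (f := fun q : List Bool => q.length)
      (t := Finset.range (L + 1))]
    · apply Finset.sum_le_sum
      intro j _
      rw [cnt, ← Set.ncard_coe_finset]
      apply Set.ncard_le_ncard _ (finite_len j G)
      intro q hq
      simp only [Finset.coe_filter, Set.mem_setOf_eq] at hq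
      exact ⟨hq.2, (hS q hq.1).1⟩
    · intro q hq
      have := (hS q hq).2
      simp only [Finset.coe_range, Set.mem_Iio]
      omega
  have h3 : (2 * W) * S.card ≤ ∑ j ∈ Finset.range (L + 1), 2 ^ j := by
    calc (2 * W) * S.card ≤ (2 * W) * ∑ j ∈ Finset.range (L + 1), cnt j G :=
          Nat.mul_le_mul_left _ h2
      _ = ∑ j ∈ Finset.range (L + 1), (2 * W) * cnt j G := by rw [Finset.mul_sum]
      _ ≤ ∑ j ∈ Finset.range (L + 1), 2 ^ j := Finset.sum_le_sum h1
  have h4 : ∑ j ∈ Finset.range (L + 1), 2 ^ j < 2 ^ (L + 1) :=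
    Nat.geomSum_lt (m := 2) le_rfl (fun k hk => Finset.mem_range.1 hk)
  have h5 : 2 ^ (L + 1) ≤ (2 * W) * S.card := by
    rw [pow_succ]
    nlinarith
  omega

private lemma Cnt2_fail (B : ℕ) (P : Set (List Bool)) (n : ℕ) :
    cnt (n * B) {r | ∀ i < n, blkB B i r ∈ P} = cnt B P ^ n := by
  induction n with
  | zero =>
    have h : {r : List Bool | ∀ i < 0, blkB B i r ∈ P} = Set.univ := by
      ext r; simp
    rw [h, Nat.zero_mul, cnt_univ, pow_zero, pow_zero]
  | succ n ih =>
    have h : {r : List Bool | ∀ i < n + 1, blkB B i r ∈ P} =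
        {r | r.take B ∈ P ∧ r.drop B ∈ {r | ∀ i < n, blkB B i r ∈ P}} := by
      ext r
      simp only [Set.mem_setOf_eq]
      have hb : ∀ i, blkB B (i + 1) r = blkB B i (r.drop B) := by
        intro i
        rw [blkB, blkB, List.drop_drop]
        congr 2
        ring
      constructor
      · intro h
        refine ⟨?_, fun i hi => ?_⟩
        · have := h 0 (by omega)
          simpa [blkB] using this
        · rw [← hb]; exact h (i + 1) (by omega)
      · rintro ⟨h0, h1⟩ i hi
        cases i with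
        | zero => simpa [blkB] using h0
        | succ i => rw [hb]; exact h1 i (by omega)
    rw [h, show (n + 1) * B = B + n * B by ring, cnt_split, ih, pow_succ, mul_comm]

private lemma Cnt2_bern (m n : ℕ) : m ^ n * (m + n) ≤ m * (m + 1) ^ n := by
  induction n with
  | zero => simp
  | succ n ih =>
    calc m ^ (n + 1) * (m + (n + 1)) = m ^ n * (m * m + m * n + m) := by ring
      _ ≤ m ^ n * (m * m + m * n + m + n) := Nat.mul_le_mul_left _ (by omega)
      _ = (m + 1) * (m ^ n * (m + n)) := by ring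
      _ ≤ (m + 1) * (m * (m + 1) ^ n) := Nat.mul_le_mul_left _ ih
      _ = m * (m + 1) ^ (n + 1) := by ring

private lemma Cnt2_two {m : ℕ} (hm : 1 ≤ m) : 2 * m ^ (m + 1) ≤ (m + 1) ^ (m + 1) := by
  have h := Cnt2_bern m (m + 1)
  have h2 : m * (2 * m ^ (m + 1)) ≤ m * (m + 1) ^ (m + 1) := by
    refine le_trans ?_ h
    calc m * (2 * m ^ (m + 1)) = m ^ (m + 1) * (2 * m) := by ring
      _ ≤ m ^ (m + 1) * (m + (m + 1)) := Nat.mul_le_mul_left _ (by omega)
  exact Nat.le_of_mul_le_mul_left h2 (by omega)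

/-- amplification: `M ≥ 2` independent trials, each with success probability at least `1 / M` -/
theorem cnt_amplify' {B M : ℕ} (hM2 : 2 ≤ M) {P : Set (List Bool)} (h : 2 ^ B ≤ M * cnt B P) :
    2 ^ (M * B) ≤ 2 * cnt (M * B) {r | ∃ i < M, blkB B i r ∈ P} := by
  obtain ⟨m, hM⟩ : ∃ m, M = m + 1 := ⟨M - 1, by omega⟩
  have hm1 : 1 ≤ m := by omega
  have hcompl := cnt_compl (M * B) {r | ∃ i < M, blkB B i r ∈ P}
  have hset : {r : List Bool | ∃ i < M, blkB B i r ∈ P}ᶜ = {r | ∀ i < M, blkB B i r ∈ Pᶜ} := by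
    ext r
    simp only [Set.mem_compl_iff, Set.mem_setOf_eq, not_exists, not_and]
  rw [hset, Cnt2_fail B Pᶜ M] at hcompl
  set F := cnt B Pᶜ with hF
  have hF1 : cnt B P + F = 2 ^ B := cnt_compl B P
  have hF2 : M * F ≤ m * 2 ^ B := by
    have h1 : M * cnt B P + M * F = M * 2 ^ B := by rw [← mul_add, hF1]
    have h2 : M * 2 ^ B = m * 2 ^ B + 2 ^ B := by rw [hM]; ring
    omega
  have hF3 : 2 * F ^ M ≤ 2 ^ (M * B) := by
    have h1 : M ^ M * (2 * F ^ M) ≤ M ^ M * 2 ^ (M * B) := by
      calc M ^ M * (2 * F ^ M) = 2 * (M * F) ^ M := by rw [mul_pow]; ring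
        _ ≤ 2 * (m * 2 ^ B) ^ M := Nat.mul_le_mul_left _ (Nat.pow_le_pow_left hF2 M)
        _ = (2 * m ^ M) * 2 ^ (M * B) := by
            rw [mul_pow, ← pow_mul, mul_comm B M]; ring
        _ ≤ M ^ M * 2 ^ (M * B) := Nat.mul_le_mul_right _ (by rw [hM]; exact Cnt2_two hm1)
    exact Nat.le_of_mul_le_mul_left h1 (by positivity)
  omega

end Pool.Agent.H83.TK
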