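import Pool.Agent.H83.TK.Lay

/-!
# Codes of `par n κ + 3` bits
-/

set_option autoImplicit false

namespace Pool.Agent.H83.TK

theorem finite_XX (b : List Bool → Bool) (n : ℕ) : (XX b n).Finite :=
  (List.finite_length_eq Bool n).subset fun _ hs => hs.1

theorem ncard_XX_le (b : List Bool → Bool) (n : ℕ) : (XX b n).ncard ≤ 2 ^ n := by
  have h1 : XX b n ⊆ (fun f : Fin n → Bool => List.ofFn f) '' Set.univ := by
    rintro s ⟨hs, -⟩
    subst hs
    exact ⟨fun i => s.get i, Set.mem_univ _, List.ofFn_get s⟩
  calc (XX b n).ncard ≤ ((fun f : Fin n → Bool => List.ofFn f) '' Set.univ).ncard :=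
        Set.ncard_le_ncard h1 (Set.finite_univ.image _)
    _ ≤ (Set.univ : Set (Fin n → Bool)).ncard := Set.ncard_image_le Set.finite_univ
    _ = 2 ^ n := by
        rw [Set.ncard_univ, Nat.card_eq_fintype_card]
        simp

private theorem Code_rounds_le_size (n m : ℕ) : rounds n m ≤ n.size + 1 := min_le_left _ _

private theorem Code_rounds_le (n m : ℕ) : rounds n m ≤ m + 2 := min_le_right _ _

private theorem Code_rounds_big {n m : ℕ} (hm : m ≤ n) :
    m + 1 < 2 ^ rounds n m + rounds n m := by
  unfold rounds
  rcases min_choice (n.size + 1) (m + 2) with h | h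
  · rw [h]
    have h1 : n < 2 ^ n.size := Nat.lt_size_self n
    rw [pow_succ]
    omega
  · rw [h]
    have : 0 < 2 ^ (m + 2) := by positivity
    omega

/-- goodness is the absence of certificates -/
theorem good_iff {b : List Bool → Bool} {n : ℕ} {κ : List Bool} :
    Good b n κ ↔ ∀ V : List Bool, V.length ≤ vLen n →
      certB b n κ (rounds n (par n κ)) V = false := by
  constructor
  · intro h V _
    by_contra hc
    rw [Bool.not_eq_false] at hc
    have h1 := certB_sound (Code_rounds_le_size n (par n κ)) hc
    unfold Good at h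
    rw [h] at h1
    exact h1
  · intro h
    unfold Good
    rw [Set.eq_empty_iff_forall_notMem]
    intro s hs
    obtain ⟨V, hV, hc, -⟩ := exists_certB (Code_rounds_le_size n (par n κ)) hs
    rw [h V hV.le] at hc
    exact absurd hc (by decide)

theorem exists_good (b : List Bool → Bool) (n m : ℕ) (hm : m ≤ n)
    (h : (XX b n).ncard ≤ 2 ^ m) :
    ∃ κ : List Bool, κ.length = kLen n ∧ par n κ = m ∧ Good b n κ := by
  obtain ⟨M, hM, hl⟩ := exists_levels_empty n m (XX b n) (fun s hs => hs.1) h (rounds n m)
    (Code_rounds_big hm)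
  obtain ⟨κ, hκ, hp, hj⟩ := exists_scheme n m hm M hM
  refine ⟨κ, hκ, hp, ?_⟩
  unfold Good
  rw [hp, ← hl]
  refine lev_congr fun j hj' s _ => ?_
  unfold HH
  rw [hj j hj']

/-- every member of `XX b n` has a code -/
theorem exists_code {b : List Bool → Bool} {n : ℕ} {κ : List Bool} (hκ : Good b n κ)
    {s : List Bool} (hs : s ∈ XX b n) :
    ∃ q : List Bool, q.length = par n κ + 3 ∧
      (∃ V : List Bool, V.length = vLen n ∧ relB b n κ q V = true) ∧
      ∀ V : List Bool, relB b n κ q V = true → blk n 0 V = s := by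
  classical
  have hex : ∃ i, s ∉ lev (HH n κ) (XX b n) i := by
    refine ⟨rounds n (par n κ), ?_⟩
    unfold Good at hκ
    rw [hκ]
    exact Set.notMem_empty s
  obtain ⟨i, hi1, hi2, hi3⟩ : ∃ i, s ∈ lev (HH n κ) (XX b n) i ∧
      s ∉ lev (HH n κ) (XX b n) (i + 1) ∧ i < rounds n (par n κ) := by
    have hf := Nat.find_spec hex
    have hle : Nat.find hex ≤ rounds n (par n κ) := by
      apply Nat.find_min'
      unfold Good at hκ
      rw [hκ]
      exact Set.notMem_empty s
    have hpos : Nat.find hex ≠ 0 := by
      intro h0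
      rw [h0] at hf
      exact hf hs
    obtain ⟨i, hi⟩ := Nat.exists_eq_succ_of_ne_zero hpos
    refine ⟨i, ?_, ?_, by omega⟩
    · have := Nat.find_min hex (m := i) (by omega)
      exact not_not.1 this
    · rw [hi] at hf
      exact hf
  have hr1 := Code_rounds_le n (par n κ)
  have hr2 := Code_rounds_le_size n (par n κ)
  set q : List Bool := List.replicate i true ++ false :: HH n κ i s with hq
  have hlead : lead q = i := lead_replicate_append i _
  have hdrop : q.drop (lead q + 1) = hsh (mat n κ i) s := by
    rw [hlead, hq]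
    have : List.replicate i true ++ false :: HH n κ i s
        = (List.replicate i true ++ [false]) ++ HH n κ i s := by simp
    rw [this]
    have hlen : (List.replicate i true ++ [false]).length = i + 1 := by simp
    rw [← hlen, List.drop_left]
    rfl
  refine ⟨q, ?_, ?_, ?_⟩
  · rw [hq, List.length_append, List.length_cons, List.length_replicate]
    unfold HH
    rw [length_hsh]
    unfold mat
    rw [List.length_map, List.length_range]
    omega
  · obtain ⟨V, hV, hc, hb⟩ := exists_certB (n := n) (κ := κ) (b := b) (i := i) (s := s)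
      (by omega) hi1
    refine ⟨V, hV, ?_⟩
    unfold relB
    rw [hdrop, hlead, hc, hb]
    simp [hi3]
  · intro V hV
    unfold relB at hV
    rw [hdrop, hlead] at hV
    simp only [Bool.and_eq_true, decide_eq_true_eq] at hV
    obtain ⟨⟨-, hc⟩, he⟩ := hV
    have h1 := certB_sound (i := i) (by omega) hc
    by_contra hne
    exact hi2 ⟨hi1, blk n 0 V, h1, hne, he⟩

/-- the canonical scheme -/
noncomputable def can (b : List Bool → Bool) (n : ℕ) : List Bool :=
  greedy (Ext (kLen n) (Good b n)) (kLen n)

theorem length_can (b : List Bool → Bool) (n : ℕ) : (can b n).length = kLen n :=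
  length_greedy _ _

theorem good_can (b : List Bool → Bool) (n : ℕ) : Good b n (can b n) := by
  obtain ⟨κ, h1, -, h2⟩ := exists_good b n n le_rfl (ncard_XX_le b n)
  exact greedy_spec ⟨κ, h1, h2⟩

/-- length of the codes of the canonical scheme -/
theorem two_pow_par_can (b : List Bool → Bool) (n : ℕ) (h : (XX b n).Nonempty) :
    2 ^ (par n (can b n)) ≤ 2 * (XX b n).ncard := by
  set c := (XX b n).ncard with hc
  have hcpos : 0 < c := (Set.ncard_pos (finite_XX b n)).2 h
  have hcn : c ≤ 2 ^ n := ncard_XX_le b n
  set m := Nat.clog 2 c with hm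
  have hmn : m ≤ n := (Nat.clog_le_iff_le_pow (by norm_num)).2 hcn
  have hcm : c ≤ 2 ^ m := Nat.le_pow_clog (by norm_num) c
  have h2 : 2 ^ m ≤ 2 * c := by
    rcases Nat.eq_zero_or_pos m with h0 | h0
    · rw [h0]
      omega
    · have h1 : 2 ^ (m - 1) < c := by
        by_contra hcon
        push Not at hcon
        have := (Nat.clog_le_iff_le_pow (b := 2) (by norm_num)).2 hcon
        omega
      have h3 : 2 ^ m = 2 * 2 ^ (m - 1) := by
        rw [← pow_succ']
        congr 1
        omega
      omega
  obtain ⟨κ, hκ1, hκ2, hκ3⟩ := exists_good b n m hmn hcm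
  have h4 : par n (can b n) ≤ m := by
    rw [← hκ2]
    exact lead_take_greedy_le hκ1 hκ3
  exact (Nat.pow_le_pow_right (by norm_num) h4).trans h2

end Pool.Agent.H83.TK
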