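import Pool.Agent.H83.TK.Pt
import Pool.Agent.H83.TK.Pk

/-!
# No single polynomial works for all sets in P
-/

set_option autoImplicit false

namespace Pool.Agent.H83.TK

open Pool.Agent.H80.Poly Pool.Agent.H72.NP Turing Computability

/-- candidate number `j` of length `n` -/
def diagCand (n j : ℕ) : List Bool := (encodeNat j ++ List.replicate n false).take n

/-- the output of the program number `v` -/
def diagOut (F : (List Bool × List Bool) × UNat → List Bool) (P : Polynomial ℕ) (n v : ℕ) :
    List Bool :=
  F (((encodeNat v).dropLast, encodeNat n), UNat.ofNat (P.eval n))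

/-- `s` is not the output of one of the first `n + 1` programs -/
def diagGood (F : (List Bool × List Bool) × UNat → List Bool) (P : Polynomial ℕ) (n : ℕ)
    (s : List Bool) : Bool :=
  (List.range (n + 1)).all fun v => !decide (diagOut F P n (v + 1) = s)

/-- the good candidates of length `n` -/
def diagList (F : (List Bool × List Bool) × UNat → List Bool) (P : Polynomial ℕ) (n : ℕ) :
    List (List Bool) :=
  ((List.range (n + 2)).map fun j => diagCand n j).filter fun s => diagGood F P n s

theorem diag_length_cand (n j : ℕ) : (diagCand n j).length = n := by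
  unfold diagCand
  rw [List.length_take, List.length_append, List.length_replicate]
  omega

theorem diag_val_cand {n j : ℕ} (hn : 2 ≤ n) (hj : j < n + 2) : val (diagCand n j) = j := by
  have h1 : j < 2 ^ n := by
    have : ∀ m : ℕ, 2 ≤ m → m + 2 ≤ 2 ^ m := by
      intro m hm
      induction m, hm using Nat.le_induction with
      | base => norm_num
      | succ m hm ih => rw [pow_succ]; omega
    have := this n hn
    omega
  have h2 : (encodeNat j).length ≤ n := by
    have := size_nat j
    have h3 : (encodeNat j).length = j.size := this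
    rw [h3]
    exact Nat.size_le.2 h1
  have h3 : diagCand n j = encodeNat j ++ List.replicate (n - (encodeNat j).length) false := by
    unfold diagCand
    rw [List.take_append, List.take_of_length_le h2, List.take_replicate]
    congr 2
    omega
  rw [h3, val_append, val_replicate_false, val_encodeNat]
  ring

theorem diag_dropLast_encodeNat (q : List Bool) :
    (encodeNat (val (q ++ [true]))).dropLast = q := by
  have h1 : encodeNat (val (q ++ [true])) = q ++ [true] := by
    apply canon_unique _ _ (canon_encodeNat _)
    · unfold Canon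
      simp
    · exact val_encodeNat _
  rw [h1, List.dropLast_concat]

theorem diag_mem_list {F : (List Bool × List Bool) × UNat → List Bool} {P : Polynomial ℕ} {n : ℕ}
    {s : List Bool} (h : s ∈ diagList F P n) :
    s.length = n ∧ ∀ v < n + 1, diagOut F P n (v + 1) ≠ s := by
  unfold diagList at h
  rw [List.mem_filter, List.mem_map] at h
  obtain ⟨⟨j, _, rfl⟩, h2⟩ := h
  refine ⟨diag_length_cand n j, fun v hv => ?_⟩
  unfold diagGood at h2
  rw [List.all_eq_true] at h2
  have := h2 v (List.mem_range.2 hv)
  simpa using this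

theorem diag_list_ne_nil (F : (List Bool × List Bool) × UNat → List Bool) (P : Polynomial ℕ)
    {n : ℕ} (hn : 2 ≤ n) : diagList F P n ≠ [] := by
  intro h
  unfold diagList at h
  rw [List.filter_eq_nil_iff] at h
  have hbad : ∀ j ∈ Finset.range (n + 2), ∃ v ∈ Finset.range (n + 1),
      diagOut F P n (v + 1) = diagCand n j := by
    intro j hj
    have h1 := h (diagCand n j) (List.mem_map.2 ⟨j, List.mem_range.2 (Finset.mem_range.1 hj), rfl⟩)
    unfold diagGood at h1
    rw [List.all_eq_true] at h1
    push Not at h1
    obtain ⟨v, hv, hv2⟩ := h1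
    refine ⟨v, Finset.mem_range.2 (List.mem_range.1 hv), ?_⟩
    simpa using hv2
  choose! g hg hg2 using hbad
  obtain ⟨i, hi, j, hj, hij, he⟩ := Finset.exists_ne_map_eq_of_card_lt_of_maps_to
    (s := Finset.range (n + 2)) (t := Finset.range (n + 1)) (f := g) (by simp) hg
  apply hij
  have h1 : diagCand n i = diagCand n j := by rw [← hg2 i hi, ← hg2 j hj, he]
  rw [← diag_val_cand hn (Finset.mem_range.1 hi), ← diag_val_cand hn (Finset.mem_range.1 hj), h1]

theorem diag_poly_cand {α : Type} [BEnc α] {n j : α → ℕ} (hn : PolyTime n) (hj : PolyTime j)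
    (hnb : ∃ β, PB β ∧ ∀ a, n a ≤ β (size a)) : PolyTime (fun a => diagCand (n a) (j a)) :=
  ((hj.bits.append (PolyTime.replicate hn hnb (PolyTime.const false))).take hn)

theorem diag_poly_out {α : Type} [BEnc α] {F : (List Bool × List Bool) × UNat → List Bool}
    (hF : PolyTime F) (P : Polynomial ℕ) {n v : α → ℕ} (hn : PolyTime n) (hv : PolyTime v)
    (hnb : ∃ β, PB β ∧ ∀ a, n a ≤ β (size a)) : PolyTime (fun a => diagOut F P (n a) (v a)) := by
  have h1 : PolyTime (fun a => (encodeNat (v a)).dropLast) :=
    (hv.bits.take (hv.bits.length.pred)).congr (fun a => by rw [List.dropLast_eq_take])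
  have h2 : PolyTime (fun a => UNat.ofNat (P.eval (n a))) :=
    (PolyTime.unatEval P (hn.natToUnat hnb)).congr (fun a => rfl)
  exact hF.comp ((h1.pair hn.bits).pair h2)

theorem diag_poly_good {α : Type} [BEnc α] {F : (List Bool × List Bool) × UNat → List Bool}
    (hF : PolyTime F) (P : Polynomial ℕ) {n : α → ℕ} {s : α → List Bool} (hn : PolyTime n)
    (hs : PolyTime s) (hnb : ∃ β, PB β ∧ ∀ a, n a ≤ β (size a)) :
    PolyTime (fun a => diagGood F P (n a) (s a)) := by
  have hw : PolyTime (fun w : α × ℕ => w) := PolyTime.id
  obtain ⟨β, hβ, hβn⟩ := hnb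
  have hr : PolyTime (fun a => List.range (n a + 1)) :=
    PolyTime.range hn.succ ⟨fun m => β m + 1, hβ.add (PB.const 1), fun a => by
      have := hβn a
      show n a + 1 ≤ β (size a) + 1
      omega⟩
  have hb : ∃ γ, PB γ ∧ ∀ w : α × ℕ, n w.1 ≤ γ (size w) := by
    obtain ⟨γ, hγ⟩ := hβ
    refine ⟨fun m => γ.eval m, PB.eval γ, fun w => ?_⟩
    refine (hβn w.1).trans ((hγ _).trans (eval_mono γ ?_))
    rw [size_prod]
    omega
  have hg : PolyTime (fun w : α × ℕ => !decide (diagOut F P (n w.1) (w.2 + 1) = s w.1)) :=
    (PolyTime.eq (diag_poly_out hF P (hn.comp hw.fst) hw.snd.succ hb) (hs.comp hw.fst)).not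
  exact PolyTime.all hr hg

theorem diag_poly_list {F : (List Bool × List Bool) × UNat → List Bool}
    (hF : PolyTime F) (P : Polynomial ℕ) :
    PolyTime (fun x : List Bool => diagList F P x.length) := by
  have hid : PolyTime (fun x : List Bool => x) := PolyTime.id
  have hn : PolyTime (fun x : List Bool => x.length) := hid.length
  have hw : PolyTime (fun w : List Bool × ℕ => w) := PolyTime.id
  have hw' : PolyTime (fun w : List Bool × List Bool => w) := PolyTime.id
  have hr : PolyTime (fun x : List Bool => List.range (x.length + 2)) :=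
    PolyTime.range (hn.add (PolyTime.const 2)) ⟨fun m => m + 2, PB.id.add (PB.const 2), fun a => by
      have := length_le_size a
      show a.length + 2 ≤ size a + 2
      omega⟩
  have h1 : PolyTime (fun x : List Bool => (List.range (x.length + 2)).map
      fun j => diagCand x.length j) := by
    refine PolyTime.map hr (g := fun w : List Bool × ℕ => diagCand w.1.length w.2) ?_
    refine diag_poly_cand (hn.comp hw.fst) hw.snd ⟨fun m => m, PB.id, fun w => ?_⟩
    have := length_le_size w.1
    show w.1.length ≤ size w
    rw [size_prod]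
    omega
  refine PolyTime.filter h1 (g := fun w : List Bool × List Bool => diagGood F P w.1.length w.2) ?_
  refine diag_poly_good hF P (hn.comp hw'.fst) hw'.snd ⟨fun m => m, PB.id, fun w => ?_⟩
  have := length_le_size w.1
  show w.1.length ≤ size w
  rw [size_prod]
  omega

theorem no_uniform (U : BM) (p : Polynomial ℕ) :
    ∃ A : Set (List Bool), InP id A ∧ (∀ n, 2 ≤ n → (slice A n).ncard = 1) ∧
      ∀ c : ℕ, ∃ n₀, ∀ n ≥ n₀, ∀ s ∈ slice A n,
        ¬ KLE U (fun k => p.eval k) s (encodeNat n) (Real.logb 2 (slice A n).ncard + c) := by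
  obtain ⟨F, C, hF, hFs⟩ := exists_simBM U
  set P : Polynomial ℕ := Polynomial.C C * p + Polynomial.C C with hP
  have hPe : ∀ n, P.eval n = C * p.eval n + C := by
    intro n
    rw [hP]
    simp
  set A : Set (List Bool) := {x | (diagList F P x.length)[0]? = some x} with hA
  have hcard : ∀ n, 2 ≤ n → (slice A n).ncard = 1 := by
    intro n hn
    rw [Set.ncard_eq_one]
    obtain ⟨s, l, hl⟩ := List.exists_cons_of_ne_nil (diag_list_ne_nil F P hn)
    have hs : s.length = n := (diag_mem_list (F := F) (P := P) (n := n) (s := s)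
      (by rw [hl]; exact List.mem_cons_self)).1
    refine ⟨s, ?_⟩
    ext x
    constructor
    · rintro ⟨h1, h2⟩
      rw [hA, Set.mem_ofPred_eq, h2, hl] at h1
      simp only [List.getElem?_cons_zero, Option.some.injEq] at h1
      exact h1.symm
    · intro h
      rw [Set.mem_singleton_iff] at h
      subst h
      refine ⟨?_, hs⟩
      rw [hA, Set.mem_ofPred_eq, hs, hl]
      rfl
  refine ⟨A, ?_, hcard, ?_⟩
  · rw [inP_iff]
    refine ⟨fun x => decide ((diagList F P x.length)[0]? = some x), ?_, fun x => ?_⟩
    · have hid : PolyTime (fun x : List Bool => x) := PolyTime.id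
      exact PolyTime.eq ((diag_poly_list hF P).getElem? (PolyTime.const 0)) (PolyTime.some hid)
    · rw [hA, Set.mem_ofPred_eq, decide_eq_true_iff]
  · intro c
    refine ⟨2 ^ (c + 1), fun n hn s hs hK => ?_⟩
    have hn2 : 2 ≤ n := by
      have : 2 ^ 1 ≤ 2 ^ (c + 1) := Nat.pow_le_pow_right (by norm_num) (by omega)
      omega
    obtain ⟨q, hq, hout⟩ := hK
    rw [hcard n hn2] at hq
    simp only [Nat.cast_one, Real.logb_one, zero_add, Nat.cast_le] at hq
    obtain ⟨h1, h2⟩ := hs
    rw [hA, Set.mem_ofPred_eq, h2] at h1
    have hmem : s ∈ diagList F P n := List.mem_of_getElem? h1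
    have hval : val (q ++ [true]) = val q + 2 ^ q.length := by
      rw [val_append]
      simp [val]
    have hlt := val_lt q
    have hle : 2 ^ (q.length + 1) ≤ 2 ^ (c + 1) := Nat.pow_le_pow_right (by norm_num) (by omega)
    have hpos : 0 < 2 ^ q.length := by positivity
    have h3 := (diag_mem_list hmem).2 (val (q ++ [true]) - 1) (by
      rw [pow_succ] at hle
      omega)
    apply h3
    unfold diagOut
    rw [show val (q ++ [true]) - 1 + 1 = val (q ++ [true]) by omega, diag_dropLast_encodeNat]
    have h4 := hout
    rw [h2] at h4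
    exact hFs q (encodeNat n) s (p.eval n) (P.eval n) h4 (by rw [hPe])

end Pool.Agent.H83.TK
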