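import Pool.Agent.H83.TK.Dec
import Pool.Agent.H83.TK.Univ
import Pool.Agent.H83.TK.Diag
import Pool.Agent.H83.TK.Cnt

/-!
# A complete set for Q1

The members of length `N` of the set `A₀` are determined by the numbers `v, n, T` with
`N = pair (pair v n) T`: they are the strings `s 0^(N-n)` with `|s| = n` such that the machine
described by `v` accepts `s` within `T` steps, provided that `n^K ≤ T`.
-/

set_option autoImplicit false

namespace Pool.Agent.H83.TK

open Pool.Agent.H80.Poly Pool.Agent.H72.NP Turing Computability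

/-! ### pairing of numbers in polynomial time -/

section

variable {α : Type} [BEnc α]

theorem cpl_sqrt {f : α → ℕ} (hf : PolyTime f) (hb : ∃ b, PB b ∧ ∀ a, f a ≤ b (size a)) :
    PolyTime (fun a => Nat.sqrt (f a)) := by
  obtain ⟨b, hb, hbs⟩ := hb
  have hw : PolyTime (fun w : α × ℕ => w) := PolyTime.id
  have h1 : PolyTime (fun w : α × ℕ => decide (f w.1 < (w.2 + 1) * (w.2 + 1))) :=
    PolyTime.lt (hf.comp hw.fst) (PolyTime.mul hw.snd.succ hw.snd.succ)
  have h2 := PolyTime.findRange (n := fun a => f a + 1) hf.succ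
    ⟨fun n => b n + 1, hb.add (PB.const 1), fun a => Nat.add_le_add_right (hbs a) 1⟩ h1
  refine h2.congr fun a => ?_
  simp only
  have hlt : Nat.sqrt (f a) < (List.range (f a + 1)).length := by
    rw [List.length_range]
    exact Nat.lt_succ_of_le (Nat.sqrt_le_self _)
  rw [List.findIdx_eq hlt]
  constructor
  · rw [List.getElem_range, decide_eq_true_eq]
    exact Nat.lt_succ_sqrt _
  · intro j hj
    rw [List.getElem_range, decide_eq_false_iff_not, not_lt]
    have h3 : j + 1 ≤ Nat.sqrt (f a) := hj
    exact (Nat.mul_le_mul h3 h3).trans (Nat.sqrt_le _)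

theorem cpl_unpair {f : α → ℕ} (hf : PolyTime f) (hb : ∃ b, PB b ∧ ∀ a, f a ≤ b (size a)) :
    PolyTime (fun a => Nat.unpair (f a)) := by
  have hs := cpl_sqrt hf hb
  have hd := PolyTime.sub hf (PolyTime.mul hs hs)
  refine (PolyTime.ite (c := fun a => f a - Nat.sqrt (f a) * Nat.sqrt (f a) < Nat.sqrt (f a))
    (PolyTime.lt hd hs) (PolyTime.pair hd hs)
    (PolyTime.pair hs (PolyTime.sub hd hs))).congr fun a => ?_
  rw [Nat.unpair]

theorem cpl_pair {f g : α → ℕ} (hf : PolyTime f) (hg : PolyTime g) :
    PolyTime (fun a => Nat.pair (f a) (g a)) := by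
  refine (PolyTime.ite (c := fun a => f a < g a) (PolyTime.lt hf hg)
    (PolyTime.add (PolyTime.mul hg hg) hf)
    (PolyTime.add (PolyTime.add (PolyTime.mul hf hf) hf) hg)).congr fun a => ?_
  rw [Nat.pair]

end

/-! ### machines for polynomial-time functions -/

theorem exists_bm {D : List Bool × List Bool → List Bool} (hD : PolyTime D) :
    ∃ (M : BM) (P : Polynomial ℕ), ∀ q y : List Bool,
      M.Out q y (D (q, y)) (P.eval (q.length + y.length)) := by
  have h0 : PolyTime (fun l : List (Bool ⊕ Bool) => D (lefts l, rights l)) :=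
    hD.comp ((poly_lefts PolyTime.id).pair (poly_rights PolyTime.id))
  obtain ⟨⟨⟨tm, ia, oa⟩, time, hout⟩⟩ := polyTimeFun_id_of (A := Bool ⊕ Bool)
    (e := pairEnc (id : List Bool → List Bool)) h0 (f := D) (fun a => by
      rw [lefts_pairEnc, rights_pairEnc]; rfl)
  refine ⟨⟨tm, ia, oa⟩, time, fun q y => ⟨?_⟩⟩
  have h := hout (q, y)
  have e : (pairEnc (id : List Bool → List Bool) (q, y)).length = q.length + y.length := by
    simp [pairEnc]
  rw [e] at h
  exact h

/-! ### the complete set -/

/-- machine description, input length, time -/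
def cN (N : ℕ) : ℕ := (Nat.unpair (Nat.unpair N).1).2
/-- machine description -/
def cV (N : ℕ) : ℕ := (Nat.unpair (Nat.unpair N).1).1
/-- time -/
def cT (N : ℕ) : ℕ := (Nat.unpair N).2

theorem cN_le (N : ℕ) : cN N ≤ N := (Nat.unpair_right_le _).trans (Nat.unpair_left_le _)
theorem cV_le (N : ℕ) : cV N ≤ N := (Nat.unpair_left_le _).trans (Nat.unpair_left_le _)
theorem cT_le (N : ℕ) : cT N ≤ N := Nat.unpair_right_le _

/-- the characteristic function of the complete set -/
def a0 (F : (List Bool × List Bool) × UNat → List Bool) (K : ℕ) (z : List Bool) : Bool :=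
  (decide (z = z.take (cN z.length) ++ List.replicate (z.length - cN z.length) false) &&
    decide (cN z.length ^ K ≤ cT z.length)) &&
    decide (F (((encodeNat (cV z.length)).dropLast ++ z.take (cN z.length), []),
      UNat.ofNat (cT z.length)) = [true])

theorem poly_a0 {F : (List Bool × List Bool) × UNat → List Bool} (hF : PolyTime F) (K : ℕ) :
    PolyTime (a0 F K) := by
  have hz : PolyTime (fun z : List Bool => z) := PolyTime.id
  have hl := PolyTime.length hz
  have hlb : ∃ b, PB b ∧ ∀ z : List Bool, z.length ≤ b (size z) :=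
    ⟨fun n => n, PB.id, fun z => length_le_size z⟩
  have hle : ∀ {g : List Bool → ℕ}, (∀ z, g z ≤ z.length) →
      ∃ b, PB b ∧ ∀ z : List Bool, g z ≤ b (size z) :=
    fun h => ⟨fun n => n, PB.id, fun z => (h z).trans (length_le_size z)⟩
  have hu := cpl_unpair hl hlb
  have hu1 : PolyTime (fun z : List Bool => (Nat.unpair z.length).1) := hu.fst
  have huu := cpl_unpair hu1 (hle fun z => Nat.unpair_left_le _)
  have hN : PolyTime (fun z : List Bool => cN z.length) := huu.snd
  have hV : PolyTime (fun z : List Bool => cV z.length) := huu.fst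
  have hT : PolyTime (fun z : List Bool => cT z.length) := hu.snd
  have htk := PolyTime.take hz hN
  have hrep : PolyTime (fun z : List Bool => List.replicate (z.length - cN z.length) false) :=
    PolyTime.replicate (PolyTime.sub hl hN) (hle fun z => Nat.sub_le _ _) (PolyTime.const false)
  have hdl : PolyTime (fun z : List Bool => (encodeNat (cV z.length)).dropLast) :=
    (hV.bits.take (hV.bits.length.pred)).congr (fun a => by rw [List.dropLast_eq_take])
  unfold a0
  exact PolyTime.and (PolyTime.and (PolyTime.eq hz (PolyTime.append htk hrep))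
    (PolyTime.le (PolyTime.pow hN K) hT))
    (PolyTime.eq (hF.comp ((PolyTime.pair (PolyTime.append hdl htk) (PolyTime.const [])).pair
      (PolyTime.natToUnat hT (hle fun z => cT_le _)))) (PolyTime.const [true]))

theorem a0_iff {F : (List Bool × List Bool) × UNat → List Bool} {K : ℕ} {z : List Bool} :
    a0 F K z = true ↔ (z = z.take (cN z.length) ++ List.replicate (z.length - cN z.length) false ∧
      cN z.length ^ K ≤ cT z.length) ∧
      F (((encodeNat (cV z.length)).dropLast ++ z.take (cN z.length), []),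
        UNat.ofNat (cT z.length)) = [true] := by
  unfold a0
  rw [Bool.and_eq_true, Bool.and_eq_true, decide_eq_true_eq, decide_eq_true_eq, decide_eq_true_eq]

theorem cpl_card (n : ℕ) : ({s : List Bool | s.length = n}).ncard = 2 ^ n := by
  have := cnt_univ n
  unfold cnt at this
  simpa using this

theorem cpl_finite (n : ℕ) : ({s : List Bool | s.length = n}).Finite :=
  List.finite_length_eq Bool n

/-- size of the complete set -/
theorem slice_a0_le (F : (List Bool × List Bool) × UNat → List Bool) {K : ℕ} (hK : 1 ≤ K) (N : ℕ) :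
    ∃ m : ℕ, m ^ K ≤ N ∧ (slice {z | a0 F K z = true} N).ncard ≤ 2 ^ m := by
  rcases (slice {z | a0 F K z = true} N).eq_empty_or_nonempty with h | ⟨z, hz⟩
  · refine ⟨0, ?_, ?_⟩
    · rw [zero_pow (by omega)]
      exact Nat.zero_le _
    · rw [h]; simp
  · refine ⟨cN N, ?_, ?_⟩
    · have h1 := a0_iff.1 hz.1
      rw [hz.2] at h1
      exact h1.1.2.trans (cT_le N)
    · rw [← cpl_card (cN N)]
      have hsub : slice {z | a0 F K z = true} N ⊆
          (fun s => s ++ List.replicate (N - cN N) false) '' {s : List Bool | s.length = cN N} := by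
        intro y hy
        have h1 := a0_iff.1 hy.1
        rw [hy.2] at h1
        refine ⟨y.take (cN N), ?_, h1.1.1.symm⟩
        show (y.take (cN N)).length = cN N
        rw [List.length_take, hy.2]
        exact min_eq_left (cN_le N)
      exact (Set.ncard_le_ncard hsub ((cpl_finite _).image _)).trans
        (Set.ncard_image_le (cpl_finite _))

/-- **Completeness.** -/
theorem exists_complete (K : ℕ) (hK : 1 ≤ K) :
    ∃ A₀ : Set (List Bool), InP (id : List Bool → List Bool) A₀ ∧
      (∀ N, ∃ m : ℕ, m ^ K ≤ N ∧ (slice A₀ N).ncard ≤ 2 ^ m) ∧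
      ∀ U : BM, Universal U → Q1For U A₀ → Q1 U := by
  obtain ⟨U₀, hU₀⟩ := exists_universal
  obtain ⟨F₀, C₀, hF₀, hF₀s⟩ := exists_simBM U₀
  refine ⟨{z | a0 F₀ K z = true}, inP_iff.2 ⟨a0 F₀ K, poly_a0 hF₀ K, fun _ => Iff.rfl⟩,
    slice_a0_le F₀ hK, ?_⟩
  intro U hU hQ A hA
  obtain ⟨c, p', hQ⟩ := hQ
  obtain ⟨b, hb, hAb⟩ := inP_iff.1 hA
  -- the description of the machine that decides `A`
  obtain ⟨M, P, hM⟩ := exists_bm (D := fun z : List Bool × List Bool => [b z.1])
    ((hb.comp PolyTime.fst').cons (PolyTime.const []))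
  obtain ⟨w, p, hw⟩ := hU₀ M
  set v : ℕ := val (w ++ [true]) with hv
  have hvw : (encodeNat v).dropLast = w := diag_dropLast_encodeNat w
  -- the time bound
  set Q : Polynomial ℕ := Polynomial.C C₀ * p.comp (Polynomial.X + P) + Polynomial.C C₀ +
    Polynomial.X ^ K with hQdef
  have hQe : ∀ n, Q.eval n = C₀ * p.eval (n + P.eval n) + C₀ + n ^ K := by
    intro n
    simp [hQdef, Polynomial.eval_comp]
  set NA : ℕ → ℕ := fun n => Nat.pair (Nat.pair v n) (Q.eval n) with hNA
  have hcN : ∀ n, cN (NA n) = n := by intro n; simp [hNA, cN]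
  have hcV : ∀ n, cV (NA n) = v := by intro n; simp [hNA, cV]
  have hcT : ∀ n, cT (NA n) = Q.eval n := by intro n; simp [hNA, cT]
  have hnN : ∀ n, n ≤ NA n := fun n => by
    have := cN_le (NA n)
    rwa [hcN] at this
  have hF₀b : ∀ n, ∀ s : List Bool, s.length = n →
      F₀ ((w ++ s, []), UNat.ofNat (Q.eval n)) = [b s] := by
    intro n s hs
    refine hF₀s _ _ _ _ _ (hw s [] _ _ (hM s [])) ?_
    rw [hQe]
    simp only [List.length_nil, add_zero, hs]
    omega
  have ha0 : ∀ n, ∀ z : List Bool, z.length = NA n →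
      (a0 F₀ K z = true ↔ (z = z.take n ++ List.replicate (NA n - n) false) ∧ z.take n ∈ A) := by
    intro n z hz
    rw [a0_iff, hz, hcN, hcV, hcT, hvw]
    have hl : (z.take n).length = n := by
      rw [List.length_take, hz]
      exact min_eq_left (hnN n)
    rw [hF₀b n _ hl, hAb]
    constructor
    · rintro ⟨⟨h1, _⟩, h3⟩
      exact ⟨h1, by simpa using h3⟩
    · rintro ⟨h1, h2⟩
      refine ⟨⟨h1, ?_⟩, by rw [h2]⟩
      rw [hQe]
      omega
  -- the decoder
  obtain ⟨FU, CU, hFU, hFUs⟩ := exists_simBM U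
  set TU : ℕ → ℕ := fun n => CU * p'.eval (NA n) + CU with hTU
  have hNAb : PB NA := by
    refine PB.of_le (((((PB.const v).add PB.id).add (PB.const 1)).pow 2).add (PB.eval Q) |>.add
      (PB.const 1) |>.pow 2) fun n => ?_
    have h1 : Nat.pair v n ≤ (v + n + 1) ^ 2 := by
      refine (Nat.pair_lt_max_add_one_sq v n).le.trans ?_
      exact Nat.pow_le_pow_left (by have := max_le_add_of_nonneg (Nat.zero_le v) (Nat.zero_le n); omega) 2
    refine (Nat.pair_lt_max_add_one_sq _ _).le.trans ?_
    refine Nat.pow_le_pow_left ?_ 2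
    have h2 : max (Nat.pair v n) (Q.eval n) ≤ Nat.pair v n + Q.eval n :=
      max_le (Nat.le_add_right _ _) (Nat.le_add_left _ _)
    omega
  have hn : PolyTime (fun a : List Bool × UNat => a.2.toNat) := PolyTime.snd'.unatToNat
  have hnb : ∀ a : List Bool × UNat, a.2.toNat ≤ size a := by
    intro a
    rw [size_prod, size_unat]
    omega
  have hNA' : PolyTime (fun a : List Bool × UNat => NA a.2.toNat) :=
    cpl_pair (cpl_pair (PolyTime.const v) hn) (PolyTime.natEval Q hn)
  have hTU' : PolyTime (fun a : List Bool × UNat => TU a.2.toNat) :=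
    PolyTime.add (PolyTime.mul (PolyTime.const CU) (PolyTime.natEval p' hNA')) (PolyTime.const CU)
  have hTUb : ∃ β, PB β ∧ ∀ a : List Bool × UNat, TU a.2.toNat ≤ β (size a) := by
    obtain ⟨r, hr⟩ := hNAb
    refine ⟨fun k => CU * p'.eval (r.eval k) + CU,
      ((PB.const CU).mul (PB.evalComp p' (PB.eval r))).add (PB.const CU), fun a => ?_⟩
    have h1 : NA a.2.toNat ≤ r.eval (size a) := (hr _).trans (eval_mono r (hnb a))
    exact Nat.add_le_add_right (Nat.mul_le_mul_left _ (eval_mono p' h1)) _
  have hD : PolyTime (fun a : List Bool × UNat =>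
      (fun z : List Bool × ℕ => (FU ((z.1, encodeNat (NA z.2)), UNat.ofNat (TU z.2))).take z.2)
        (a.1, a.2.toNat)) :=
    PolyTime.take (hFU.comp ((PolyTime.pair PolyTime.fst' hNA'.bits).pair
      (PolyTime.natToUnat hTU' hTUb))) hn
  obtain ⟨w', P', hw'⟩ := exists_decoder
    (D := fun z : List Bool × ℕ => (FU ((z.1, encodeNat (NA z.2)), UNat.ofNat (TU z.2))).take z.2)
    hU hD
  refine ⟨c + w'.length, P'.comp (2 * Polynomial.X + Polynomial.C c), fun n s hs => ?_⟩
  -- the padded string
  set z : List Bool := s ++ List.replicate (NA n - n) false with hz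
  have hzl : z.length = NA n := by
    rw [hz, List.length_append, List.length_replicate, hs.2]
    have := hnN n
    omega
  have hzt : z.take n = s := by
    rw [hz, ← hs.2, List.take_left]
  have hzA : z ∈ slice {z | a0 F₀ K z = true} (NA n) := by
    refine ⟨(ha0 n z hzl).2 ?_, hzl⟩
    rw [hzt]
    exact ⟨hz, hs.1⟩
  obtain ⟨q, hq, hout⟩ := hQ (NA n) z hzA
  have hfinA : (slice A n).Finite := (cpl_finite n).subset fun s hs => hs.2
  have hfin0 : (slice {z | a0 F₀ K z = true} (NA n)).Finite :=
    (cpl_finite (NA n)).subset fun s hs => hs.2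
  have hcard : (slice {z | a0 F₀ K z = true} (NA n)).ncard ≤ (slice A n).ncard := by
    have hsub : slice {z | a0 F₀ K z = true} (NA n) ⊆
        (fun s => s ++ List.replicate (NA n - n) false) '' slice A n := by
      intro y hy
      have h1 := (ha0 n y hy.2).1 hy.1
      refine ⟨y.take n, ⟨h1.2, ?_⟩, h1.1.symm⟩
      rw [List.length_take, hy.2]
      exact min_eq_left (hnN n)
    exact (Set.ncard_le_ncard hsub (hfinA.image _)).trans (Set.ncard_image_le hfinA)
  have hpos0 : 0 < (slice {z | a0 F₀ K z = true} (NA n)).ncard := (Set.ncard_pos hfin0).2 ⟨z, hzA⟩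
  have hposA : 0 < (slice A n).ncard := (Set.ncard_pos hfinA).2 ⟨s, hs⟩
  have hlog : Real.logb 2 (slice {z | a0 F₀ K z = true} (NA n)).ncard ≤
      Real.logb 2 (slice A n).ncard :=
    Real.logb_le_logb_of_le (by norm_num) (by exact_mod_cast hpos0) (by exact_mod_cast hcard)
  have hqA : (q.length : ℝ) ≤ Real.logb 2 (slice A n).ncard + c := hq.trans (by linarith)
  have hDq : (FU ((q, encodeNat (NA n)), UNat.ofNat (TU n))).take n = s := by
    rw [hFUs q (encodeNat (NA n)) z _ (TU n) hout (by rw [hzl]), hzt]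
  have hqn : q.length ≤ n + c := by
    have h1 : (slice A n).ncard ≤ 2 ^ n := by
      rw [← cpl_card n]
      exact Set.ncard_le_ncard (fun s hs => hs.2) (cpl_finite n)
    have h2 : Real.logb 2 (slice A n).ncard ≤ n := by
      have h4 : Real.logb 2 (slice A n).ncard ≤ Real.logb 2 ((2 : ℝ) ^ n) :=
        Real.logb_le_logb_of_le (by norm_num) (by exact_mod_cast hposA) (by exact_mod_cast h1)
      rw [Real.logb_pow, Real.logb_self_eq_one (by norm_num), mul_one] at h4
      exact h4
    have h5 : (q.length : ℝ) ≤ ((n + c : ℕ) : ℝ) := by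
      push_cast
      linarith
    exact_mod_cast h5
  refine ⟨w' ++ q, ?_, ?_⟩
  · rw [List.length_append]
    push_cast
    linarith
  · have h1 := hw' q n
    simp only [hDq] at h1
    refine h1.mono ?_
    rw [hs.2]
    change P'.eval (q.length + n) ≤ (P'.comp (2 * Polynomial.X + Polynomial.C c)).eval n
    rw [Polynomial.eval_comp]
    refine eval_mono P' ?_
    simp
    omega

end Pool.Agent.H83.TK
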