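import Pool.Agent.H83.TK.Diag

/-!
# No single polynomial works for all sets in P, even with slack `e log n`
-/

set_option autoImplicit false

namespace Pool.Agent.H83.TK

open Pool.Agent.H80.Poly Pool.Agent.H72.NP Turing Computability

/-- `s` is not the output of one of the first `R(n)` programs -/
def dkGood (F : (List Bool × List Bool) × UNat → List Bool) (P R : Polynomial ℕ) (n : ℕ)
    (s : List Bool) : Bool :=
  (List.range (R.eval n)).all fun v => !decide (diagOut F P n (v + 1) = s)

/-- the good candidates of length `n` -/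
def dkList (F : (List Bool × List Bool) × UNat → List Bool) (P R : Polynomial ℕ) (n : ℕ) :
    List (List Bool) :=
  ((List.range (R.eval n + 1)).map fun j => diagCand n j).filter fun s => dkGood F P R n s

theorem diag_val_cand' {n j : ℕ} (hj : j < 2 ^ n) : val (diagCand n j) = j := by
  have h2 : (encodeNat j).length ≤ n := by
    have := size_nat j
    have h3 : (encodeNat j).length = j.size := this
    rw [h3]
    exact Nat.size_le.2 hj
  have h3 : diagCand n j = encodeNat j ++ List.replicate (n - (encodeNat j).length) false := by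
    unfold diagCand
    rw [List.take_append, List.take_of_length_le h2, List.take_replicate]
    congr 2
    omega
  rw [h3, val_append, val_replicate_false, val_encodeNat]
  ring

theorem dk_mem_list {F : (List Bool × List Bool) × UNat → List Bool} {P R : Polynomial ℕ} {n : ℕ}
    {s : List Bool} (h : s ∈ dkList F P R n) :
    s.length = n ∧ ∀ v < R.eval n, diagOut F P n (v + 1) ≠ s := by
  unfold dkList at h
  rw [List.mem_filter, List.mem_map] at h
  obtain ⟨⟨j, _, rfl⟩, h2⟩ := h
  refine ⟨diag_length_cand n j, fun v hv => ?_⟩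
  unfold dkGood at h2
  rw [List.all_eq_true] at h2
  have := h2 v (List.mem_range.2 hv)
  simpa using this

theorem dk_list_ne_nil (F : (List Bool × List Bool) × UNat → List Bool) (P R : Polynomial ℕ)
    {n : ℕ} (hn : R.eval n + 1 ≤ 2 ^ n) : dkList F P R n ≠ [] := by
  intro h
  unfold dkList at h
  rw [List.filter_eq_nil_iff] at h
  have hbad : ∀ j ∈ Finset.range (R.eval n + 1), ∃ v ∈ Finset.range (R.eval n),
      diagOut F P n (v + 1) = diagCand n j := by
    intro j hj
    have h1 := h (diagCand n j) (List.mem_map.2 ⟨j, List.mem_range.2 (Finset.mem_range.1 hj), rfl⟩)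
    unfold dkGood at h1
    rw [List.all_eq_true] at h1
    push Not at h1
    obtain ⟨v, hv, hv2⟩ := h1
    refine ⟨v, Finset.mem_range.2 (List.mem_range.1 hv), ?_⟩
    simpa using hv2
  choose! g hg hg2 using hbad
  obtain ⟨i, hi, j, hj, hij, he⟩ := Finset.exists_ne_map_eq_of_card_lt_of_maps_to
    (s := Finset.range (R.eval n + 1)) (t := Finset.range (R.eval n)) (f := g) (by simp) hg
  apply hij
  have h1 : diagCand n i = diagCand n j := by rw [← hg2 i hi, ← hg2 j hj, he]
  rw [← diag_val_cand' ((Finset.mem_range.1 hi).trans_le hn),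
    ← diag_val_cand' ((Finset.mem_range.1 hj).trans_le hn), h1]

theorem dk_poly_good {α : Type} [BEnc α] {F : (List Bool × List Bool) × UNat → List Bool}
    (hF : PolyTime F) (P R : Polynomial ℕ) {n : α → ℕ} {s : α → List Bool} (hn : PolyTime n)
    (hs : PolyTime s) (hnb : ∃ β, PB β ∧ ∀ a, n a ≤ β (size a)) :
    PolyTime (fun a => dkGood F P R (n a) (s a)) := by
  have hw : PolyTime (fun w : α × ℕ => w) := PolyTime.id
  obtain ⟨β, hβ, hβn⟩ := hnb
  have hr : PolyTime (fun a => List.range (R.eval (n a))) :=
    PolyTime.range (PolyTime.natEval R hn) ⟨fun m => R.eval (β m), PB.evalComp R hβ, fun a =>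
      eval_mono R (hβn a)⟩
  have hb : ∃ γ, PB γ ∧ ∀ w : α × ℕ, n w.1 ≤ γ (size w) := by
    obtain ⟨γ, hγ⟩ := hβ
    refine ⟨fun m => γ.eval m, PB.eval γ, fun w => ?_⟩
    refine (hβn w.1).trans ((hγ _).trans (eval_mono γ ?_))
    rw [size_prod]
    omega
  have hg : PolyTime (fun w : α × ℕ => !decide (diagOut F P (n w.1) (w.2 + 1) = s w.1)) :=
    (PolyTime.eq (diag_poly_out hF P (hn.comp hw.fst) hw.snd.succ hb) (hs.comp hw.fst)).not
  exact PolyTime.all hr hg

theorem dk_poly_list {F : (List Bool × List Bool) × UNat → List Bool}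
    (hF : PolyTime F) (P R : Polynomial ℕ) :
    PolyTime (fun x : List Bool => dkList F P R x.length) := by
  have hid : PolyTime (fun x : List Bool => x) := PolyTime.id
  have hn : PolyTime (fun x : List Bool => x.length) := hid.length
  have hw : PolyTime (fun w : List Bool × ℕ => w) := PolyTime.id
  have hw' : PolyTime (fun w : List Bool × List Bool => w) := PolyTime.id
  have hr : PolyTime (fun x : List Bool => List.range (R.eval x.length + 1)) :=
    PolyTime.range (PolyTime.natEval R hn).succ ⟨fun m => R.eval m + 1,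
      (PB.eval R).add (PB.const 1), fun a =>
        Nat.add_le_add_right (eval_mono R (length_le_size a)) 1⟩
  have h1 : PolyTime (fun x : List Bool => (List.range (R.eval x.length + 1)).map
      fun j => diagCand x.length j) := by
    refine PolyTime.map hr (g := fun w : List Bool × ℕ => diagCand w.1.length w.2) ?_
    refine diag_poly_cand (hn.comp hw.fst) hw.snd ⟨fun m => m, PB.id, fun w => ?_⟩
    have := length_le_size w.1
    show w.1.length ≤ size w
    rw [size_prod]
    omega
  refine PolyTime.filter h1 (g := fun w : List Bool × List Bool => dkGood F P R w.1.length w.2) ?_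
  refine dk_poly_good hF P R (hn.comp hw'.fst) hw'.snd ⟨fun m => m, PB.id, fun w => ?_⟩
  have := length_le_size w.1
  show w.1.length ≤ size w
  rw [size_prod]
  omega

theorem dk_growth (e : ℕ) : ∃ n₁, ∀ n ≥ n₁, (n + 2) ^ (e + 1) + 1 ≤ 2 ^ n := by
  have h := tendsto_pow_const_div_const_pow_of_one_lt (e + 2) (r := (2 : ℝ)) (by norm_num)
  have h1 := (h.eventually (gt_mem_nhds (show (0 : ℝ) < 1 by norm_num)))
  rw [Filter.eventually_atTop] at h1
  obtain ⟨m₀, hm₀⟩ := h1
  refine ⟨max m₀ 8, fun n hn => ?_⟩
  have h2 := hm₀ (n + 2) (by have := le_max_left m₀ 8; omega)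
  rw [div_lt_one (by positivity)] at h2
  have h3 : (n + 2) ^ (e + 2) < 2 ^ (n + 2) := by exact_mod_cast h2
  have h4 : 8 * (n + 2) ^ (e + 1) ≤ (n + 2) ^ (e + 2) := by
    rw [pow_succ (n + 2) (e + 1), mul_comm]
    exact Nat.mul_le_mul_left _ (by have := le_max_right m₀ 8; omega)
  have h5 : 1 ≤ (n + 2) ^ (e + 1) := Nat.one_le_pow _ _ (by omega)
  have h6 : 2 ^ (n + 2) = 4 * 2 ^ n := by rw [pow_add]; ring
  omega

/-- For every polynomial `p` and every `e` some set in P has exactly one member of each large length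
`n`, and the `p`-time-bounded complexity of this member, given `n`, is more than `e log n`. -/
theorem no_uniform' (U : BM) (p : Polynomial ℕ) (e : ℕ) :
    ∃ (A : Set (List Bool)) (n₁ : ℕ), InP id A ∧ ∀ n ≥ n₁, (slice A n).ncard = 1 ∧
      ∀ s ∈ slice A n, ¬ KLE U (fun k => p.eval k) s (encodeNat n) (e * Real.logb 2 n) := by
  obtain ⟨F, C, hF, hFs⟩ := exists_simBM U
  set P : Polynomial ℕ := Polynomial.C C * p + Polynomial.C C with hP
  have hPe : ∀ n, P.eval n = C * p.eval n + C := by
    intro n
    rw [hP]
    simp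
  set R : Polynomial ℕ := (Polynomial.X + 2) ^ (e + 1) with hR
  have hRe : ∀ n, R.eval n = (n + 2) ^ (e + 1) := by
    intro n
    rw [hR]
    simp
  obtain ⟨n₁, hn₁⟩ := dk_growth e
  set A : Set (List Bool) := {x | (dkList F P R x.length)[0]? = some x} with hA
  have hcard : ∀ n ≥ n₁, (slice A n).ncard = 1 := by
    intro n hn
    rw [Set.ncard_eq_one]
    obtain ⟨s, l, hl⟩ := List.exists_cons_of_ne_nil
      (dk_list_ne_nil F P R (n := n) (by rw [hRe]; exact hn₁ n hn))
    have hs : s.length = n := (dk_mem_list (F := F) (P := P) (R := R) (n := n) (s := s)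
      (by rw [hl]; exact List.mem_cons_self)).1
    refine ⟨s, ?_⟩
    ext x
    constructor
    · rintro ⟨h1, h2⟩
      rw [hA, Set.mem_ofPred_eq, h2, hl] at h1
      simp only [List.getElem?_cons_zero, Option.some.injEq] at h1
      exact h1.symm
    · intro h
      rw [Set.mem_singleton_iff] at h
      subst h
      refine ⟨?_, hs⟩
      rw [hA, Set.mem_ofPred_eq, hs, hl]
      rfl
  refine ⟨A, max n₁ 1, ?_, fun n hn => ⟨hcard n ((le_max_left _ _).trans hn), ?_⟩⟩
  · rw [inP_iff]
    refine ⟨fun x => decide ((dkList F P R x.length)[0]? = some x), ?_, fun x => ?_⟩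
    · have hid : PolyTime (fun x : List Bool => x) := PolyTime.id
      exact PolyTime.eq ((dk_poly_list hF P R).getElem? (PolyTime.const 0)) (PolyTime.some hid)
    · rw [hA, Set.mem_ofPred_eq, decide_eq_true_iff]
  · intro s hs hK
    have hn1 : 1 ≤ n := (le_max_right _ _).trans hn
    obtain ⟨q, hq, hout⟩ := hK
    obtain ⟨h1, h2⟩ := hs
    rw [hA, Set.mem_ofPred_eq, h2] at h1
    have hmem : s ∈ dkList F P R n := List.mem_of_getElem? h1
    have hval : val (q ++ [true]) = val q + 2 ^ q.length := by
      rw [val_append]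
      simp [val]
    have hlt := val_lt q
    have hle : 2 ^ q.length ≤ n ^ e := by
      have h3 : (2 : ℝ) ^ (q.length : ℝ) ≤ 2 ^ (e * Real.logb 2 n) :=
        Real.rpow_le_rpow_of_exponent_le (by norm_num) hq
      have h4 : (2 : ℝ) ^ ((e : ℝ) * Real.logb 2 n) = (n : ℝ) ^ e := by
        rw [mul_comm, Real.rpow_mul (by norm_num), Real.rpow_logb (by norm_num) (by norm_num)
          (by exact_mod_cast hn1), Real.rpow_natCast]
      rw [h4, Real.rpow_natCast] at h3
      exact_mod_cast h3
    have hle2 : 2 * n ^ e ≤ (n + 2) ^ (e + 1) := by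
      rw [pow_succ, mul_comm]
      exact Nat.mul_le_mul (Nat.pow_le_pow_left (by omega) e) (by omega)
    have hpos : 0 < 2 ^ q.length := by positivity
    have h3 := (dk_mem_list hmem).2 (val (q ++ [true]) - 1) (by
      rw [hRe]
      omega)
    apply h3
    unfold diagOut
    rw [show val (q ++ [true]) - 1 + 1 = val (q ++ [true]) by omega, diag_dropLast_encodeNat]
    have h4 := hout
    rw [h2] at h4
    exact hFs q (encodeNat n) s (p.eval n) (P.eval n) h4 (by rw [hPe])

end Pool.Agent.H83.TK
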