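import Pool.Agent.H83.TK.Pk

/-!
# Bit-by-bit search with an oracle, and computations with an oracle in P
-/

set_option autoImplicit false

namespace Pool.Agent.H83.TK

open Pool.Agent.H80.Poly Pool.Agent.H72.NP Turing Computability

/-- over a finite alphabet the size of a list is at most a multiple of its length -/
theorem fpo_size_le_length (A : Type) [Finite A] [BEnc A] :
    ∃ c : ℕ, ∀ l : List A, size l ≤ c * l.length := by
  have := Fintype.ofFinite A
  refine ⟨Finset.univ.sup (fun a : A => 2 * size a + 1), fun l => ?_⟩
  induction l with
  | nil => simp [size_nil]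
  | cons a l ih =>
    rw [size_cons, List.length_cons, Nat.mul_add, Nat.mul_one]
    have h1 := Finset.le_sup (f := fun a : A => 2 * size a + 1) (Finset.mem_univ a)
    omega

theorem fpo_size_bools (s : List Bool) : size s = 3 * s.length := by
  induction s with
  | nil => simp [size_nil]
  | cons a l ih =>
    rw [size_cons, List.length_cons, size_bool, ih]
    omega

/-- The greedy search with queries `pk (x a) u` to `O` is a polynomial-time computation with oracle
`O`. -/
theorem fpo_greedy {A : Type} [Fintype A] [BEnc A] {α : Type} {e : α → List A}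
    {O : List Bool → Prop} {x : List A → List Bool} (hx : PolyTime x) (N : Polynomial ℕ)
    {out : List Bool × List Bool → List Bool} (hout : PolyTime out) {f : α → List Bool}
    (hf : ∀ a, f a = out (x (e a), greedy (fun u => O (pk (x (e a)) u)) (N.eval (e a).length))) :
    InFPO O e f := by
  obtain ⟨bx, ⟨px, hpx⟩, hbx⟩ := hx.size_le
  obtain ⟨c, hc⟩ := fpo_size_le_length A
  have hiter : ∀ (a : α) (i : ℕ),
      (ostep O (fun s => s ++ [false]) (fun s => s ++ [false]) (fun s => s ++ [true]))^[i]
        (pk (x (e a)) []) = pk (x (e a)) (greedy (fun u => O (pk (x (e a)) u)) i) := by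
    intro a i
    induction i with
    | zero => rfl
    | succ i ih =>
      rw [Function.iterate_succ_apply', ih]
      simp only [ostep, pk_append, greedy]
      by_cases h : O (pk (x (e a)) (greedy (fun u => O (pk (x (e a)) u)) i ++ [false]))
      · have h' : O (pk (x (e a)) (greedy (fun u => O (pk (x (e a)) u)) i) ++ [false]) := by
          rw [pk_append]; exact h
        rw [if_pos h', if_pos h]
      · have h' : ¬ O (pk (x (e a)) (greedy (fun u => O (pk (x (e a)) u)) i) ++ [false]) := by
          rw [pk_append]; exact h
        rw [if_neg h', if_neg h]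
  refine ⟨fun a => pk (x (e a)) [], fun s => s ++ [false], fun s => s ++ [false],
    fun s => s ++ [true], fun z => out (fs z, sn z), N,
    2 * px.comp (Polynomial.C c * Polynomial.X) + 1 + N, ?_, ?_, ?_, ?_, ?_, ?_⟩
  · exact polyTimeFun_id_of (D := fun l => pk (x l) []) (poly_pk hx (PolyTime.const _))
      (fun a => rfl)
  · exact polyTimeFun_id_iff.mpr (PolyTime.append PolyTime.id (PolyTime.const _))
  · exact polyTimeFun_id_iff.mpr (PolyTime.append PolyTime.id (PolyTime.const _))
  · exact polyTimeFun_id_iff.mpr (PolyTime.append PolyTime.id (PolyTime.const _))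
  · exact polyTimeFun_id_iff.mpr (hout.comp ((poly_fs PolyTime.id).pair (poly_sn PolyTime.id)))
  · intro a
    constructor
    · intro i hi
      rw [hiter a i, length_pk, length_greedy]
      have h1 : (x (e a)).length ≤ px.eval (c * (e a).length) :=
        (length_le_size _).trans ((hbx (e a)).trans ((hpx _).trans (eval_mono px (hc (e a)))))
      have h2 : (2 * px.comp (Polynomial.C c * Polynomial.X) + 1 + N).eval (e a).length
          = 2 * px.eval (c * (e a).length) + 1 + N.eval (e a).length := by
        simp [Polynomial.eval_comp]
      rw [h2]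
      omega
    · rw [hiter a _]
      show out (fs (pk _ _), sn (pk _ _)) = _
      rw [fs_pk, sn_pk, hf a]

/-- Oracle computations with an oracle in P take polynomial time. -/
theorem poly_of_fpo {A : Type} [Finite A] [BEnc A] {α : Type} {e : α → List A}
    {O : List Bool → Prop} (hO : InP (id : List Bool → List Bool) {z | O z})
    {f : α → List Bool} (hf : InFPO O e f) :
    ∃ g : List A → List Bool, PolyTime g ∧ ∀ a, g (e a) = f a := by
  obtain ⟨init, qry, yes, no, out, T, b, h1, h2, h3, h4, h5, h6⟩ := hf
  obtain ⟨b1, hb1, hb1O⟩ := inP_iff.mp hO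
  obtain ⟨g0, hg0, hg0i⟩ := exists_poly_of_fun h1
  have hq := polyTimeFun_id_iff.mp h2
  have hy := polyTimeFun_id_iff.mp h3
  have hn := polyTimeFun_id_iff.mp h4
  have ho := polyTimeFun_id_iff.mp h5
  set st : List Bool → List Bool := fun s => bif b1 (qry s) then yes s else no s with hst
  have hstP : PolyTime st := PolyTime.cond (hb1.comp hq) hy hn
  have host : ostep O qry yes no = st := by
    funext s
    simp only [ostep, hst]
    by_cases h : O (qry s)
    · have := (hb1O (qry s)).mp h
      simp [h, this]
    · have : ¬ (b1 (qry s) = true) := fun hh => h ((hb1O (qry s)).mpr hh)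
      have h' : b1 (qry s) = false := by simpa using this
      simp [h, h']
  rw [host] at h6
  set hh : ℕ × List Bool → ℕ × List Bool := fun w =>
    (w.1, if (st w.2).length ≤ w.1 then st w.2 else w.2) with hhdef
  have hhP : PolyTime hh := by
    have hs2 : PolyTime (fun w : ℕ × List Bool => st w.2) := hstP.comp PolyTime.snd'
    exact PolyTime.fst'.pair (PolyTime.ite (c := fun w : ℕ × List Bool => (st w.2).length ≤ w.1)
      (PolyTime.le (PolyTime.length hs2) PolyTime.fst') hs2 PolyTime.snd')
  have hfst : ∀ (i : ℕ) (w : ℕ × List Bool), (hh^[i] w).1 = w.1 := by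
    intro i w
    induction i with
    | zero => rfl
    | succ i ih => rw [Function.iterate_succ_apply']; exact ih
  have hlen : ∀ (i : ℕ) (w : ℕ × List Bool), (hh^[i] w).2.length ≤ w.1 + w.2.length := by
    intro i w
    induction i with
    | zero =>
      show w.2.length ≤ _
      omega
    | succ i ih =>
      rw [Function.iterate_succ_apply']
      simp only [hhdef]
      split_ifs with h
      · have := hfst i w
        simp only [hhdef] at this
        omega
      · exact ih
  obtain ⟨bg, hbg, hbgs⟩ := hg0.size_le
  have hc : PolyTime (fun l : List A => toStr (UNat.ofNat (T.eval l.length))) :=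
    PolyTime.toStr'.comp (PolyTime.unatEval T (PolyTime.lengthU PolyTime.id))
  have hfP : PolyTime (fun l : List A => (b.eval l.length, g0 l)) :=
    (PolyTime.natEval b (PolyTime.length PolyTime.id)).pair hg0
  have hcl : ∀ l : List A, (enc (toStr (UNat.ofNat (T.eval l.length)))).length = T.eval l.length := by
    intro l
    exact size_unat (UNat.ofNat (T.eval l.length))
  have hit := PolyTime.iterate hc hfP hhP (by
    refine ⟨fun n => 2 * b.eval n + 1 + 3 * (b.eval n + bg n),
      (((PB.const 2).mul (PB.eval b)).add (PB.const 1)).add
        ((PB.const 3).mul ((PB.eval b).add hbg)), ?_⟩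
    intro l i _
    rw [size_prod, fpo_size_bools, hfst]
    have e1 := hlen i (b.eval l.length, g0 l)
    have e2 : (g0 l).length ≤ bg (size l) := (length_le_size _).trans (hbgs l)
    have e3 : b.eval l.length ≤ b.eval (size l) := eval_mono b (length_le_size l)
    have e4 : size (b.eval l.length) ≤ b.eval l.length := size_nat_le_self _
    simp only at e1 ⊢
    omega)
  refine ⟨fun l => out (hh^[(enc (toStr (UNat.ofNat (T.eval l.length)))).length]
    (b.eval l.length, g0 l)).2, ho.comp hit.snd, ?_⟩
  intro a
  obtain ⟨h7, h8⟩ := h6 a
  have key : ∀ i, i ≤ T.eval (e a).length →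
      hh^[i] (b.eval (e a).length, init a) = (b.eval (e a).length, st^[i] (init a)) := by
    intro i
    induction i with
    | zero => intro _; rfl
    | succ i ih =>
      intro hi
      rw [Function.iterate_succ_apply', ih (by omega)]
      have := h7 (i + 1) hi
      rw [Function.iterate_succ_apply'] at this
      simp only [hhdef, this, if_true]
      rw [Function.iterate_succ_apply']
  show out (hh^[(enc (toStr (UNat.ofNat (T.eval (e a).length)))).length]
    (b.eval (e a).length, g0 (e a))).2 = f a
  rw [hcl, hg0i, key _ le_rfl, h8]

end Pool.Agent.H83.TK
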