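import Mathlib

/-!
# Greedy search for a bit string
-/

set_option autoImplicit false

namespace Pool.Agent.H83.TK

open Classical in
/-- bit-by-bit construction of a string: a `0` is appended if the result has property `E`, and a `1`
otherwise -/
noncomputable def greedy (E : List Bool → Prop) : ℕ → List Bool
  | 0 => []
  | j + 1 => if E (greedy E j ++ [false]) then greedy E j ++ [false] else greedy E j ++ [true]

/-- `u` can be extended to a string of length `N` with property `R` -/
def Ext (N : ℕ) (R : List Bool → Prop) (u : List Bool) : Prop :=
  ∃ y : List Bool, y.length = N ∧ u <+: y ∧ R y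

/-- the number of leading ones -/
def lead (y : List Bool) : ℕ := y.findIdx fun b => !b

theorem lead_le_length (y : List Bool) : lead y ≤ y.length := List.findIdx_le_length

theorem lead_replicate_append (k : ℕ) (y : List Bool) :
    lead (List.replicate k true ++ false :: y) = k := by
  unfold lead
  induction k with
  | zero => simp [List.findIdx_cons]
  | succ k ih =>
    rw [List.replicate_succ, List.cons_append, List.findIdx_cons]
    simp only [Bool.not_true, cond_false]
    rw [ih]

theorem length_greedy (E : List Bool → Prop) (j : ℕ) : (greedy E j).length = j := by
  induction j with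
  | zero => rfl
  | succ j ih =>
    rw [greedy]
    split_ifs <;> simp [ih]

private theorem greedy_prefix_succ (E : List Bool → Prop) (j : ℕ) :
    greedy E j <+: greedy E (j + 1) := by
  rw [greedy]
  split_ifs
  · exact List.prefix_append _ _
  · exact List.prefix_append _ _

theorem greedy_prefix (E : List Bool → Prop) {i j : ℕ} (h : i ≤ j) :
    greedy E i <+: greedy E j := by
  induction h with
  | refl => exact List.prefix_rfl
  | step _ ih => exact ih.trans (greedy_prefix_succ E _)

private theorem greedy_pos {E : List Bool → Prop} {j : ℕ} (h : E (greedy E j ++ [false])) :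
    greedy E (j + 1) = greedy E j ++ [false] := by
  rw [greedy, if_pos h]

private theorem greedy_neg {E : List Bool → Prop} {j : ℕ} (h : ¬ E (greedy E j ++ [false])) :
    greedy E (j + 1) = greedy E j ++ [true] := by
  rw [greedy, if_neg h]

private theorem prefix_snoc {u y : List Bool} (h : u <+: y) (hl : u.length < y.length) :
    ∃ b, u ++ [b] <+: y := by
  obtain ⟨t, rfl⟩ := h
  cases t with
  | nil => simp at hl
  | cons b t =>
    refine ⟨b, ?_⟩
    rw [show u ++ b :: t = (u ++ [b]) ++ t by simp]
    exact List.prefix_append _ _

private theorem greedy_ext {N : ℕ} {R : List Bool → Prop} (h : ∃ y : List Bool, y.length = N ∧ R y)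
    {j : ℕ} (hj : j ≤ N) : Ext N R (greedy (Ext N R) j) := by
  induction j with
  | zero =>
    obtain ⟨y, hy, hR⟩ := h
    exact ⟨y, hy, List.nil_prefix, hR⟩
  | succ j ih =>
    by_cases hE : Ext N R (greedy (Ext N R) j ++ [false])
    · rw [greedy_pos hE]
      exact hE
    · rw [greedy_neg hE]
      obtain ⟨y, hy, hp, hR⟩ := ih (by omega)
      obtain ⟨b, hb⟩ := prefix_snoc hp (by rw [length_greedy]; omega)
      cases b with
      | false => exact absurd ⟨y, hy, hb, hR⟩ hE
      | true => exact ⟨y, hy, hb, hR⟩

/-- the search succeeds -/
theorem greedy_spec {N : ℕ} {R : List Bool → Prop} (h : ∃ y : List Bool, y.length = N ∧ R y) :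
    R (greedy (Ext N R) N) := by
  obtain ⟨y, hy, hp, hR⟩ := greedy_ext h le_rfl
  have : greedy (Ext N R) N = y := hp.eq_of_length (by rw [length_greedy, hy])
  rw [this]
  exact hR

/-- The first part of the result is the canonical one if `R` implies a property `G` of the first
part, and some solution has the canonical first part. -/
theorem greedy_take {N₁ N : ℕ} {G R : List Bool → Prop} (hN : N₁ ≤ N)
    (hR : ∀ y : List Bool, y.length = N → R y → G (y.take N₁)) {y : List Bool}
    (hy : y.length = N) (hRy : R y) (h1 : y.take N₁ = greedy (Ext N₁ G) N₁) :
    (greedy (Ext N R) N).take N₁ = greedy (Ext N₁ G) N₁ := by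
  have key : ∀ j ≤ N₁, greedy (Ext N R) j = greedy (Ext N₁ G) j := by
    intro j
    induction j with
    | zero => intro _; rfl
    | succ j ih =>
      intro hj
      have ih' := ih (by omega)
      by_cases hE : Ext N₁ G (greedy (Ext N₁ G) j ++ [false])
      · rw [greedy_pos hE]
        have hE' : Ext N R (greedy (Ext N R) j ++ [false]) := by
          refine ⟨y, hy, ?_, hRy⟩
          rw [ih', ← greedy_pos hE]
          have := greedy_prefix (Ext N₁ G) hj
          rw [← h1] at this
          exact this.trans (List.take_prefix _ _)
        rw [greedy_pos hE', ih']
      · rw [greedy_neg hE]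
        have hE' : ¬ Ext N R (greedy (Ext N R) j ++ [false]) := by
          rintro ⟨z, hz, hp, hRz⟩
          apply hE
          refine ⟨z.take N₁, by rw [List.length_take]; omega, ?_, hR z hz hRz⟩
          rw [← ih']
          rw [List.prefix_take_iff]
          refine ⟨hp, ?_⟩
          rw [List.length_append, length_greedy]
          simpa using hj
        rw [greedy_neg hE', ih']
  have h2 := greedy_prefix (Ext N R) hN
  rw [List.prefix_iff_eq_take, length_greedy] at h2
  rw [← h2]
  exact key N₁ le_rfl

private theorem lead_of_prefix {k : ℕ} {g : List Bool}
    (h : List.replicate k true ++ [false] <+: g) : lead g = k := by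
  obtain ⟨t, rfl⟩ := h
  rw [List.append_assoc]
  exact lead_replicate_append k t

private theorem replicate_prefix {k : ℕ} {g : List Bool} (h : k ≤ lead g) :
    List.replicate k true <+: g := by
  induction k generalizing g with
  | zero => exact List.nil_prefix
  | succ k ih =>
    cases g with
    | nil =>
      unfold lead at h
      simp at h
    | cons b g =>
      unfold lead at h
      rw [List.findIdx_cons] at h
      cases b with
      | false => simp at h
      | true =>
        simp only [Bool.not_true, cond_false] at h
        rw [List.replicate_succ]
        exact (List.prefix_cons_inj true).2 (ih (by unfold lead; omega))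

private theorem prefix_of_lead {k : ℕ} {g : List Bool} (h : lead g = k) (hl : k < g.length) :
    List.replicate k true ++ [false] <+: g := by
  have h1 := replicate_prefix h.ge
  obtain ⟨b, hb⟩ := prefix_snoc h1 (by simpa using hl)
  cases b with
  | false => exact hb
  | true =>
    exfalso
    obtain ⟨t, rfl⟩ := hb
    have h2 : k + 1 ≤ lead (List.replicate k true ++ [true] ++ t) := by
      rw [← List.replicate_succ']
      unfold lead
      rw [List.findIdx_append]
      have : List.findIdx (fun b => !b) (List.replicate (k + 1) true) = k + 1 := by
        have h3 : List.findIdx (fun b => !b) (List.replicate (k + 1) true) =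
            (List.replicate (k + 1) true).length := by
          rw [List.findIdx_eq_length]
          intro x hx
          rw [List.mem_replicate] at hx
          rw [hx.2]
          rfl
        rw [h3, List.length_replicate]
      rw [this]
      simp
    omega

/-- the result has the least possible number of leading ones -/
theorem lead_greedy_le {N : ℕ} {G : List Bool → Prop} {y : List Bool} (hy : y.length = N)
    (hG : G y) : lead (greedy (Ext N G) N) ≤ lead y := by
  by_contra hlt
  push Not at hlt
  set g := greedy (Ext N G) N with hg
  have hgl : g.length = N := length_greedy _ _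
  have h1 : lead g ≤ N := hgl ▸ lead_le_length g
  have h2 : List.replicate (lead y) true ++ [false] <+: y :=
    prefix_of_lead rfl (by omega)
  have h3 : greedy (Ext N G) (lead y) = List.replicate (lead y) true := by
    have h4 : greedy (Ext N G) (lead y) <+: g := greedy_prefix _ (by omega)
    have h5 : List.replicate (lead y) true <+: g := replicate_prefix hlt.le
    have h6 := List.prefix_of_prefix_length_le h4 h5 (by rw [length_greedy, List.length_replicate])
    exact h6.eq_of_length (by rw [length_greedy, List.length_replicate])
  have h7 : Ext N G (greedy (Ext N G) (lead y) ++ [false]) := by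
    rw [h3]
    exact ⟨y, hy, h2, hG⟩
  have h8 : greedy (Ext N G) (lead y + 1) <+: g := greedy_prefix _ (by omega)
  rw [greedy_pos h7, h3] at h8
  have h9 := lead_of_prefix h8
  omega

/-- the same for the first `k` bits -/
theorem lead_take_greedy_le {N k : ℕ} {G : List Bool → Prop} {y : List Bool} (hy : y.length = N)
    (hG : G y) : lead ((greedy (Ext N G) N).take k) ≤ lead (y.take k) := by
  have h := lead_greedy_le hy hG
  unfold lead at h ⊢
  rw [List.findIdx_take, List.findIdx_take]
  omega

end Pool.Agent.H83.TK
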