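import Pool.Agent.H83.TK.Cert
import Pool.Agent.H83.TK.Greedy

/-!
# The layout of schemes, certificates and codes as bit strings

A scheme `κ` for strings of length `n` starts with `n + 1` bits whose number of leading ones is the
parameter `m = par n κ`. The rest is cut into blocks of `n` bits: block `j * (n + 3) + r` is row `r`
of matrix `j`. The matrix `j` has `m + 2 - j` rows, and `rounds n m` matrices are used.
-/

set_option autoImplicit false

namespace Pool.Agent.H83.TK

/-- block `t` of length `n` -/
def blk (n t : ℕ) (y : List Bool) : List Bool := (y.drop (t * n)).take n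

/-- the parameter `m` of a scheme -/
def par (n : ℕ) (κ : List Bool) : ℕ := lead (κ.take (n + 1))

/-- the matrix `j` of a scheme -/
def mat (n : ℕ) (κ : List Bool) (j : ℕ) : List (List Bool) :=
  (List.range (par n κ + 2 - j)).map fun r => blk n (j * (n + 3) + r) (κ.drop (n + 1))

/-- the number of matrices used -/
def rounds (n m : ℕ) : ℕ := min (n.size + 1) (m + 2)

/-- length of schemes -/
def kLen (n : ℕ) : ℕ := (n + 1) + (n + 1) * (n + 3) * n

/-- bound for the number of blocks of a certificate -/
def cap (n : ℕ) : ℕ := 4 * n + 4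

/-- length of certificates -/
def vLen (n : ℕ) : ℕ := cap n * n

/-- `{s : |s| = n, b s}` -/
def XX (b : List Bool → Bool) (n : ℕ) : Set (List Bool) := {s | s.length = n ∧ b s = true}

/-- the hash functions of a scheme -/
def HH (n : ℕ) (κ : List Bool) (j : ℕ) : List Bool → List Bool := hsh (mat n κ j)

/-- verification of a certificate `V` of membership in level `i` -/
def certB (b : List Bool → Bool) (n : ℕ) (κ : List Bool) (i : ℕ) (V : List Bool) : Bool :=
  ((List.range (min (2 ^ i) (cap n))).all fun t => b (blk n t V) && decide ((blk n t V).length = n)) &&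
  (List.range i).all fun j => (List.range (min (2 ^ (i - j - 1)) (cap n))).all fun t =>
    !(decide (blk n (2 * t * 2 ^ j) V = blk n ((2 * t + 1) * 2 ^ j) V)) &&
    decide (hsh (mat n κ j) (blk n (2 * t * 2 ^ j) V) =
      hsh (mat n κ j) (blk n ((2 * t + 1) * 2 ^ j) V))

/-- `V` shows that the string in its block `0` has code `q` -/
def relB (b : List Bool → Bool) (n : ℕ) (κ q V : List Bool) : Bool :=
  decide (lead q < rounds n (par n κ)) && certB b n κ (lead q) V &&
    decide (hsh (mat n κ (lead q)) (blk n 0 V) = q.drop (lead q + 1))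

/-- nothing is left after the last round -/
def Good (b : List Bool → Bool) (n : ℕ) (κ : List Bool) : Prop :=
  lev (HH n κ) (XX b n) (rounds n (par n κ)) = ∅

theorem two_pow_le_cap {n i : ℕ} (hi : i ≤ n.size + 1) : 2 ^ i ≤ cap n := by
  have h1 : 2 ^ i ≤ 2 ^ (n.size + 1) := Nat.pow_le_pow_right (by norm_num) hi
  have h2 : 2 ^ (n.size + 1) ≤ 4 * n + 4 := by
    rcases Nat.eq_zero_or_pos n.size with h | h
    · rw [h]; omega
    · obtain ⟨k, hk⟩ : ∃ k, n.size = k + 1 := ⟨n.size - 1, by omega⟩
      have h3 : 2 ^ k ≤ n := Nat.lt_size.1 (by omega)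
      rw [hk, pow_succ, pow_succ]
      omega
  exact h1.trans h2

/-- all blocks in a row -/
theorem length_flatten_range {n : ℕ} {g : ℕ → List Bool} (hg : ∀ t, (g t).length = n) (N : ℕ) :
    ((List.range N).map g).flatten.length = N * n := by
  induction N with
  | zero => simp
  | succ N ih =>
    rw [List.range_succ, List.map_append, List.flatten_append, List.length_append, ih]
    simp [hg, Nat.succ_mul]

theorem blk_flatten_range {n : ℕ} {g : ℕ → List Bool} (hg : ∀ t, (g t).length = n) {N t : ℕ}
    (ht : t < N) : blk n t ((List.range N).map g).flatten = g t := by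
  induction N with
  | zero => omega
  | succ N ih =>
    have hl := length_flatten_range hg N
    rw [List.range_succ, List.map_append, List.flatten_append]
    unfold blk at ih ⊢
    have hle : t * n ≤ N * n := Nat.mul_le_mul_right n (by omega)
    rw [List.drop_append_of_le_length (by rw [hl]; exact hle)]
    rcases Nat.lt_succ_iff_lt_or_eq.1 ht with h | rfl
    · rw [List.take_append_of_le_length, ih h]
      rw [List.length_drop, hl, ← Nat.sub_mul]
      exact Nat.le_mul_of_pos_left n (by omega)
    · have : List.drop (t * n) ((List.range t).map g).flatten = [] := by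
        apply List.drop_eq_nil_of_le
        rw [hl]
      rw [this]
      simp [hg]

/-- soundness of certificates -/
theorem certB_sound {b : List Bool → Bool} {n : ℕ} {κ : List Bool} {i : ℕ} {V : List Bool}
    (hi : i ≤ n.size + 1) (h : certB b n κ i V = true) : blk n 0 V ∈ lev (HH n κ) (XX b n) i := by
  have hc := two_pow_le_cap hi
  refine mem_lev_iff.2 ⟨fun t => blk n t V, ⟨?_, ?_⟩, rfl⟩
  · intro t ht
    have h1 := (Bool.and_eq_true_iff.1 h).1
    rw [min_eq_left hc, List.all_eq_true] at h1
    have h2 := h1 t (List.mem_range.2 ht)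
    rw [Bool.and_eq_true_iff, decide_eq_true_iff] at h2
    exact ⟨h2.2, h2.1⟩
  · intro j hj t ht
    have h1 := (Bool.and_eq_true_iff.1 h).2
    rw [List.all_eq_true] at h1
    have h2 := h1 j (List.mem_range.2 hj)
    have hle : 2 ^ (i - j - 1) ≤ cap n :=
      (Nat.pow_le_pow_right (by norm_num) (by omega)).trans hc
    rw [min_eq_left hle, List.all_eq_true] at h2
    have h3 := h2 t (List.mem_range.2 ht)
    rw [Bool.and_eq_true_iff, decide_eq_true_iff] at h3
    refine ⟨?_, h3.2⟩
    have h4 := h3.1
    simpa using h4

/-- completeness of certificates -/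
theorem exists_certB {b : List Bool → Bool} {n : ℕ} {κ : List Bool} {i : ℕ} {s : List Bool}
    (hi : i ≤ n.size + 1) (h : s ∈ lev (HH n κ) (XX b n) i) :
    ∃ V : List Bool, V.length = vLen n ∧ certB b n κ i V = true ∧ blk n 0 V = s := by
  have hc := two_pow_le_cap hi
  obtain ⟨f, hf, rfl⟩ := mem_lev_iff.1 h
  set g : ℕ → List Bool := fun t => if t < 2 ^ i then f t else List.replicate n false with hgdef
  have hg : ∀ t, (g t).length = n := by
    intro t
    by_cases ht : t < 2 ^ i
    · have := (hf.1 t ht).1
      simpa [hgdef, ht] using this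
    · simp [hgdef, ht]
  have hgf : ∀ t < 2 ^ i, g t = f t := fun t ht => by simp [hgdef, ht]
  have hb : ∀ t < 2 ^ i, blk n t ((List.range (cap n)).map g).flatten = f t := fun t ht => by
    rw [blk_flatten_range hg (ht.trans_le hc), hgf t ht]
  refine ⟨((List.range (cap n)).map g).flatten, length_flatten_range hg _, ?_,
    hb 0 (by positivity)⟩
  unfold certB
  rw [Bool.and_eq_true_iff, List.all_eq_true, List.all_eq_true]
  constructor
  · intro t ht
    rw [min_eq_left hc, List.mem_range] at ht
    rw [hb t ht, Bool.and_eq_true_iff, decide_eq_true_iff]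
    exact ⟨(hf.1 t ht).2, (hf.1 t ht).1⟩
  · intro j hj
    rw [List.mem_range] at hj
    rw [List.all_eq_true]
    intro t ht
    have hle : 2 ^ (i - j - 1) ≤ cap n :=
      (Nat.pow_le_pow_right (by norm_num) (by omega)).trans hc
    rw [min_eq_left hle, List.mem_range] at ht
    have hpow : (2:ℕ) ^ i = 2 ^ (i - j - 1) * 2 * 2 ^ j := by
      rw [← pow_succ, ← pow_add]; congr 1; omega
    have hjpos : 0 < 2 ^ j := by positivity
    have e1 : 2 * t * 2 ^ j < 2 ^ i := by
      rw [hpow]; apply Nat.mul_lt_mul_of_pos_right _ hjpos; omega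
    have e2 : (2 * t + 1) * 2 ^ j < 2 ^ i := by
      rw [hpow]; apply Nat.mul_lt_mul_of_pos_right _ hjpos; omega
    have h3 := hf.2 j hj t ht
    rw [hb _ e1, hb _ e2, Bool.and_eq_true_iff, decide_eq_true_iff]
    refine ⟨?_, h3.2⟩
    simpa using h3.1

/-- every family of matrices occurs in a scheme -/
theorem exists_scheme (n m : ℕ) (hm : m ≤ n) (M : ℕ → List (List Bool))
    (hM : ∀ j, (M j).length = m + 2 - j ∧ ∀ r ∈ M j, r.length = n) :
    ∃ κ : List Bool, κ.length = kLen n ∧ par n κ = m ∧ ∀ j < rounds n m, mat n κ j = M j := by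
  set g : ℕ → List Bool := fun u =>
    if h : u % (n + 3) < (M (u / (n + 3))).length then (M (u / (n + 3)))[u % (n + 3)]
    else List.replicate n false with hgdef
  have hg : ∀ t, (g t).length = n := by
    intro t
    by_cases ht : t % (n + 3) < (M (t / (n + 3))).length
    · simp only [hgdef, ht, dif_pos]
      exact (hM _).2 _ (List.getElem_mem _)
    · simp [hgdef, ht]
  set a : List Bool := List.replicate m true ++ false :: List.replicate (n - m) false with ha
  set c : List Bool := ((List.range ((n + 1) * (n + 3))).map g).flatten with hcdef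
  have hla : a.length = n + 1 := by
    simp only [ha, List.length_append, List.length_replicate, List.length_cons]
    omega
  have htake : (a ++ c).take (n + 1) = a := by
    rw [← hla]; exact List.take_left' rfl
  have hdrop : (a ++ c).drop (n + 1) = c := by
    rw [← hla]; exact List.drop_left' rfl
  have hpar : par n (a ++ c) = m := by
    unfold par
    rw [htake, ha, lead_replicate_append]
  refine ⟨a ++ c, ?_, hpar, ?_⟩
  · rw [List.length_append, hla, hcdef, length_flatten_range hg]
    rfl
  · intro j hj
    have hjn : j ≤ n := by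
      have h1 : j < n.size + 1 := lt_of_lt_of_le hj (min_le_left _ _)
      have h2 : n.size ≤ n := Nat.size_le.2 Nat.lt_two_pow_self
      omega
    unfold mat
    rw [hpar, hdrop]
    apply List.ext_getElem
    · simp [(hM j).1]
    · intro r h1 h2
      rw [List.getElem_map, List.getElem_range]
      have hr : r < m + 2 - j := by simpa using h1
      have hlt : j * (n + 3) + r < (n + 1) * (n + 3) := by
        have : (j + 1) * (n + 3) ≤ (n + 1) * (n + 3) := Nat.mul_le_mul_right _ (by omega)
        have h3 : (j + 1) * (n + 3) = j * (n + 3) + (n + 3) := by ring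
        omega
      rw [hcdef, blk_flatten_range hg hlt]
      have hmod : (j * (n + 3) + r) % (n + 3) = r := by
        rw [Nat.mul_add_mod' ]
        exact Nat.mod_eq_of_lt (by omega)
      have hdiv : (j * (n + 3) + r) / (n + 3) = j := by
        rw [Nat.mul_comm, Nat.mul_add_div (by omega), Nat.div_eq_of_lt (by omega)]
        rfl
      simp only [hgdef, hmod, hdiv]
      rw [dif_pos h2]

end Pool.Agent.H83.TK
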