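import Pool.Agent.H83.TK.Hash

/-!
# Nested collisions
-/

set_option autoImplicit false

namespace Pool.Agent.H83.TK

/-- the members of `Z` that collide under `h` with another member of `Z` -/
def coll (h : List Bool → List Bool) (Z : Set (List Bool)) : Set (List Bool) :=
  {s | s ∈ Z ∧ ∃ s' ∈ Z, s' ≠ s ∧ h s' = h s}

/-- the members of `X` that remain after `i` rounds with the hash functions `H 0, H 1, …` -/
def lev (H : ℕ → List Bool → List Bool) (X : Set (List Bool)) : ℕ → Set (List Bool)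
  | 0 => X
  | i + 1 => coll (H i) (lev H X i)

theorem lev_succ_subset (H : ℕ → List Bool → List Bool) (X : Set (List Bool)) (i : ℕ) :
    lev H X (i + 1) ⊆ lev H X i := fun _ h => h.1

theorem lev_subset (H : ℕ → List Bool → List Bool) (X : Set (List Bool)) (i : ℕ) :
    lev H X i ⊆ X := by
  induction i with
  | zero => exact fun _ h => h
  | succ i ih => exact (lev_succ_subset H X i).trans ih

private theorem Levels_coll_congr {h h' : List Bool → List Bool} {Z : Set (List Bool)}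
    (hh : ∀ s ∈ Z, h s = h' s) : coll h Z = coll h' Z := by
  ext s
  constructor
  · rintro ⟨hs, s', hs', hne, he⟩
    exact ⟨hs, s', hs', hne, by rw [← hh s' hs', ← hh s hs]; exact he⟩
  · rintro ⟨hs, s', hs', hne, he⟩
    exact ⟨hs, s', hs', hne, by rw [hh s' hs', hh s hs]; exact he⟩

theorem lev_congr {H H' : ℕ → List Bool → List Bool} {X : Set (List Bool)} {i : ℕ}
    (h : ∀ j < i, ∀ s ∈ X, H j s = H' j s) : lev H X i = lev H' X i := by
  induction i with
  | zero => rfl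
  | succ i ih =>
    have h1 : lev H X i = lev H' X i := ih fun j hj => h j (Nat.lt_succ_of_lt hj)
    change coll (H i) (lev H X i) = coll (H' i) (lev H' X i)
    rw [← h1]
    exact Levels_coll_congr fun s hs => h i (Nat.lt_succ_self i) s (lev_subset H X i hs)

private theorem Levels_finite {n : ℕ} {X : Set (List Bool)} (hX : ∀ s ∈ X, s.length = n) :
    X.Finite :=
  (List.finite_length_eq Bool n).subset fun s hs => hX s hs

private theorem Levels_step (n k : ℕ) (Z : Set (List Bool)) (hZ : ∀ s ∈ Z, s.length = n) :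
    ∃ M : List (List Bool), M.length = k ∧ (∀ r ∈ M, r.length = n) ∧
      2 ^ k * (coll (hsh M) Z).ncard ≤ Z.ncard ^ 2 := by
  classical
  have hf : Z.Finite := Levels_finite hZ
  obtain ⟨M, hM1, hM2, hM3⟩ := exists_matrix n k hf.toFinset fun s hs => hZ s (hf.mem_toFinset.1 hs)
  refine ⟨M, hM1, hM2, ?_⟩
  rw [Set.ncard_eq_toFinset_card Z hf]
  have he : coll (hsh M) Z
      = ((hf.toFinset.filter fun s => ∃ s' ∈ hf.toFinset, s' ≠ s ∧ hsh M s' = hsh M s :
          Finset (List Bool)) : Set (List Bool)) := by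
    ext s
    simp only [coll, Set.mem_ofPred_eq, Finset.coe_filter, Set.Finite.mem_toFinset]
  rw [he, Set.ncard_coe_finset]
  exact hM3

private theorem Levels_arith {m i a b : ℕ} (ha : a * 2 ^ (2 ^ i + i) ≤ 2 ^ (m + 1))
    (hb : 2 ^ (m + 2 - i) * b ≤ a ^ 2) : b * 2 ^ (2 ^ (i + 1) + (i + 1)) ≤ 2 ^ (m + 1) := by
  rcases Nat.eq_zero_or_pos a with h0 | h0
  · subst h0
    have : b = 0 := by
      by_contra hb0
      have h1 : 0 < 2 ^ (m + 2 - i) * b := Nat.mul_pos (Nat.pos_of_ne_zero (by positivity)) (Nat.pos_of_ne_zero hb0)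
      have h2 : (0 : ℕ) ^ 2 = 0 := by norm_num
      omega
    simp [this]
  · have h1 : 2 ^ (2 ^ i + i) ≤ 2 ^ (m + 1) := le_trans (Nat.le_mul_of_pos_left _ h0) ha
    have h2 : 2 ^ i + i ≤ m + 1 := (Nat.pow_le_pow_iff_right (by norm_num)).1 h1
    have h3 : 1 ≤ 2 ^ i := Nat.one_le_two_pow
    have hi : i ≤ m := by omega
    have h4 : (a * 2 ^ (2 ^ i + i)) ^ 2 ≤ (2 ^ (m + 1)) ^ 2 := Nat.pow_le_pow_left ha 2
    have h5 : b * 2 ^ (2 ^ (i + 1) + (i + 1)) * 2 ^ (m + 1)
        = 2 ^ (m + 2 - i) * b * (2 ^ (2 ^ i + i)) ^ 2 := by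
      have e1 : (2 ^ (2 ^ i + i)) ^ 2 = 2 ^ (2 ^ (i + 1) + 2 * i) := by
        rw [← pow_mul]
        congr 1
        rw [pow_succ]
        ring
      rw [e1]
      have e2 : b * 2 ^ (2 ^ (i + 1) + (i + 1)) * 2 ^ (m + 1)
          = b * 2 ^ (2 ^ (i + 1) + (i + 1) + (m + 1)) := by
        rw [mul_assoc, ← pow_add]
      have e3 : 2 ^ (m + 2 - i) * b * 2 ^ (2 ^ (i + 1) + 2 * i)
          = b * 2 ^ ((m + 2 - i) + (2 ^ (i + 1) + 2 * i)) := by
        rw [pow_add]; ring
      rw [e2, e3]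
      congr 2
      omega
    have h6 : b * 2 ^ (2 ^ (i + 1) + (i + 1)) * 2 ^ (m + 1) ≤ 2 ^ (m + 1) * 2 ^ (m + 1) := by
      rw [h5]
      calc 2 ^ (m + 2 - i) * b * (2 ^ (2 ^ i + i)) ^ 2 ≤ a ^ 2 * (2 ^ (2 ^ i + i)) ^ 2 :=
            Nat.mul_le_mul_right _ hb
        _ = (a * 2 ^ (2 ^ i + i)) ^ 2 := by rw [mul_pow]
        _ ≤ (2 ^ (m + 1)) ^ 2 := h4
        _ = 2 ^ (m + 1) * 2 ^ (m + 1) := by rw [sq]
    exact Nat.le_of_mul_le_mul_right h6 (Nat.pos_of_ne_zero (by positivity))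

/-- Existence of good matrices: the `i`-th level has at most `2^(m+1-2^i-i)` members. -/
theorem exists_levels (n m : ℕ) (X : Set (List Bool)) (hX : ∀ s ∈ X, s.length = n)
    (hc : X.ncard ≤ 2 ^ m) (I : ℕ) :
    ∃ M : ℕ → List (List Bool), (∀ j, (M j).length = m + 2 - j ∧ ∀ r ∈ M j, r.length = n) ∧
      ∀ i ≤ I, (lev (fun j => hsh (M j)) X i).ncard * 2 ^ (2 ^ i + i) ≤ 2 ^ (m + 1) := by
  classical
  have hstep : ∀ (k : ℕ) (Z : Set (List Bool)), Z ⊆ X →
      ∃ M : List (List Bool), M.length = k ∧ (∀ r ∈ M, r.length = n) ∧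
        2 ^ k * (coll (hsh M) Z).ncard ≤ Z.ncard ^ 2 :=
    fun k Z hZ => Levels_step n k Z fun s hs => hX s (hZ hs)
  choose! F hF using hstep
  let Z : ℕ → Set (List Bool) := fun j =>
    Nat.rec X (fun j Zj => coll (hsh (F (m + 2 - j) Zj)) Zj) j
  have hZ0 : Z 0 = X := rfl
  have hZs : ∀ j, Z (j + 1) = coll (hsh (F (m + 2 - j) (Z j))) (Z j) := fun _ => rfl
  have hZX : ∀ j, Z j ⊆ X := by
    intro j
    induction j with
    | zero => exact hZ0.subset
    | succ j ih =>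
      rw [hZs]
      exact fun s hs => ih hs.1
  refine ⟨fun j => F (m + 2 - j) (Z j), fun j => ⟨(hF _ _ (hZX j)).1, (hF _ _ (hZX j)).2.1⟩, ?_⟩
  have hlev : ∀ i, lev (fun j => hsh (F (m + 2 - j) (Z j))) X i = Z i := by
    intro i
    induction i with
    | zero => rfl
    | succ i ih =>
      change coll (hsh (F (m + 2 - i) (Z i))) (lev (fun j => hsh (F (m + 2 - j) (Z j))) X i)
        = Z (i + 1)
      rw [ih, hZs]
  intro i _
  rw [hlev]
  clear * - hc hZ0 hZs hZX hF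
  induction i with
  | zero =>
    rw [hZ0]
    have : 2 ^ (2 ^ 0 + 0) = 2 := by norm_num
    rw [this, pow_succ]
    exact Nat.mul_le_mul_right _ hc
  | succ i ih =>
    refine Levels_arith ih ?_
    rw [hZs]
    exact (hF _ _ (hZX i)).2.2

/-- consequence: the level is empty when `2^i + i > m + 1` -/
theorem exists_levels_empty (n m : ℕ) (X : Set (List Bool)) (hX : ∀ s ∈ X, s.length = n)
    (hc : X.ncard ≤ 2 ^ m) (i : ℕ) (hi : m + 1 < 2 ^ i + i) :
    ∃ M : ℕ → List (List Bool), (∀ j, (M j).length = m + 2 - j ∧ ∀ r ∈ M j, r.length = n) ∧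
      lev (fun j => hsh (M j)) X i = ∅ := by
  obtain ⟨M, hM, hl⟩ := exists_levels n m X hX hc i
  refine ⟨M, hM, ?_⟩
  have h1 := hl i le_rfl
  have hf : (lev (fun j => hsh (M j)) X i).Finite :=
    (Levels_finite hX).subset (lev_subset _ X i)
  rw [← Set.ncard_eq_zero hf]
  by_contra h0
  have h2 : 2 ^ (2 ^ i + i) ≤ 2 ^ (m + 1) := le_trans (Nat.le_mul_of_pos_left _ (Nat.pos_of_ne_zero h0)) h1
  have h3 := (Nat.pow_le_pow_iff_right (by norm_num)).1 h2
  omega

end Pool.Agent.H83.TK
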