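import Pool.Agent.H80.Poly.More
import Pool.Agent.H83.TK.Defs

/-!
# A machine with an arbitrary input alphabet that runs a stack program
-/

set_option autoImplicit false

namespace Pool.Agent.H83.TK

open Pool.Agent.H80.Poly Turing

/-- stack alphabets of the machine: the input stack and stacks of bits -/
abbrev MachG (A : Type) (n : ℕ) : Option (Fin n) → Type
  | none => A
  | some _ => Bool

/-- internal states of the machine -/
abbrev MachS (A : Type) : Type := Option A × Option Bool

section

variable {A : Type} {n : ℕ} [NeZero n] {Λ : Type}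

open TM2.Stmt in
/-- compiled code -/
def machCode (A : Type) (n : ℕ) [NeZero n] {Λ : Type} : {p : Prog} → (l : Lbl p) → (Lbl p → Λ) → Λ →
    TM2.Stmt (MachG A n) Λ (MachS A)
  | _, Lbl.skip, _, e => goto (fun _ => e)
  | _, @Lbl.push i b, _, e => push (some (fi n i)) (fun _ => b) (goto (fun _ => e))
  | _, @Lbl.pop i, _, e => pop (some (fi n i)) (fun s _ => s) (goto (fun _ => e))
  | _, @Lbl.seqL _ q l, ι, _ => machCode A n l (fun l => ι (Lbl.seqL l)) (ι (Lbl.seqR (entry q)))
  | _, Lbl.seqR l, ι, e => machCode A n l (fun l => ι (Lbl.seqR l)) e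
  | _, @Lbl.iteH i c p q, ι, _ => peek (some (fi n i)) (fun s x => (s.1, x))
      (branch (fun s => c s.2) (goto (fun _ => ι (Lbl.iteL (entry p))))
        (goto (fun _ => ι (Lbl.iteR (entry q)))))
  | _, Lbl.iteL l, ι, e => machCode A n l (fun l => ι (Lbl.iteL l)) e
  | _, Lbl.iteR l, ι, e => machCode A n l (fun l => ι (Lbl.iteR l)) e
  | _, @Lbl.loopH i c p, ι, e => peek (some (fi n i)) (fun s x => (s.1, x))
      (branch (fun s => c s.2) (goto (fun _ => ι (Lbl.loopB (entry p)))) (goto (fun _ => e)))
  | _, Lbl.loopB l, ι, _ => machCode A n l (fun l => ι (Lbl.loopB l)) (ι Lbl.loopH)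

/-- stacks of the machine -/
def machStk (A : Type) (n : ℕ) (w : List A) (S : Stt) : ∀ k : Option (Fin n), List (MachG A n k)
  | none => w
  | some k => S k.val

theorem machStk_fi (w : List A) (S : Stt) {i : ℕ} (h : i < n) :
    machStk A n w S (some (fi n i)) = S i := by
  simp [machStk, fi, Nat.mod_eq_of_lt h]

theorem machStk_update (w : List A) (S : Stt) {i : ℕ} (h : i < n) (x : List Bool) :
    Function.update (machStk A n w S) (some (fi n i)) x = machStk A n w (Function.update S i x) := by
  funext k
  cases k with
  | none => rw [Function.update_of_ne (by simp)]; rfl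
  | some k =>
    by_cases hk : k = fi n i
    · subst hk
      have : (fi n i).val = i := by simp [fi, Nat.mod_eq_of_lt h]
      rw [Function.update_self]
      show x = (Function.update S i x) (fi n i).val
      rw [this, Function.update_self]
    · have h2 : k.val ≠ i := by
        intro hki
        apply hk
        apply Fin.ext
        simp [fi, Nat.mod_eq_of_lt h, hki]
      rw [Function.update_of_ne (by simpa using hk)]
      show S k.val = (Function.update S i x) k.val
      rw [Function.update_of_ne h2]

/-- `t` steps of the machine lead from `a` to `b` -/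
def MachR (M : Λ → TM2.Stmt (MachG A n) Λ (MachS A)) (t : ℕ)
    (a b : TM2.Cfg (MachG A n) Λ (MachS A)) : Prop :=
  (flip bind (TM2.step M))^[t] (some a) = some b

omit [NeZero n] in
theorem MachR.trans {M : Λ → TM2.Stmt (MachG A n) Λ (MachS A)}
    {s t : ℕ} {a b c : TM2.Cfg (MachG A n) Λ (MachS A)} (h1 : MachR M s a b)
    (h2 : MachR M t b c) : MachR M (s + t) a c := by
  unfold MachR at *
  rw [add_comm, Function.iterate_add_apply, h1, h2]

omit [NeZero n] in
theorem MachR.one {M : Λ → TM2.Stmt (MachG A n) Λ (MachS A)}
    {a b : TM2.Cfg (MachG A n) Λ (MachS A)} (h : TM2.step M a = some b) :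
    MachR M 1 a b := h

omit [NeZero n] in
theorem MachR.cons {M : Λ → TM2.Stmt (MachG A n) Λ (MachS A)}
    {t : ℕ} {a b c : TM2.Cfg (MachG A n) Λ (MachS A)}
    (h1 : TM2.step M a = some b) (h2 : MachR M t b c) : MachR M (t + 1) a c := by
  rw [add_comm]
  exact (MachR.one h1).trans h2

/-- Simulation of a program by its compiled code. -/
theorem machSim {p : Prog} {S S' : Stt} {t : ℕ} (h : Ex p S S' t) (hn : bnd p ≤ n) (w : List A)
    (M : Λ → TM2.Stmt (MachG A n) Λ (MachS A)) (ι : Lbl p → Λ) (e : Λ)
    (hM : ∀ l, M (ι l) = machCode A n l ι e) (v : MachS A) :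
    ∃ v', MachR M t ⟨some (ι (entry p)), v, machStk A n w S⟩ ⟨some e, v', machStk A n w S'⟩ := by
  induction h generalizing e v with
  | skip S =>
    refine ⟨v, MachR.one ?_⟩
    simp [TM2.step, hM, entry, machCode, TM2.stepAux]
  | push i b S =>
    have hi : i < n := hn
    refine ⟨v, MachR.one ?_⟩
    simp [TM2.step, hM, entry, machCode, TM2.stepAux, machStk_fi w S hi, machStk_update w S hi]
  | pop i S =>
    have hi : i < n := hn
    refine ⟨v, MachR.one ?_⟩
    simp [TM2.step, hM, entry, machCode, TM2.stepAux, machStk_fi w S hi, machStk_update w S hi]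
  | seq h1 h2 ih1 ih2 =>
    simp only [bnd, max_le_iff] at hn
    obtain ⟨v1, hv1⟩ := ih1 hn.1 (fun l => ι (Lbl.seqL l)) (ι (Lbl.seqR (entry _)))
      (fun l => by rw [hM]; rfl) v
    obtain ⟨v2, hv2⟩ := ih2 hn.2 (fun l => ι (Lbl.seqR l)) e (fun l => by rw [hM]; rfl) v1
    exact ⟨v2, hv1.trans hv2⟩
  | @iteT i c p q S S' n' hc h1 ih =>
    simp only [bnd, max_le_iff] at hn
    have hi : i < n := hn.1
    obtain ⟨v1, hv1⟩ := ih hn.2.1 (fun l => ι (Lbl.iteL l)) e (fun l => by rw [hM]; rfl)
      (v.1, (S i).head?)
    refine ⟨v1, MachR.cons ?_ hv1⟩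
    simp [TM2.step, hM, machCode, entry, TM2.stepAux, machStk_fi w S hi, hc]
  | @iteF i c p q S S' n' hc h1 ih =>
    simp only [bnd, max_le_iff] at hn
    have hi : i < n := hn.1
    obtain ⟨v1, hv1⟩ := ih hn.2.2 (fun l => ι (Lbl.iteR l)) e (fun l => by rw [hM]; rfl)
      (v.1, (S i).head?)
    refine ⟨v1, MachR.cons ?_ hv1⟩
    simp [TM2.step, hM, machCode, entry, TM2.stepAux, machStk_fi w S hi, hc]
  | @loopF i c p S hc =>
    simp only [bnd, max_le_iff] at hn
    have hi : i < n := hn.1
    refine ⟨(v.1, (S i).head?), MachR.one ?_⟩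
    simp [TM2.step, hM, machCode, entry, TM2.stepAux, machStk_fi w S hi, hc]
  | @loopT i c p S S' S'' m n' hc h1 h2 ih1 ih2 =>
    have hn' := hn
    simp only [bnd, max_le_iff] at hn
    have hi : i < n := hn.1
    obtain ⟨v1, hv1⟩ := ih1 hn.2 (fun l => ι (Lbl.loopB l)) (ι Lbl.loopH)
      (fun l => by rw [hM]; rfl) (v.1, (S i).head?)
    obtain ⟨v2, hv2⟩ := ih2 hn' ι e hM v1
    refine ⟨v2, MachR.cons ?_ (hv1.trans hv2)⟩
    simp [TM2.step, hM, machCode, entry, TM2.stepAux, machStk_fi w S hi, hc]

open TM2.Stmt in
/-- push the bits `x` on stack number 1, the last one on top -/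
def machPush (A : Type) (n : ℕ) [NeZero n] {Λ : Type} : List Bool →
    TM2.Stmt (MachG A n) Λ (MachS A) → TM2.Stmt (MachG A n) Λ (MachS A)
  | [], q => q
  | b :: x, q => push (some (fi n 1)) (fun _ => b) (machPush A n x q)

theorem machPush_step (hn : 1 < n) (w : List A) (v : MachS A)
    (q : TM2.Stmt (MachG A n) Λ (MachS A)) : ∀ (x : List Bool) (S : Stt),
    TM2.stepAux (machPush A n x q) v (machStk A n w S) =
      TM2.stepAux q v (machStk A n w (Function.update S 1 (x.reverse ++ S 1))) := by
  intro x
  induction x with
  | nil => intro S; simp [machPush]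
  | cons b x ih =>
    intro S
    simp only [machPush, TM2.stepAux, machStk_fi w S hn, machStk_update w S hn, ih]
    congr 2
    simp

open TM2.Stmt Classical in
/-- branch over the elements of the alphabet -/
noncomputable def machBr [BEnc A] (rd st : Λ) : List A → TM2.Stmt (MachG A n) Λ (MachS A)
  | [] => goto (fun _ => st)
  | a :: L => branch (fun s => decide (s.1 = some a))
      (machPush A n (pr (enc a) []) (goto (fun _ => rd))) (machBr rd st L)

theorem machBr_none [BEnc A] (rd st : Λ) (b : Option Bool) (S : ∀ k, List (MachG A n k)) :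
    ∀ L : List A, TM2.stepAux (machBr (n := n) rd st L) (none, b) S = ⟨some st, (none, b), S⟩ := by
  intro L
  induction L with
  | nil => rfl
  | cons a L ih => simp [machBr, TM2.stepAux, ih]

theorem machBr_some [BEnc A] (hn : 1 < n) (rd st : Λ) (b : Option Bool) (w : List A) (S : Stt)
    (a : A) : ∀ L : List A, a ∈ L →
    TM2.stepAux (machBr (n := n) rd st L) (some a, b) (machStk A n w S) =
      ⟨some rd, (some a, b),
        machStk A n w (Function.update S 1 ((pr (enc a) []).reverse ++ S 1))⟩ := by
  intro L
  induction L with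
  | nil => intro h; simp at h
  | cons c L ih =>
    intro h
    by_cases hc : a = c
    · subst hc
      simp only [machBr, TM2.stepAux, decide_true, cond_true, machPush_step hn]
    · have h' : a ∈ L := by
        rcases List.mem_cons.1 h with h | h
        · exact absurd h hc
        · exact h
      simp [machBr, TM2.stepAux, hc, ih h']

end

theorem machEnc_cons {A : Type} [BEnc A] (a : A) (l : List A) :
    enc (a :: l) = pr (enc a) [] ++ enc l := by
  simp [pr]

open TM2.Stmt in
/-- program of the machine -/
noncomputable def machM (A : Type) [Fintype A] [BEnc A] (p : Prog) :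
    Option (Option (Lbl p)) → TM2.Stmt (MachG A (bnd p + 2)) (Option (Option (Lbl p))) (MachS A)
  | none => load (fun _ => (none, none)) halt
  | some none => pop none (fun s x => (x, s.2))
      (machBr (some none) (some (some (entry p))) (Finset.univ : Finset A).toList)
  | some (some l) => machCode A (bnd p + 2) l (fun l => some (some l)) none

/-- the machine -/
noncomputable def machTM (A : Type) [Fintype A] [BEnc A] (p : Prog) : FinTM2 where
  K := Option (Fin (bnd p + 2))
  k₀ := none
  k₁ := some 0
  Γ := MachG A (bnd p + 2)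
  Λ := Option (Option (Lbl p))
  main := some none
  ΛFin := letI := lblFinite p; Fintype.ofFinite _
  σ := MachS A
  initialState := (none, none)
  Γk₀Fin := inferInstanceAs (Fintype A)
  m := machM A p

/-- reading the input -/
theorem machRead (A : Type) [Fintype A] [BEnc A] (p : Prog) : ∀ (l : List A) (v : MachS A) (S : Stt),
    ∃ v', MachR (machM A p) (l.length + 1) ⟨some (some none), v, machStk A (bnd p + 2) l S⟩
      ⟨some (some (some (entry p))), v',
        machStk A (bnd p + 2) [] (Function.update S 1 ((enc l).reverse ++ S 1))⟩ := by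
  intro l
  have hn : 1 < bnd p + 2 := by omega
  have hupd : ∀ (w : List A) (S : Stt), Function.update (machStk A (bnd p + 2) w S) none w.tail =
      machStk A (bnd p + 2) w.tail S := by
    intro w S
    funext k
    cases k with
    | none => rw [Function.update_self]; rfl
    | some k => rw [Function.update_of_ne (by simp)]; rfl
  induction l with
  | nil =>
    intro v S
    refine ⟨(none, v.2), MachR.one ?_⟩
    have h1 := hupd [] S
    simp only [List.tail_nil] at h1
    have h0 : machStk A (bnd p + 2) [] S none = [] := rfl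
    simp only [TM2.step, machM, TM2.stepAux, h0, List.head?_nil, List.tail_nil, h1, machBr_none]
    simp
  | cons a l ih =>
    intro v S
    obtain ⟨v', hv'⟩ := ih (some a, v.2) (Function.update S 1 ((pr (enc a) []).reverse ++ S 1))
    refine ⟨v', ?_⟩
    have e : Function.update (Function.update S 1 ((pr (enc a) []).reverse ++ S 1)) 1
        ((enc l).reverse ++ (Function.update S 1 ((pr (enc a) []).reverse ++ S 1)) 1) =
        Function.update S 1 ((enc (a :: l)).reverse ++ S 1) := by
      rw [Function.update_self, Function.update_idem, machEnc_cons, List.reverse_append,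
        List.append_assoc]
    rw [e] at hv'
    refine MachR.cons ?_ hv'
    have h1 := hupd (a :: l) S
    simp only [List.tail_cons] at h1
    have h0 : machStk A (bnd p + 2) (a :: l) S none = a :: l := rfl
    simp only [TM2.step, machM, TM2.stepAux, h0, List.head?_cons, List.tail_cons, h1]
    rw [machBr_some hn _ _ _ _ _ a _ (by simp)]

theorem machStk_ini (A : Type) (n : ℕ) [DecidableEq (Option (Fin (n + 2)))] (x : List Bool)
    (k : Option (Fin (n + 2))) :
    (dite (k = some 0) (fun h => by rw [h]; exact x) (fun _ => []) : List (MachG A (n + 2) k)) =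
      machStk A (n + 2) [] (ini x) k := by
  cases k with
  | none => rw [dif_neg (by simp)]; rfl
  | some k =>
    by_cases hk : k = (0 : Fin (n + 2))
    · subst hk
      rw [dif_pos rfl]
      simp [machStk, ini]
    · have : k.val ≠ 0 := fun h => hk (Fin.ext h)
      rw [dif_neg (by simpa using hk)]
      simp [machStk, ini, this]

theorem machStk_inp (A : Type) (n : ℕ) [DecidableEq (Option (Fin (n + 2)))] (l : List A)
    (k : Option (Fin (n + 2))) :
    (dite (k = none) (fun h => by rw [h]; exact l) (fun _ => []) : List (MachG A (n + 2) k)) =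
      machStk A (n + 2) l (fun _ => []) k := by
  cases k with
  | none => rw [dif_pos rfl]; rfl
  | some k => rw [dif_neg (by simp)]; rfl

theorem machInit (A : Type) [Fintype A] [BEnc A] (q : Prog) (l : List A) :
    initList (machTM A q) (l : List A) =
      ⟨some (some none), (none, none), machStk A (bnd q + 2) l (fun _ => [])⟩ := by
  unfold initList
  congr 1
  funext k
  exact machStk_inp A (bnd q) l k

theorem machHalt (A : Type) [Fintype A] [BEnc A] (q : Prog) (s : List Bool) :
    haltList (machTM A q) (s : List Bool) =
      ⟨none, (none, none), machStk A (bnd q + 2) [] (ini s)⟩ := by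
  unfold haltList
  congr 1
  funext k
  exact machStk_ini A (bnd q) s k

theorem machEnc_le (A : Type) [Fintype A] [BEnc A] : ∃ c : ℕ, ∀ l : List A,
    (enc l).length ≤ c * l.length := by
  refine ⟨(Finset.univ : Finset A).sup fun a => (pr (enc a) []).length, ?_⟩
  intro l
  induction l with
  | nil => simp
  | cons a l ih =>
    rw [machEnc_cons, List.length_append, List.length_cons, Nat.mul_add, mul_one, add_comm]
    exact Nat.add_le_add ih (Finset.le_sup (f := fun a => (pr (enc a) []).length)
      (Finset.mem_univ a))

/-- The machine first writes `enc l` on a stack of bits (a constant number of steps per input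
symbol), then runs `p` (one step per unit of cost), then halts. -/
theorem exists_mach (A : Type) [Fintype A] [BEnc A] (p : Prog) :
    ∃ (tm : FinTM2) (ia : tm.Γ tm.k₀ ≃ A) (oa : tm.Γ tm.k₁ ≃ Bool) (C : ℕ),
      ∀ (l : List A) (s : List Bool) (t : ℕ), Ex p (ini (enc l)) (ini s) t →
        Nonempty (TM2OutputsInTime tm (l.map ia.symm) (some (s.map oa.symm))
          (t + C * l.length + C)) := by
  obtain ⟨c, hc⟩ := machEnc_le A
  refine ⟨machTM A (Prog.seq (mv 1 0) p), Equiv.refl A, Equiv.refl Bool, 4 * c + 4, ?_⟩
  intro l s t h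
  set q := Prog.seq (mv 1 0) p with hq
  obtain ⟨v1, h1⟩ := machRead A q l (none, none) (fun _ => [])
  have e1 : Ex (mv 1 0) (Function.update (fun _ => []) 1 ((enc l).reverse ++ []))
      (ini (enc l)) (4 * (enc l).length + 1) := by
    have h2 := mv_spec (i := 1) (j := 0) (by norm_num) ((enc l).reverse)
      (Function.update (fun _ => []) 1 ((enc l).reverse ++ [])) (by simp)
    rw [List.length_reverse, List.reverse_reverse] at h2
    convert h2 using 1
    funext i
    by_cases hi : i = 0
    · subst hi; simp [ini]
    · by_cases hi1 : i = 1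
      · subst hi1; simp [ini]
      · simp [ini, hi]
  obtain ⟨v2, h2⟩ := machSim (Ex.seq e1 h) (show bnd q ≤ bnd q + 2 by omega) ([] : List A)
    (machM A q) (fun l => some (some l)) none (fun l => rfl) v1
  have h3 : MachR (machM A q) 1 ⟨some none, v2, machStk A (bnd q + 2) [] (ini s)⟩
      ⟨none, (none, none), machStk A (bnd q + 2) [] (ini s)⟩ := by
    refine MachR.one ?_
    simp [TM2.step, machM, TM2.stepAux]
  have h4 := (h1.trans h2).trans h3
  refine ⟨{ steps := l.length + 1 + (4 * (enc l).length + 1 + t) + 1, evals_in_steps := ?_,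
            steps_le_m := ?_ }⟩
  · have g1 : initList (machTM A q) (l.map (Equiv.refl A).symm) =
        ⟨some (some none), (none, none), machStk A (bnd q + 2) l (fun _ => [])⟩ :=
      (congrArg (initList (machTM A q)) (List.map_id l)).trans (machInit A q l)
    have g2 : haltList (machTM A q) (s.map (Equiv.refl Bool).symm) =
        ⟨none, (none, none), machStk A (bnd q + 2) [] (ini s)⟩ :=
      (congrArg (haltList (machTM A q)) (List.map_id s)).trans (machHalt A q s)
    refine (congrArg (fun z => (flip bind (machTM A q).step)^[l.length + 1 +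
      (4 * (enc l).length + 1 + t) + 1] (some z)) g1).trans ?_
    refine Eq.trans ?_ (congrArg some g2.symm)
    exact h4
  · have := hc l
    nlinarith
end Pool.Agent.H83.TK
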