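import Pool.Agent.H83.TK.Cnt
import Pool.Agent.H83.TK.Pt
import Pool.Agent.H83.TK.Pk

/-!
# Q1 implies that the tally languages in NP are in RP
-/

set_option autoImplicit false

namespace Pool.Agent.H83.TK

open Pool.Agent.H80.Poly Pool.Agent.H72.NP Turing Computability

/-- length of the members with `k` leading ones -/
private def Rp_len (p : Polynomial ℕ) (k : ℕ) : ℕ := k + 2 + 2 * p.eval k

private theorem Rp_len_strictMono (p : Polynomial ℕ) : StrictMono (Rp_len p) := by
  intro a b h
  have := eval_mono p h.le
  unfold Rp_len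
  omega

/-- the witness contained in `s` -/
private def Rp_wit (s : List Bool) : List Bool :=
  ((s.drop (lead s + 1)).drop (lead (s.drop (lead s + 1)) + 1)).take (lead (s.drop (lead s + 1)))

/-- membership test -/
private def Rp_bA (p : Polynomial ℕ) (b : List Bool × List Bool → Bool) (s : List Bool) : Bool :=
  decide ((s.drop (lead s + 1)).length = 2 * p.eval (lead s) + 1) &&
    (decide ((Rp_wit s).length ≤ p.eval (lead s)) && b (List.replicate (lead s) true, Rp_wit s))

private theorem Rp_poly_wit : PolyTime Rp_wit := by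
  have hs : PolyTime (fun s : List Bool => s) := PolyTime.id
  have h1 : PolyTime (fun s : List Bool => s.drop (lead s + 1)) :=
    PolyTime.drop hs (PolyTime.succ (poly_lead' hs))
  exact PolyTime.take (PolyTime.drop h1 (PolyTime.succ (poly_lead' h1))) (poly_lead' h1)

private theorem Rp_poly_bA (p : Polynomial ℕ) {b : List Bool × List Bool → Bool}
    (hb : PolyTime b) : PolyTime (Rp_bA p b) := by
  have hs : PolyTime (fun s : List Bool => s) := PolyTime.id
  have hl : PolyTime (fun s : List Bool => lead s) := poly_lead' hs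
  have h1 : PolyTime (fun s : List Bool => s.drop (lead s + 1)) :=
    PolyTime.drop hs (PolyTime.succ hl)
  have he : PolyTime (fun s : List Bool => p.eval (lead s)) := PolyTime.natEval p hl
  have h2 : PolyTime (fun s : List Bool =>
      decide ((s.drop (lead s + 1)).length = 2 * p.eval (lead s) + 1)) :=
    PolyTime.eq (PolyTime.length h1) (PolyTime.succ (PolyTime.mul (PolyTime.const 2) he))
  have h3 : PolyTime (fun s : List Bool => decide ((Rp_wit s).length ≤ p.eval (lead s))) :=
    PolyTime.le (PolyTime.length Rp_poly_wit) he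
  have h4 : PolyTime (fun s : List Bool => List.replicate (lead s) true) :=
    PolyTime.replicate hl ⟨fun n => n, PB.id, fun a => (lead_le_length a).trans (length_le_size a)⟩
      (PolyTime.const true)
  exact PolyTime.and h2 (PolyTime.and h3 (hb.comp (h4.pair Rp_poly_wit)))

private theorem Rp_bA_sound {p : Polynomial ℕ} {b : List Bool × List Bool → Bool} {s : List Bool}
    (h : Rp_bA p b s = true) : s.length = Rp_len p (lead s) ∧
      ∃ w : List Bool, w.length ≤ p.eval (lead s) ∧ b (List.replicate (lead s) true, w) = true := by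
  unfold Rp_bA at h
  simp only [Bool.and_eq_true, decide_eq_true_eq] at h
  obtain ⟨h1, h2, h3⟩ := h
  refine ⟨?_, Rp_wit s, h2, h3⟩
  rw [List.length_drop] at h1
  unfold Rp_len
  omega

private theorem Rp_bA_complete {p : Polynomial ℕ} {b : List Bool × List Bool → Bool} {k : ℕ}
    {w : List Bool} (hw : w.length ≤ p.eval k) (hb : b (List.replicate k true, w) = true) :
    ∃ s : List Bool, s.length = Rp_len p k ∧ Rp_bA p b s = true := by
  have h1 : ∀ (k : ℕ) (y : List Bool),
      (List.replicate k true ++ false :: y).drop (k + 1) = y := by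
    intro k y
    have h0 : k + 1 = (List.replicate k true ++ [false]).length := by simp
    have h00 : List.replicate k true ++ false :: y = (List.replicate k true ++ [false]) ++ y := by
      simp
    rw [h00, h0, List.drop_left]
  set y : List Bool := List.replicate w.length true ++
    false :: (w ++ List.replicate (2 * (p.eval k - w.length)) false) with hy
  set s : List Bool := List.replicate k true ++ false :: y with hs
  have hls : lead s = k := lead_replicate_append k y
  have hds : s.drop (lead s + 1) = y := by rw [hls, hs, h1]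
  have hly : lead y = w.length := lead_replicate_append _ _
  have hylen : y.length = 2 * p.eval k + 1 := by
    rw [hy]
    simp only [List.length_append, List.length_replicate, List.length_cons]
    omega
  have hwit : Rp_wit s = w := by
    unfold Rp_wit
    rw [hds, hly, hy, h1, List.take_left]
  refine ⟨s, ?_, ?_⟩
  · rw [hs]
    simp only [List.length_append, List.length_replicate, List.length_cons]
    rw [hylen]
    unfold Rp_len
    omega
  · unfold Rp_bA
    rw [hwit, hds, hls]
    simp only [Bool.and_eq_true, decide_eq_true_eq]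
    exact ⟨hylen, hw, hb⟩

/-- the test of one string -/
private def Rp_test (F : (List Bool × List Bool) × UNat → List Bool) (bA : List Bool → Bool)
    (z : (List Bool × ℕ) × UNat) : Bool :=
  decide ((F ((z.1.1, encodeNat z.1.2), z.2)).length = z.1.2) &&
    bA (F ((z.1.1, encodeNat z.1.2), z.2))

private theorem Rp_poly_test {F : (List Bool × List Bool) × UNat → List Bool}
    {bA : List Bool → Bool} (hF : PolyTime F) (hA : PolyTime bA) : PolyTime (Rp_test F bA) := by
  have hz : PolyTime (fun z : (List Bool × ℕ) × UNat => z) := PolyTime.id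
  have h1 : PolyTime (fun z : (List Bool × ℕ) × UNat => F ((z.1.1, encodeNat z.1.2), z.2)) :=
    hF.comp (PolyTime.pair (PolyTime.pair hz.fst.fst (PolyTime.bits hz.fst.snd)) hz.snd)
  exact PolyTime.and (PolyTime.eq (PolyTime.length h1) hz.fst.snd) (hA.comp h1)

/-- the verifier -/
private def Rp_V (F : (List Bool × List Bool) × UNat → List Bool) (bA : List Bool → Bool)
    (lp T : Polynomial ℕ) (c : ℕ) (z : List Bool × List Bool) : Bool :=
  z.1.all (fun b => b) && (List.range (2 ^ (c + 1))).any (fun i =>
    (List.range (z.2.length + 1)).any (fun j =>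
      Rp_test F bA (((blkB (lp.eval z.1.length + c) i z.2).take j, lp.eval z.1.length),
        UNat.ofNat (T.eval z.1.length))))

private theorem Rp_poly_V {F : (List Bool × List Bool) × UNat → List Bool} {bA : List Bool → Bool}
    (hF : PolyTime F) (hA : PolyTime bA) (lp T : Polynomial ℕ) (c : ℕ) :
    PolyTime (Rp_V F bA lp T c) := by
  have hz : PolyTime (fun z : List Bool × List Bool => z) := PolyTime.id
  have hw : PolyTime (fun w : ((List Bool × List Bool) × ℕ) × ℕ => w) := PolyTime.id
  have hlen : PolyTime (fun w : ((List Bool × List Bool) × ℕ) × ℕ => lp.eval w.1.1.1.length) :=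
    PolyTime.natEval lp (PolyTime.length hw.fst.fst.fst)
  have hT : PolyTime (fun w : ((List Bool × List Bool) × ℕ) × ℕ =>
      UNat.ofNat (T.eval w.1.1.1.length)) :=
    PolyTime.unatEval T (PolyTime.lengthU hw.fst.fst.fst)
  have hB : PolyTime (fun w : ((List Bool × List Bool) × ℕ) × ℕ =>
      lp.eval w.1.1.1.length + c) := PolyTime.add hlen (PolyTime.const c)
  have hblk : PolyTime (fun w : ((List Bool × List Bool) × ℕ) × ℕ =>
      (blkB (lp.eval w.1.1.1.length + c) w.1.2 w.1.1.2).take w.2) := by
    unfold blkB
    exact PolyTime.take (PolyTime.take (PolyTime.drop hw.fst.fst.snd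
      (PolyTime.mul hw.fst.snd hB)) hB) hw.snd
  have hin : PolyTime (fun w : ((List Bool × List Bool) × ℕ) × ℕ =>
      Rp_test F bA (((blkB (lp.eval w.1.1.1.length + c) w.1.2 w.1.1.2).take w.2,
        lp.eval w.1.1.1.length), UNat.ofNat (T.eval w.1.1.1.length))) :=
    (Rp_poly_test hF hA).comp ((hblk.pair hlen).pair hT)
  have hv : PolyTime (fun v : (List Bool × List Bool) × ℕ => v) := PolyTime.id
  have hr : PolyTime (fun v : (List Bool × List Bool) × ℕ => List.range (v.1.2.length + 1)) := by
    refine PolyTime.range (PolyTime.succ (PolyTime.length hv.fst.snd))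
      ⟨fun n => n + 1, PB.id.add (PB.const 1), fun a => ?_⟩
    change a.1.2.length + 1 ≤ size a + 1
    have h1 := length_le_size a.1.2
    have h2 := size_prod a
    have h3 := size_prod a.1
    omega
  have hmid : PolyTime (fun v : (List Bool × List Bool) × ℕ =>
      (List.range (v.1.2.length + 1)).any (fun j =>
        Rp_test F bA (((blkB (lp.eval v.1.1.length + c) v.2 v.1.2).take j,
          lp.eval v.1.1.length), UNat.ofNat (T.eval v.1.1.length)))) :=
    PolyTime.any hr hin
  have hout : PolyTime (fun z : List Bool × List Bool =>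
      (List.range (2 ^ (c + 1))).any (fun i =>
        (List.range (z.2.length + 1)).any (fun j =>
          Rp_test F bA (((blkB (lp.eval z.1.length + c) i z.2).take j, lp.eval z.1.length),
            UNat.ofNat (T.eval z.1.length))))) :=
    PolyTime.any (PolyTime.const (List.range (2 ^ (c + 1)))) hmid
  have hall : PolyTime (fun z : List Bool × List Bool => z.1.all (fun b => b)) :=
    PolyTime.all (g := fun w : (List Bool × List Bool) × Bool => w.2) hz.fst PolyTime.snd'
  exact PolyTime.and hall hout

private theorem Rp_two_pow_le {m N c : ℕ} (hN : 0 < N) (h : (m : ℝ) ≤ Real.logb 2 N + c) :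
    2 ^ m ≤ N * 2 ^ c := by
  have h1 : (2 : ℝ) ^ (m : ℝ) ≤ 2 ^ (Real.logb 2 N + c) :=
    Real.rpow_le_rpow_of_exponent_le (by norm_num) h
  rw [Real.rpow_natCast, Real.rpow_add (by norm_num), Real.rpow_logb (by norm_num) (by norm_num)
    (by exact_mod_cast hN), Real.rpow_natCast] at h1
  exact_mod_cast h1

theorem rp_of_q1 {U : BM} (h : Q1 U) (L : List Bool → Prop)
    (hL : InNP (id : List Bool → List Bool) L) (hT : Tally L) : InRP L := by
  classical
  obtain ⟨b, p, hb, hLb⟩ := inNP_iff.mp hL
  obtain ⟨F, C, hF, hFU⟩ := exists_simBM U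
  have hA : InP (id : List Bool → List Bool) {s | Rp_bA p b s = true} :=
    inP_iff.mpr ⟨Rp_bA p b, Rp_poly_bA p hb, fun x => Iff.rfl⟩
  obtain ⟨c, P, hP⟩ := h _ hA
  set lp : Polynomial ℕ := Polynomial.X + 2 + 2 * p with hlp
  have hlpe : ∀ k, lp.eval k = Rp_len p k := by
    intro k
    rw [hlp]
    simp [Rp_len]
  set T : Polynomial ℕ := Polynomial.C C * P.comp lp + Polynomial.C C with hTdef
  have hTe : ∀ k, T.eval k = C * P.eval (Rp_len p k) + C := by
    intro k
    rw [hTdef]
    simp [Polynomial.eval_comp, hlpe]
  have hLk : ∀ k, L (List.replicate k true) ↔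
      ∃ w : List Bool, w.length ≤ p.eval k ∧ b (List.replicate k true, w) = true := by
    intro k
    rw [hLb]
    simp
  refine ⟨Rp_V F (Rp_bA p b) lp T c, Polynomial.C (2 ^ (c + 1)) * (lp + Polynomial.C c),
    polyTimeFun_pair_bool_iff.mpr (Rp_poly_V hF (Rp_poly_bA p hb) lp T c), fun x => ⟨?_, ?_⟩⟩
  · intro hx
    set k := x.length with hk
    have hxk : x = List.replicate k true := by
      rw [List.eq_replicate_iff]
      exact ⟨rfl, hT x hx⟩
    have hlen : (Polynomial.C (2 ^ (c + 1)) * (lp + Polynomial.C c)).eval k =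
        2 ^ (c + 1) * (Rp_len p k + c) := by
      simp [hlpe]
    rw [hlen]
    set n := Rp_len p k with hn
    -- the members of length `n`
    set A : Set (List Bool) := {s | Rp_bA p b s = true} with hAdef
    have hfin : (slice A n).Finite := by
      refine (finite_len n A).subset ?_
      rintro s ⟨h1, h2⟩
      exact ⟨h2, h1⟩
    have hcard : (slice A n).ncard ≤ 2 ^ n := by
      rw [← cnt_univ n]
      apply Set.ncard_le_ncard _ (finite_len n Set.univ)
      rintro s ⟨h1, h2⟩
      exact ⟨h2, Set.mem_univ s⟩
    have hne : (slice A n).Nonempty := by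
      rw [hxk, hLk] at hx
      obtain ⟨w, hw, hbw⟩ := hx
      obtain ⟨s, hs1, hs2⟩ := Rp_bA_complete hw hbw
      exact ⟨s, hs2, hs1⟩
    have hNpos : 0 < (slice A n).ncard := (Set.ncard_pos hfin).mpr hne
    have hex : ∀ s : List Bool, ∃ q : List Bool, s ∈ slice A n →
        2 ^ q.length ≤ (slice A n).ncard * 2 ^ c ∧
          F ((q, encodeNat n), UNat.ofNat (T.eval k)) = s := by
      intro s
      by_cases hs : s ∈ slice A n
      · obtain ⟨q, hq1, hq2⟩ := hP n s hs
        refine ⟨q, fun _ => ⟨Rp_two_pow_le hNpos hq1, ?_⟩⟩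
        refine hFU q (encodeNat n) s _ _ hq2 ?_
        rw [hs.2, hTe]
      · exact ⟨[], fun h' => absurd h' hs⟩
    choose q hq using hex
    set G : Set (List Bool) := {q | Rp_test F (Rp_bA p b) ((q, n), UNat.ofNat (T.eval k)) = true}
      with hG
    set S : Finset (List Bool) := hfin.toFinset.image q with hS
    have hScard : S.card = (slice A n).ncard := by
      rw [hS, Finset.card_image_of_injOn, ← Set.ncard_eq_toFinset_card _ hfin]
      intro s hs s' hs' hqq
      rw [Finset.mem_coe, Set.Finite.mem_toFinset] at hs hs'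
      rw [← (hq s hs).2, ← (hq s' hs').2]
      rw [hqq]
    set m := Nat.log 2 ((slice A n).ncard * 2 ^ c) with hm
    have hSG : ∀ r ∈ S, r ∈ G ∧ r.length ≤ m := by
      intro r hr
      rw [hS, Finset.mem_image] at hr
      obtain ⟨s, hs, rfl⟩ := hr
      rw [Set.Finite.mem_toFinset] at hs
      obtain ⟨h1, h2⟩ := hq s hs
      refine ⟨?_, Nat.le_log_of_pow_le (by norm_num) h1⟩
      rw [hG, Set.mem_ofPred_eq]
      unfold Rp_test
      simp only [h2, Bool.and_eq_true, decide_eq_true_eq]
      exact ⟨hs.2, hs.1⟩
    have hmB : m ≤ n + c := by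
      have h1 : (slice A n).ncard * 2 ^ c ≤ 2 ^ (n + c) := by
        rw [pow_add]
        exact Nat.mul_le_mul_right _ hcard
      calc m ≤ Nat.log 2 (2 ^ (n + c)) := Nat.log_mono_right h1
        _ = n + c := Nat.log_pow (by norm_num) _
    have hm2 : 2 ^ m ≤ S.card * 2 ^ c := by
      rw [hScard]
      exact Nat.pow_log_le_self 2 (by positivity)
    have h1 := exists_prefix hmB hSG hm2
    have h2 := cnt_amplify h1
    refine h2.trans (Nat.mul_le_mul_left _ ?_)
    refine cnt_mono (Q := {r | Rp_V F (Rp_bA p b) lp T c (x, r) = true}) ?_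
    rintro r ⟨i, hi, j, hj, hjG⟩ hr
    rw [Set.mem_ofPred_eq]
    unfold Rp_V
    rw [Bool.and_eq_true, List.any_eq_true]
    refine ⟨?_, i, List.mem_range.mpr hi, ?_⟩
    · rw [List.all_eq_true]
      intro y hy
      exact hT x hx y hy
    · rw [List.any_eq_true]
      refine ⟨j, List.mem_range.mpr ?_, ?_⟩
      · have : (blkB (n + c) i r).length ≤ r.length := by
          unfold blkB
          rw [List.length_take, List.length_drop]
          omega
        simp only
        omega
      · simp only [hlpe]
        exact hjG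
  · intro hx r hr
    by_contra hV
    rw [Bool.not_eq_false] at hV
    apply hx
    unfold Rp_V at hV
    rw [Bool.and_eq_true, List.any_eq_true] at hV
    obtain ⟨h1, i, _, h2⟩ := hV
    rw [List.any_eq_true] at h2
    obtain ⟨j, _, h3⟩ := h2
    have hxk : x = List.replicate x.length true := by
      rw [List.eq_replicate_iff]
      exact ⟨rfl, fun y hy => by simpa using List.all_eq_true.mp h1 y hy⟩
    unfold Rp_test at h3
    simp only [Bool.and_eq_true, decide_eq_true_eq] at h3
    obtain ⟨h4, h5⟩ := h3
    obtain ⟨h6, h7⟩ := Rp_bA_sound h5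
    have h8 := (Rp_len_strictMono p).injective ((h6.symm.trans h4).trans (hlpe _))
    rw [hxk, hLk]
    obtain ⟨w, hw1, hw2⟩ := h7
    refine ⟨w, ?_, ?_⟩
    · rw [← h8]
      exact hw1
    · rw [← h8]
      exact hw2

end Pool.Agent.H83.TK
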