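import Pool.Agent.H83.TK.Dec
import Pool.Agent.H83.TK.Pt

/-!
# Q1 for sparse sets is equivalent to P-printability
-/

set_option autoImplicit false

namespace Pool.Agent.H83.TK

open Pool.Agent.H80.Poly Pool.Agent.H72.NP Turing Computability

/-! ### codes of lists of strings -/

private theorem spr_enc_listStr (l : List Str) :
    (enc l : List Bool) = listCode l := by
  induction l with
  | nil => rfl
  | cons s l ih =>
    show pr (enc s) (enc l) = listCode (s :: l)
    rw [ih]
    show esc s ++ false :: listCode l = listCode (s :: l)
    simp [listCode, esc, List.flatMap_cons]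

private theorem spr_listCode_of {D : List Bool → List (List Bool)} (hD : PolyTime D) :
    PolyTimeFun (id : List Bool → List Bool) listCode D := by
  have h1 : PolyTime (fun x => (D x).map listToStr) :=
    PolyTime.map (g := fun w : List Bool × List Bool => listToStr w.2) hD
      (PolyTime.listToStr'.comp PolyTime.snd')
  obtain ⟨M⟩ := polyTimeFun_of (A := Bool) (e := (id : List Bool → List Bool))
    (f := fun x => (D x).map listToStr) h1 (fun _ => rfl)
  refine ⟨{ toTM2ComputableAux := M.toTM2ComputableAux, time := M.time, outputsFun := ?_ }⟩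
  intro a
  have h2 := M.outputsFun a
  have h3 : enc ((D a).map listToStr) = listCode (D a) := by
    rw [spr_enc_listStr]
    congr 1
    exact List.map_id (D a)
  rw [h3] at h2
  exact h2

private def sprStr (l : List (List Bool)) : List Str := l

private theorem spr_of_listCode {f : List Bool → List (List Bool)}
    (h : PolyTimeFun (id : List Bool → List Bool) listCode f) : PolyTime f := by
  obtain ⟨M⟩ := h
  have h1 : PolyTimeFun (id : List Bool → List Bool) (id : List Bool → List Bool)
      (fun x => listCode (f x)) :=
    ⟨{ toTM2ComputableAux := M.toTM2ComputableAux, time := M.time, outputsFun := M.outputsFun }⟩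
  obtain ⟨g, hg, hgf⟩ := exists_poly_of_fun h1
  have h2 : PolyTime (fun x : List Bool => sprStr (f x)) := by
    refine (PolyTime.listToStr'.comp hg).transfer (fun a => ?_)
    rw [spr_enc_listStr]
    show listCode (f a) = g a
    exact (hgf a).symm
  have h3 : PolyTime (fun x : List Bool => (sprStr (f x)).map strToList) :=
    PolyTime.map (g := fun w : List Bool × Str => strToList w.2) h2
      (PolyTime.strToList'.comp PolyTime.snd')
  refine h3.congr (fun a => ?_)
  exact List.map_id (f a)

/-! ### from short programs to printability -/

private theorem spr_dropLast {α : Type} [BEnc α] {β : Type} [BEnc β] {l : α → List β}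
    (hl : PolyTime l) : PolyTime (fun a => (l a).dropLast) :=
  (PolyTime.take hl (PolyTime.pred (PolyTime.length hl))).congr
    (fun a => by rw [List.dropLast_eq_take])

private theorem spr_encodeNat_val (q : List Bool) :
    encodeNat (Pool.Agent.H80.Poly.val (q ++ [true])) = q ++ [true] := by
  refine canon_unique _ _ (canon_encodeNat _) ?_ (val_encodeNat _)
  unfold Canon
  simp

theorem printable_of_q1For {U : BM} {A : Set (List Bool)} (hA : InP id A) (hs : Sparse A)
    (h : Q1For U A) : PPrintable A := by
  obtain ⟨b, hb, hbA⟩ := inP_iff.1 hA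
  obtain ⟨P, hP⟩ := hs
  obtain ⟨c, p, hcp⟩ := h
  obtain ⟨F, C, hF, hFs⟩ := exists_simBM U
  set Np : Polynomial ℕ := Polynomial.C (2 ^ (c + 1)) * P with hNp
  set Tp : Polynomial ℕ := Polynomial.C C * p + Polynomial.C C with hTp
  set D : List Bool → List (List Bool) := fun x =>
    ((List.range (Np.eval x.length)).map
      (fun v => F (((encodeNat v).dropLast, encodeNat x.length),
        UNat.ofNat (Tp.eval x.length)))).filter
      (fun s => b s && decide (s.length = x.length)) with hDdef
  have hD : PolyTime D := by
    have hid : PolyTime (fun x : List Bool => x) := PolyTime.id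
    have hw : PolyTime (fun w : List Bool × ℕ => w) := PolyTime.id
    have hw' : PolyTime (fun w : List Bool × List Bool => w) := PolyTime.id
    have h1 : PolyTime (fun x : List Bool => List.range (Np.eval x.length)) :=
      PolyTime.rangeU (PolyTime.unatEval Np (PolyTime.lengthU hid))
    have h2 : PolyTime (fun w : List Bool × ℕ => F (((encodeNat w.2).dropLast,
        encodeNat w.1.length), UNat.ofNat (Tp.eval w.1.length))) := by
      refine hF.comp (PolyTime.pair (PolyTime.pair ?_ ?_) ?_)
      · exact spr_dropLast (PolyTime.bits hw.snd)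
      · exact PolyTime.bits (PolyTime.length hw.fst)
      · exact PolyTime.unatEval Tp (PolyTime.lengthU hw.fst)
    have h3 : PolyTime (fun w : List Bool × List Bool =>
        b w.2 && decide (w.2.length = w.1.length)) :=
      PolyTime.and (hb.comp hw'.snd) (PolyTime.eq (PolyTime.length hw'.snd)
        (PolyTime.length hw'.fst))
    exact PolyTime.filter (g := fun w : List Bool × List Bool =>
        b w.2 && decide (w.2.length = w.1.length)) (PolyTime.map h1 h2) h3
  refine ⟨D, spr_listCode_of hD, fun n s => ?_⟩
  rw [hDdef]
  simp only [List.length_replicate, List.mem_filter, List.mem_map, List.mem_range,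
    Bool.and_eq_true, decide_eq_true_eq]
  constructor
  · rintro ⟨-, h1, h2⟩
    exact ⟨(hbA s).2 h1, h2⟩
  · rintro hsA
    obtain ⟨h1, h2⟩ := hsA
    refine ⟨?_, (hbA s).1 h1, h2⟩
    obtain ⟨q, hq, hout⟩ := hcp n s ⟨h1, h2⟩
    refine ⟨Pool.Agent.H80.Poly.val (q ++ [true]), ?_, ?_⟩
    · -- the value is small
      have h3 := val_lt (q ++ [true])
      have hfin : (slice A n).Finite := by
        refine Set.Finite.subset (List.finite_length_eq Bool n) ?_
        rintro x ⟨-, hx⟩
        exact hx
      have hpos : 0 < (slice A n).ncard := (Set.ncard_pos hfin).2 ⟨s, h1, h2⟩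
      have h4 : (2 : ℝ) ^ (q.length : ℝ) ≤ (slice A n).ncard * 2 ^ c := by
        have h5 : (2 : ℝ) ^ (q.length : ℝ) ≤
            (2 : ℝ) ^ (Real.logb 2 ((slice A n).ncard : ℝ) + c) :=
          Real.rpow_le_rpow_of_exponent_le (by norm_num) hq
        rw [Real.rpow_add (by norm_num : (0 : ℝ) < 2),
          Real.rpow_logb (by norm_num) (by norm_num) (by exact_mod_cast hpos),
          Real.rpow_natCast 2 c] at h5
        exact h5
      rw [Real.rpow_natCast] at h4
      have h5 : 2 ^ q.length ≤ (slice A n).ncard * 2 ^ c := by exact_mod_cast h4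
      have h6 := hP n
      rw [List.length_append, List.length_singleton, pow_succ] at h3
      calc Pool.Agent.H80.Poly.val (q ++ [true]) < 2 ^ q.length * 2 := h3
        _ ≤ (slice A n).ncard * 2 ^ c * 2 := Nat.mul_le_mul_right _ h5
        _ ≤ P.eval n * 2 ^ c * 2 := Nat.mul_le_mul_right _ (Nat.mul_le_mul_right _ h6)
        _ = Np.eval n := by
          rw [hNp, Polynomial.eval_mul, Polynomial.eval_C, pow_succ]; ring
    · rw [spr_encodeNat_val, List.dropLast_concat]
      refine hFs q (encodeNat n) s (p.eval s.length) _ hout ?_
      rw [hTp, h2]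
      simp

/-! ### from printability to short programs -/

private def sprNub (l : List (List Bool)) : List (List Bool) :=
  l.foldl (fun acc x => if x ∈ acc then acc else acc ++ [x]) []

private theorem spr_nub_aux : ∀ (l acc : List (List Bool)), acc.Nodup →
    (l.foldl (fun acc x => if x ∈ acc then acc else acc ++ [x]) acc).Nodup ∧
    (∀ x, x ∈ l.foldl (fun acc x => if x ∈ acc then acc else acc ++ [x]) acc ↔
      x ∈ acc ∨ x ∈ l) ∧
    (l.foldl (fun acc x => if x ∈ acc then acc else acc ++ [x]) acc).length ≤
      acc.length + l.length := by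
  intro l
  induction l with
  | nil => intro acc h; simpa using h
  | cons y l ih =>
    intro acc h
    rw [List.foldl_cons]
    by_cases hy : y ∈ acc
    · rw [if_pos hy]
      obtain ⟨h1, h2, h3⟩ := ih acc h
      refine ⟨h1, fun x => ?_, ?_⟩
      · rw [h2, List.mem_cons]
        constructor
        · rintro (h' | h')
          · exact Or.inl h'
          · exact Or.inr (Or.inr h')
        · rintro (h' | h' | h')
          · exact Or.inl h'
          · exact Or.inl (h' ▸ hy)
          · exact Or.inr h'
      · rw [List.length_cons]; omega
    · rw [if_neg hy]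
      have hn : (acc ++ [y]).Nodup := by
        rw [List.nodup_append]
        refine ⟨h, List.nodup_singleton y, ?_⟩
        intro a ha b hb hab
        rw [List.mem_singleton] at hb
        exact hy (hb ▸ hab ▸ ha)
      obtain ⟨h1, h2, h3⟩ := ih (acc ++ [y]) hn
      refine ⟨h1, fun x => ?_, ?_⟩
      · rw [h2, List.mem_cons, List.mem_append, List.mem_singleton]
        tauto
      · rw [List.length_cons]
        rw [List.length_append, List.length_singleton] at h3
        omega

private theorem spr_nub_poly {α : Type} [BEnc α] {l : α → List (List Bool)} (hl : PolyTime l) :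
    PolyTime (fun a => sprNub (l a)) := by
  unfold sprNub
  have hw : PolyTime (fun w : α × List (List Bool) × List Bool => w) := PolyTime.id
  have hh : PolyTime (fun w : α × List (List Bool) × List Bool =>
      if w.2.2 ∈ w.2.1 then w.2.1 else w.2.1 ++ [w.2.2]) :=
    PolyTime.ite ((PolyTime.mem hw.snd.snd hw.snd.fst).congr
      (fun _ => decide_eq_decide.2 Iff.rfl)) hw.snd.fst
      (PolyTime.append hw.snd.fst (PolyTime.cons hw.snd.snd (PolyTime.const [])))
  obtain ⟨b, hb, hbs⟩ := hl.size_le
  refine PolyTime.foldl_add (h := fun w : α × List (List Bool) × List Bool =>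
      if w.2.2 ∈ w.2.1 then w.2.1 else w.2.1 ++ [w.2.2]) hl (PolyTime.const []) hh
    ⟨b, hb, fun a s x hx => ?_⟩
  have h1 := size_of_mem hx
  have h2 := hbs a
  simp only
  split_ifs
  · omega
  · rw [size_append, size_cons, size_nil]
    omega

theorem q1For_of_printable {U : BM} (hU : Universal U) {A : Set (List Bool)}
    (h : PPrintable A) : Q1For U A := by
  obtain ⟨f, hf, hfA⟩ := h
  have hfp : PolyTime f := spr_of_listCode hf
  set L : ℕ → List (List Bool) := fun n => sprNub (f (List.replicate n true)) with hL
  have hLn : ∀ n, (L n).Nodup := fun n => (spr_nub_aux _ [] List.nodup_nil).1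
  have hLm : ∀ n s, s ∈ L n ↔ s ∈ slice A n := by
    intro n s
    rw [← hfA n s]
    have := (spr_nub_aux (f (List.replicate n true)) [] List.nodup_nil).2.1 s
    simpa [hL, sprNub] using this
  have hLl : ∀ n, (L n).length ≤ (f (List.replicate n true)).length := by
    intro n
    have := (spr_nub_aux (f (List.replicate n true)) [] List.nodup_nil).2.2
    simpa [hL, sprNub] using this
  have hrep : PolyTime (fun a : List Bool × UNat => List.replicate a.2.toNat true) := by
    have hw : PolyTime (fun w : List Bool × UNat => w) := PolyTime.id
    exact (PolyTime.strToList'.comp (PolyTime.toStr'.comp hw.snd)).congr (fun _ => rfl)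
  have hDp : PolyTime (fun a : List Bool × UNat =>
      (L a.2.toNat).getD (Pool.Agent.H80.Poly.val a.1) []) := by
    refine PolyTime.list_getD ?_ (PolyTime.val PolyTime.fst') (PolyTime.const [])
    exact spr_nub_poly (hfp.comp hrep)
  obtain ⟨w, P, hw⟩ := exists_decoder hU
    (D := fun a : List Bool × ℕ => (L a.2).getD (Pool.Agent.H80.Poly.val a.1) []) hDp
  obtain ⟨β, ⟨βp, hβp⟩, hβ⟩ := hfp.size_le
  have hlen : ∀ n, (L n).length ≤ βp.eval (3 * n) := by
    intro n
    refine (hLl n).trans ((length_le_size _).trans ((hβ _).trans ((hβp _).trans ?_)))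
    refine eval_mono βp (le_of_eq ?_)
    induction n with
    | zero => rfl
    | succ n ih =>
      rw [List.replicate_succ, size_cons, ih, size_bool]
      omega
  refine ⟨w.length + 1, P.comp (βp.comp (3 * Polynomial.X) + Polynomial.X), fun n s hs => ?_⟩
  have hmem : s ∈ L n := (hLm n s).2 hs
  set i := (L n).idxOf s with hi
  have hilt : i < (L n).length := List.idxOf_lt_length_iff.2 hmem
  have hcard : (slice A n).ncard = (L n).length := by
    have : slice A n = ((L n).toFinset : Set (List Bool)) := by
      ext x
      rw [← hLm n x]
      simp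
    rw [this, Set.ncard_coe_finset, List.toFinset_card_of_nodup (hLn n)]
  have hvi : Pool.Agent.H80.Poly.val (encodeNat i) = i := val_encodeNat i
  refine ⟨w ++ encodeNat i, ?_, ?_⟩
  · rw [hcard, List.length_append]
    push_cast
    have hlog0 : 0 ≤ Real.logb 2 ((L n).length : ℝ) :=
      Real.logb_nonneg (by norm_num) (by exact_mod_cast (Nat.one_le_iff_ne_zero.2 (by omega)))
    have hq : ((encodeNat i).length : ℝ) ≤ Real.logb 2 ((L n).length : ℝ) + 1 := by
      by_cases hne : encodeNat i = []
      · rw [hne]
        simp only [List.length_nil, Nat.cast_zero]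
        linarith
      · have h1 := canon_le (canon_encodeNat i) hne
        rw [hvi] at h1
        have h2 : (2 : ℝ) ^ ((encodeNat i).length : ℝ) ≤ 2 * (L n).length := by
          rw [Real.rpow_natCast]
          have : 2 ^ (encodeNat i).length ≤ 2 * (L n).length := by omega
          exact_mod_cast this
        have hLpos : (0 : ℝ) < (L n).length := by
          exact_mod_cast (by omega : 0 < (L n).length)
        have h3 : ((encodeNat i).length : ℝ) ≤ Real.logb 2 (2 * (L n).length) := by
          rw [Real.le_logb_iff_rpow_le (by norm_num) (by positivity)]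
          exact h2
        rw [Real.logb_mul (by norm_num) (ne_of_gt hLpos), Real.logb_self_eq_one (by norm_num)] at h3
        linarith
    linarith
  · have h1 := hw (encodeNat i) n
    have h2 : (L n).getD (Pool.Agent.H80.Poly.val (encodeNat i)) [] = s := by
      rw [hvi, List.getD_eq_getElem _ _ hilt]
      exact List.getElem_idxOf hilt
    simp only at h1
    rw [h2] at h1
    refine h1.mono ?_
    simp only
    rw [hs.2, Polynomial.eval_comp]
    refine eval_mono P ?_
    have h5 : Polynomial.eval n (3 : Polynomial ℕ) = 3 := by simp
    rw [Polynomial.eval_add, Polynomial.eval_comp, Polynomial.eval_X, Polynomial.eval_mul,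
      Polynomial.eval_X, h5]
    have h3 : (encodeNat i).length ≤ i := size_nat_le_self i
    have h4 := hlen n
    omega

end Pool.Agent.H83.TK
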