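import Pool.Agent.H83.TK.QA
import Pool.Agent.H83.TK.Rp
import Pool.Agent.H83.TK.Spr
import Pool.Agent.H83.TK.Diag
import Pool.Agent.H83.TK.Univ

/-!
# The theorem
-/

set_option autoImplicit false

namespace Pool.Agent.H83.TK

open Pool.Agent.H80.Poly Pool.Agent.H72.NP Turing Computability

theorem main :
    (∃ U : BM, Universal U) ∧
    (∀ U : BM, Universal U →
      (PeqNP → Q1 U) ∧
      (Q1 U → ∀ L : List Bool → Prop, InNP (id : List Bool → List Bool) L → Tally L → InRP L) ∧
      ((∀ A : Set (List Bool), InP id A → Sparse A → Q1For U A) ↔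
        ∀ A : Set (List Bool), InP id A → Sparse A → PPrintable A) ∧
      (∀ p : Polynomial ℕ, ∃ A : Set (List Bool), InP id A ∧
        (∀ n, 2 ≤ n → (slice A n).ncard = 1) ∧
        ∀ c : ℕ, ∃ n₀, ∀ n ≥ n₀, ∀ s ∈ slice A n,
          ¬ KLE U (fun k => p.eval k) s (encodeNat n) (Real.logb 2 (slice A n).ncard + c))) ∧
    (∀ B : Set (List Bool × List Bool), InP (pairEnc id) B →
      ∃ (O : List Bool → Prop) (D : (List Bool × List Bool) × ℕ → List Bool),
        InSigma2 (id : List Bool → List Bool) O ∧ InFPO O (unEnc (pairEnc id)) D ∧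
        ∀ (x : List Bool) (n : ℕ), ∀ s ∈ fib B x n, ∃ q : List Bool,
          (q.length : ℝ) ≤ Real.logb 2 (fib B x n).ncard + 4 ∧ D ((q, x), n) = s) ∧
    (∀ B : Set (List Bool × List Bool), InP (pairEnc id) B →
      ∃ (O : List Bool → Prop) (D : ((List Bool × List Bool) × List Bool) × ℕ → List Bool)
        (r : Polynomial ℕ),
        InNP (id : List Bool → List Bool) O ∧ InFPO O (unEnc (pairEnc (pairEnc id))) D ∧
        ∀ (x : List Bool) (n : ℕ), ∃ a : List Bool, a.length ≤ r.eval n ∧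
          ∀ s ∈ fib B x n, ∃ q : List Bool,
            (q.length : ℝ) ≤ Real.logb 2 (fib B x n).ncard + 4 ∧ D (((q, x), a), n) = s) := by
  refine ⟨exists_universal, fun U hU => ⟨q1_of_peqnp hU, fun h L hL hT => rp_of_q1 h L hL hT,
    ⟨fun h A hA hs => printable_of_q1For hA hs (h A hA hs),
      fun h A hA hs => q1For_of_printable hU (h A hA hs)⟩, no_uniform U⟩,
    sigma2_decoder, np_decoder⟩

end Pool.Agent.H83.TK
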