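import Pool.Agent.H83.TK.Spr
import Pool.Agent.H83.TK.Rp2

/-!
# The weak form of Q1 for sparse sets implies P-printability
-/

set_option autoImplicit false

namespace Pool.Agent.H83.TK

open Pool.Agent.H80.Poly Pool.Agent.H72.NP Turing Computability

/-! ### codes of lists of strings -/

private theorem spq_enc_listStr (l : List Str) :
    (enc l : List Bool) = listCode l := by
  induction l with
  | nil => rfl
  | cons s l ih =>
    show pr (enc s) (enc l) = listCode (s :: l)
    rw [ih]
    show esc s ++ false :: listCode l = listCode (s :: l)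
    simp [listCode, esc, List.flatMap_cons]

private theorem spq_listCode_of {D : List Bool → List (List Bool)} (hD : PolyTime D) :
    PolyTimeFun (id : List Bool → List Bool) listCode D := by
  have h1 : PolyTime (fun x => (D x).map listToStr) :=
    PolyTime.map (g := fun w : List Bool × List Bool => listToStr w.2) hD
      (PolyTime.listToStr'.comp PolyTime.snd')
  obtain ⟨M⟩ := polyTimeFun_of (A := Bool) (e := (id : List Bool → List Bool))
    (f := fun x => (D x).map listToStr) h1 (fun _ => rfl)
  refine ⟨{ toTM2ComputableAux := M.toTM2ComputableAux, time := M.time, outputsFun := ?_ }⟩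
  intro a
  have h2 := M.outputsFun a
  have h3 : enc ((D a).map listToStr) = listCode (D a) := by
    rw [spq_enc_listStr]
    congr 1
    exact List.map_id (D a)
  rw [h3] at h2
  exact h2

/-! ### from short programs to printability -/

private theorem spq_dropLast {α : Type} [BEnc α] {β : Type} [BEnc β] {l : α → List β}
    (hl : PolyTime l) : PolyTime (fun a => (l a).dropLast) :=
  (PolyTime.take hl (PolyTime.pred (PolyTime.length hl))).congr
    (fun a => by rw [List.dropLast_eq_take])

private theorem spq_encodeNat_val (q : List Bool) :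
    encodeNat (Pool.Agent.H80.Poly.val (q ++ [true])) = q ++ [true] := by
  refine canon_unique _ _ (canon_encodeNat _) ?_ (val_encodeNat _)
  unfold Canon
  simp

theorem printable_of_q1LogFor {U : BM} {A : Set (List Bool)} (hA : InP id A) (hs : Sparse A)
    (h : Q1LogFor U A) : PPrintable A := by
  obtain ⟨b, hb, hbA⟩ := inP_iff.1 hA
  obtain ⟨P, hP⟩ := hs
  obtain ⟨c, p, hcp⟩ := h
  obtain ⟨F, C, hF, hFs⟩ := exists_simBM U
  set Np : Polynomial ℕ := 2 * (P * (Polynomial.X + 2) ^ c) with hNp
  set Tp : Polynomial ℕ := Polynomial.C C * p + Polynomial.C C with hTp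
  set D : List Bool → List (List Bool) := fun x =>
    ((List.range (Np.eval x.length)).map
      (fun v => F (((encodeNat v).dropLast, encodeNat x.length),
        UNat.ofNat (Tp.eval x.length)))).filter
      (fun s => b s && decide (s.length = x.length)) with hDdef
  have hD : PolyTime D := by
    have hid : PolyTime (fun x : List Bool => x) := PolyTime.id
    have hw : PolyTime (fun w : List Bool × ℕ => w) := PolyTime.id
    have hw' : PolyTime (fun w : List Bool × List Bool => w) := PolyTime.id
    have h1 : PolyTime (fun x : List Bool => List.range (Np.eval x.length)) :=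
      PolyTime.rangeU (PolyTime.unatEval Np (PolyTime.lengthU hid))
    have h2 : PolyTime (fun w : List Bool × ℕ => F (((encodeNat w.2).dropLast,
        encodeNat w.1.length), UNat.ofNat (Tp.eval w.1.length))) := by
      refine hF.comp (PolyTime.pair (PolyTime.pair ?_ ?_) ?_)
      · exact spq_dropLast (PolyTime.bits hw.snd)
      · exact PolyTime.bits (PolyTime.length hw.fst)
      · exact PolyTime.unatEval Tp (PolyTime.lengthU hw.fst)
    have h3 : PolyTime (fun w : List Bool × List Bool =>
        b w.2 && decide (w.2.length = w.1.length)) :=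
      PolyTime.and (hb.comp hw'.snd) (PolyTime.eq (PolyTime.length hw'.snd)
        (PolyTime.length hw'.fst))
    exact PolyTime.filter (g := fun w : List Bool × List Bool =>
        b w.2 && decide (w.2.length = w.1.length)) (PolyTime.map h1 h2) h3
  refine ⟨D, spq_listCode_of hD, fun n s => ?_⟩
  rw [hDdef]
  simp only [List.length_replicate, List.mem_filter, List.mem_map, List.mem_range,
    Bool.and_eq_true, decide_eq_true_eq]
  constructor
  · rintro ⟨-, h1, h2⟩
    exact ⟨(hbA s).2 h1, h2⟩
  · rintro hsA
    obtain ⟨h1, h2⟩ := hsA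
    refine ⟨?_, (hbA s).1 h1, h2⟩
    obtain ⟨q, hq, hout⟩ := hcp n s ⟨h1, h2⟩
    refine ⟨Pool.Agent.H80.Poly.val (q ++ [true]), ?_, ?_⟩
    · -- the value is small
      have h3 := val_lt (q ++ [true])
      have hfin : (slice A n).Finite := by
        refine Set.Finite.subset (List.finite_length_eq Bool n) ?_
        rintro x ⟨-, hx⟩
        exact hx
      have hpos : 0 < (slice A n).ncard := (Set.ncard_pos hfin).2 ⟨s, h1, h2⟩
      have h5 : 2 ^ q.length ≤ (slice A n).ncard * (n + 2) ^ c := two_pow_le_log hpos hq
      have h6 := hP n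
      rw [List.length_append, List.length_singleton, pow_succ] at h3
      calc Pool.Agent.H80.Poly.val (q ++ [true]) < 2 ^ q.length * 2 := h3
        _ ≤ (slice A n).ncard * (n + 2) ^ c * 2 := Nat.mul_le_mul_right _ h5
        _ ≤ P.eval n * (n + 2) ^ c * 2 := Nat.mul_le_mul_right _ (Nat.mul_le_mul_right _ h6)
        _ = Np.eval n := by
          rw [hNp]
          simp
          ring
    · rw [spq_encodeNat_val, List.dropLast_concat]
      refine hFs q (encodeNat n) s (p.eval s.length) _ hout ?_
      rw [hTp, h2]
      simp

theorem q1LogFor_of_q1For {U : BM} {A : Set (List Bool)} (h : Q1For U A) : Q1LogFor U A := by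
  obtain ⟨c, p, h⟩ := h
  refine ⟨c, p, fun n s hs => ?_⟩
  obtain ⟨q, hq, hout⟩ := h n s hs
  refine ⟨q, hq.trans ?_, hout⟩
  have h1 : (1 : ℝ) ≤ Real.logb 2 (n + 2) := by
    rw [Real.le_logb_iff_rpow_le (by norm_num) (by positivity), Real.rpow_one]
    have : (0 : ℝ) ≤ n := Nat.cast_nonneg n
    linarith
  have h2 : (c : ℝ) ≤ c * Real.logb 2 (n + 2) := le_mul_of_one_le_right (Nat.cast_nonneg c) h1
  linarith

end Pool.Agent.H83.TK
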