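import Pool.Agent.H83.TK.QA
import Pool.Agent.H83.TK.Rp2
import Pool.Agent.H83.TK.Spr
import Pool.Agent.H83.TK.Spr2
import Pool.Agent.H83.TK.Diag2
import Pool.Agent.H83.TK.Cpl
import Pool.Agent.H83.TK.Univ

/-!
# The theorem, with the weak form of Q1
-/

set_option autoImplicit false

namespace Pool.Agent.H83.TK

open Pool.Agent.H80.Poly Pool.Agent.H72.NP Turing Computability

theorem main2 :
    (∃ U : BM, Universal U) ∧
    (∀ U : BM, Universal U →
      (PeqNP → Q1 U) ∧
      (Q1 U → Q1Log U) ∧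
      (Q1Log U → ∀ L : List Bool → Prop,
        InNP (id : List Bool → List Bool) L → Tally L → InRP L) ∧
      (∀ A : Set (List Bool), InP id A → Sparse A →
        (Q1For U A ↔ PPrintable A) ∧ (Q1LogFor U A ↔ PPrintable A)) ∧
      (∀ (p : Polynomial ℕ) (e : ℕ), ∃ (A : Set (List Bool)) (n₁ : ℕ), InP id A ∧
        ∀ n ≥ n₁, (slice A n).ncard = 1 ∧
          ∀ s ∈ slice A n, ¬ KLE U (fun k => p.eval k) s (encodeNat n) (e * Real.logb 2 n))) ∧
    (∀ K : ℕ, 1 ≤ K → ∃ A₀ : Set (List Bool), InP id A₀ ∧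
      (∀ N, ∃ m : ℕ, m ^ K ≤ N ∧ (slice A₀ N).ncard ≤ 2 ^ m) ∧
      ∀ U : BM, Universal U → Q1For U A₀ → Q1 U) ∧
    (∀ B : Set (List Bool × List Bool), InP (pairEnc id) B →
      ∃ (O : List Bool → Prop) (D : (List Bool × List Bool) × ℕ → List Bool),
        InSigma2 (id : List Bool → List Bool) O ∧ InFPO O (unEnc (pairEnc id)) D ∧
        ∀ (x : List Bool) (n : ℕ), ∀ s ∈ fib B x n, ∃ q : List Bool,
          (q.length : ℝ) ≤ Real.logb 2 (fib B x n).ncard + 4 ∧ D ((q, x), n) = s) ∧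
    (∀ B : Set (List Bool × List Bool), InP (pairEnc id) B →
      ∃ (O : List Bool → Prop) (D : ((List Bool × List Bool) × List Bool) × ℕ → List Bool)
        (r : Polynomial ℕ),
        InNP (id : List Bool → List Bool) O ∧ InFPO O (unEnc (pairEnc (pairEnc id))) D ∧
        ∀ (x : List Bool) (n : ℕ), ∃ a : List Bool, a.length ≤ r.eval n ∧
          ∀ s ∈ fib B x n, ∃ q : List Bool,
            (q.length : ℝ) ≤ Real.logb 2 (fib B x n).ncard + 4 ∧ D (((q, x), a), n) = s) := by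
  refine ⟨exists_universal, fun U hU => ⟨q1_of_peqnp hU, fun h A hA => q1LogFor_of_q1For (h A hA),
    fun h L hL hT => rp_of_q1Log h L hL hT,
    fun A hA hs => ⟨⟨printable_of_q1For hA hs, q1For_of_printable hU⟩,
      ⟨printable_of_q1LogFor hA hs, fun h => q1LogFor_of_q1For (q1For_of_printable hU h)⟩⟩,
    fun p e => no_uniform' U p e⟩, fun K hK => exists_complete K hK, sigma2_decoder, np_decoder⟩

end Pool.Agent.H83.TK
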