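import Pool.Agent.H83.TK.Pk

/-!
# The second level of the polynomial hierarchy
-/

set_option autoImplicit false

namespace Pool.Agent.H83.TK

open Pool.Agent.H80.Poly Pool.Agent.H72.NP Turing Computability

/-- `∃ y ∀ V` with polynomial-time matrix is in `Σ₂` -/
theorem inSigma2_of {b : (List Bool × List Bool) × List Bool → Bool} (hb : PolyTime b)
    (p r : Polynomial ℕ) {O : List Bool → Prop}
    (hO : ∀ z, O z ↔ ∃ y : List Bool, y.length ≤ p.eval z.length ∧
      ∀ V : List Bool, V.length ≤ r.eval (z.length + y.length) → b ((z, y), V) = true) :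
    InSigma2 (id : List Bool → List Bool) O := by
  refine ⟨fun x => ∀ V : List Bool, V.length ≤ r.eval (x.1.length + x.2.length) →
    b (x, V) = true, p, ?_, hO⟩
  rw [inNP_pair_iff]
  refine ⟨fun x => !b x, r, PolyTime.not hb, ?_⟩
  intro x
  constructor
  · intro h
    push Not at h
    obtain ⟨V, h1, h2⟩ := h
    exact ⟨V, h1, by simpa using h2⟩
  · rintro ⟨V, h1, h2⟩ h
    have h3 : (!b (x, V)) = true := h2
    rw [h V h1] at h3
    simp at h3

theorem inNP_of {b : List Bool × List Bool → Bool} (hb : PolyTime b) (p : Polynomial ℕ)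
    {O : List Bool → Prop}
    (hO : ∀ z, O z ↔ ∃ y : List Bool, y.length ≤ p.eval z.length ∧ b (z, y) = true) :
    InNP (id : List Bool → List Bool) O := by
  rw [inNP_iff]
  exact ⟨b, p, hb, hO⟩

/-- if P = NP then `Σ₂` is P -/
theorem inP_of_inSigma2 (h : PeqNP) {O : List Bool → Prop}
    (hO : InSigma2 (id : List Bool → List Bool) O) :
    InP (id : List Bool → List Bool) {z | O z} := by
  obtain ⟨W, p, hW, hOW⟩ := hO
  rw [inNP_pair_iff] at hW
  obtain ⟨b, q, hb, hbW⟩ := hW
  -- the complement of `W` on packed pairs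
  have h1 : InNP (id : List Bool → List Bool) (fun z => ¬ W (fs z, sn z)) := by
    refine inNP_of (b := fun x => decide (x.2.length ≤
      q.eval ((fs x.1).length + (sn x.1).length)) && b ((fs x.1, sn x.1), x.2)) ?_
      (q.comp (Polynomial.X + Polynomial.X)) ?_
    · refine PolyTime.and ?_ ?_
      · refine PolyTime.le (PolyTime.length PolyTime.snd') (PolyTime.natEval q ?_)
        exact PolyTime.add (PolyTime.length (poly_fs PolyTime.fst'))
          (PolyTime.length (poly_sn PolyTime.fst'))
      · exact hb.comp (((poly_fs PolyTime.fst').pair (poly_sn PolyTime.fst')).pair PolyTime.snd')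
    · intro z
      rw [hbW (fs z, sn z)]
      constructor
      · rintro ⟨w, h2, h3⟩
        refine ⟨w, ?_, ?_⟩
        · refine h2.trans ?_
          rw [Polynomial.eval_comp, Polynomial.eval_add, Polynomial.eval_X]
          exact eval_mono q (Nat.add_le_add (length_fs_le z) (length_sn_le z))
        · rw [Bool.and_eq_true]
          exact ⟨by simpa using h2, h3⟩
      · rintro ⟨w, _, h3⟩
        rw [Bool.and_eq_true] at h3
        exact ⟨w, by simpa using h3.1, h3.2⟩
  have h2 := h _ h1
  rw [inP_iff] at h2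
  obtain ⟨b1, hb1, hb1W⟩ := h2
  have h3 : InNP (id : List Bool → List Bool) O := by
    refine inNP_of (b := fun x => !b1 (pk x.1 x.2)) (PolyTime.not (hb1.comp
      (poly_pk PolyTime.fst' PolyTime.snd'))) p ?_
    intro z
    rw [hOW z]
    have e : ∀ w : List Bool, (!b1 (pk z w)) = true ↔ W (z, w) := by
      intro w
      have := hb1W (pk z w)
      simp only [Set.mem_ofPred_eq, fs_pk, sn_pk] at this
      rw [Bool.not_eq_true', ← Bool.not_eq_true, ← this, not_not]
    constructor
    · rintro ⟨w, h4, h5⟩
      exact ⟨w, h4, (e w).mpr h5⟩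
    · rintro ⟨w, h4, h5⟩
      exact ⟨w, h4, (e w).mp h5⟩
  exact h _ h3

end Pool.Agent.H83.TK
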