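import Pool.Agent.H83.TK.Code
import Pool.Agent.H83.TK.Pt
import Pool.Agent.H83.TK.Fpo
import Pool.Agent.H83.TK.Sg

/-!
# Decoders with a `Σ₂` oracle, and with an `NP` oracle and advice
-/

set_option autoImplicit false

namespace Pool.Agent.H83.TK

open Pool.Agent.H80.Poly Pool.Agent.H72.NP Turing Computability

/-! ### polynomials -/

/-- the length of schemes as a polynomial -/
noncomputable def kPol : Polynomial ℕ :=
  (Polynomial.X + 1) + (Polynomial.X + 1) * (Polynomial.X + 3) * Polynomial.X

/-- the length of certificates as a polynomial -/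
noncomputable def vPol : Polynomial ℕ := (4 * Polynomial.X + 4) * Polynomial.X

theorem eval_kPol (n : ℕ) : kPol.eval n = kLen n := by
  simp [kPol, kLen]

theorem eval_vPol (n : ℕ) : vPol.eval n = vLen n := by
  simp [vPol, vLen, cap]

section

variable {α : Type} [BEnc α]

theorem poly_kLen {n : α → ℕ} (hn : PolyTime n) : PolyTime (fun a => kLen (n a)) :=
  (PolyTime.natEval kPol hn).congr fun _ => eval_kPol _

theorem poly_vLen {n : α → ℕ} (hn : PolyTime n) : PolyTime (fun a => vLen (n a)) :=
  (PolyTime.natEval vPol hn).congr fun _ => eval_vPol _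

theorem poly_prefix {u y : α → List Bool} (hu : PolyTime u) (hy : PolyTime y) :
    PolyTime (fun a => decide (u a <+: y a)) := by
  refine (PolyTime.eq hu (PolyTime.take hy (PolyTime.length hu))).congr fun a => ?_
  rw [decide_eq_decide, List.prefix_iff_eq_take]

/-- the length of a polynomial-time list is bounded by a polynomial -/
theorem bound_length {β : Type} [BEnc β] {l : α → List β} (hl : PolyTime l) :
    ∃ b, PB b ∧ ∀ a, (l a).length ≤ b (size a) := by
  obtain ⟨b, hb, hbs⟩ := hl.size_le
  exact ⟨b, hb, fun a => (length_le_size _).trans (hbs a)⟩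

end

/-- goodness with certificates of any length -/
theorem good_iff' {b : List Bool → Bool} {n : ℕ} {κ : List Bool} {L : ℕ} (hL : vLen n ≤ L) :
    Good b n κ ↔ ∀ V : List Bool, V.length ≤ L →
      certB b n κ (rounds n (par n κ)) V = false := by
  constructor
  · intro h V _
    by_contra hc
    rw [Bool.not_eq_false] at hc
    have h1 : blk n 0 V ∈ lev (HH n κ) (XX b n) (rounds n (par n κ)) :=
      certB_sound (min_le_left _ _) hc
    unfold Good at h
    rw [h] at h1
    exact h1
  · intro h
    exact good_iff.2 fun V hV => h V (hV.trans hL)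

/-- the bound for the length of the codes -/
theorem code_length {b : List Bool → Bool} {n : ℕ} (h : (XX b n).Nonempty) {l : ℕ}
    (hl : l = par n (can b n) + 3) : (l : ℝ) ≤ Real.logb 2 (XX b n).ncard + 4 := by
  have h1 := two_pow_par_can b n h
  have hpos : 0 < (XX b n).ncard := (Set.ncard_pos (finite_XX b n)).2 h
  have h2 : ((2 : ℝ) ^ (par n (can b n))) ≤ 2 * (XX b n).ncard := by exact_mod_cast h1
  have h3 : ((par n (can b n) : ℕ) : ℝ) ≤ Real.logb 2 (2 * (XX b n).ncard) := by
    rw [Real.le_logb_iff_rpow_le (by norm_num) (by positivity)]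
    rwa [Real.rpow_natCast]
  rw [Real.logb_mul (by norm_num) (by positivity), Real.logb_self_eq_one (by norm_num)] at h3
  rw [hl]
  push_cast
  linarith

/-! ### decoding with a `Σ₂` oracle -/

section

variable (b : List Bool × List Bool → Bool)

/-- the components of the packed input -/
def cq (z : List Bool) : List Bool := fs z
/-- the side information -/
def cx (z : List Bool) : List Bool := fs (sn z)
/-- the length, in the absence of advice -/
def cn (z : List Bool) : ℕ := (sn (sn z)).length
/-- the length of the input -/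
def ct (z : List Bool) : ℕ := (cq z).length + (cx z).length + cn z

/-- number of bits searched for -/
noncomputable def nPol : Polynomial ℕ := kPol + vPol

theorem eval_nPol (n : ℕ) : nPol.eval n = kLen n + vLen n := by
  rw [nPol, Polynomial.eval_add, eval_kPol, eval_vPol]

/-- the relation: `y` consists of a good scheme and a certificate for a string with the code given in
the input -/
def RR (z y : List Bool) : Prop :=
  Good (fun s => b (cx z, s)) (cn z) (y.take (kLen (cn z))) ∧
    relB (fun s => b (cx z, s)) (cn z) (y.take (kLen (cn z))) (cq z)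
      ((y.drop (kLen (cn z))).take (vLen (cn z))) = true

/-- the oracle -/
noncomputable def OO (z : List Bool) : Prop := Ext (nPol.eval (ct (fs z))) (RR b (fs z)) (sn z)

theorem cn_le (z : List Bool) : cn z ≤ z.length := by
  unfold cn
  exact (length_sn_le _).trans (length_sn_le _)

theorem ct_le (z : List Bool) : ct z ≤ 3 * z.length := by
  unfold ct
  have h1 : (cq z).length ≤ z.length := length_fs_le z
  have h2 : (cx z).length ≤ z.length := (length_fs_le _).trans (length_sn_le z)
  have h3 := cn_le z
  omega

theorem cn_le_ct (z : List Bool) : cn z ≤ ct z := by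
  unfold ct; omega

theorem poly_cn {α : Type} [BEnc α] {z : α → List Bool} (hz : PolyTime z) :
    PolyTime (fun a => cn (z a)) := PolyTime.length (poly_sn (poly_sn hz))

theorem bound_cn {α : Type} [BEnc α] {z : α → List Bool} (hz : PolyTime z) :
    ∃ β, PB β ∧ ∀ a, cn (z a) ≤ β (size a) := bound_length (poly_sn (poly_sn hz))

theorem poly_ct {α : Type} [BEnc α] {z : α → List Bool} (hz : PolyTime z) :
    PolyTime (fun a => ct (z a)) :=
  PolyTime.add (PolyTime.add (PolyTime.length (poly_fs hz)) (PolyTime.length (poly_fs (poly_sn hz))))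
    (poly_cn hz)

/-- the matrix of the `Σ₂` predicate -/
noncomputable def bb (w : (List Bool × List Bool) × List Bool) : Bool :=
  (decide (w.1.2.length = nPol.eval (ct (fs w.1.1))) && decide (sn w.1.1 <+: w.1.2)) &&
    (relB (fun s => b (cx (fs w.1.1), s)) (cn (fs w.1.1)) (w.1.2.take (kLen (cn (fs w.1.1))))
      (cq (fs w.1.1)) ((w.1.2.drop (kLen (cn (fs w.1.1)))).take (vLen (cn (fs w.1.1)))) &&
    !(certB (fun s => b (cx (fs w.1.1), s)) (cn (fs w.1.1)) (w.1.2.take (kLen (cn (fs w.1.1))))
      (rounds (cn (fs w.1.1)) (par (cn (fs w.1.1)) (w.1.2.take (kLen (cn (fs w.1.1)))))) w.2))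

variable {b}

theorem poly_bb (hb : PolyTime b) : PolyTime (bb b) := by
  have hw : PolyTime (fun w : (List Bool × List Bool) × List Bool => w) := PolyTime.id
  have hz : PolyTime (fun w : (List Bool × List Bool) × List Bool => fs w.1.1) :=
    poly_fs hw.fst.fst
  have hn := poly_cn hz
  have hnb := bound_cn hz
  have hκ := PolyTime.take hw.fst.snd (poly_kLen hn)
  have hx : PolyTime (fun w : (List Bool × List Bool) × List Bool => cx (fs w.1.1)) :=
    poly_fs (poly_sn hz)
  have hq : PolyTime (fun w : (List Bool × List Bool) × List Bool => cq (fs w.1.1)) :=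
    poly_fs hz
  have hi := poly_rounds hn (poly_par hn hκ)
  unfold bb
  refine PolyTime.and (PolyTime.and (PolyTime.eq (PolyTime.length hw.fst.snd)
    (PolyTime.natEval nPol (poly_ct hz))) (poly_prefix (poly_sn hw.fst.fst) hw.fst.snd))
    (PolyTime.and (poly_relB hb hx hn hκ hq
      (PolyTime.take (PolyTime.drop hw.fst.snd (poly_kLen hn)) (poly_vLen hn)) hnb)
      (PolyTime.not (poly_certB hb hx hn hκ hi hw.snd hnb ?_)))
  obtain ⟨β, hβ, h⟩ := hnb
  refine ⟨fun s => β s + 1, hβ.add (PB.const 1), fun a => ?_⟩
  have h1 := h a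
  have h2 : (cn (fs a.1.1)).size ≤ cn (fs a.1.1) := by
    rw [← size_nat]; exact size_nat_le_self _
  have h3 : rounds (cn (fs a.1.1)) (par (cn (fs a.1.1)) (a.1.2.take (kLen (cn (fs a.1.1))))) ≤
      (cn (fs a.1.1)).size + 1 := min_le_left _ _
  simp only at h1 ⊢
  omega

theorem inSigma2_OO (hb : PolyTime b) : InSigma2 (id : List Bool → List Bool) (OO b) := by
  refine inSigma2_of (poly_bb hb) (nPol.comp (3 * Polynomial.X)) vPol fun z => ?_
  unfold OO Ext
  refine exists_congr fun y => ?_
  constructor
  · rintro ⟨h1, h2, h3, h4⟩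
    refine ⟨?_, fun V _ => ?_⟩
    · rw [h1, Polynomial.eval_comp]
      refine eval_mono _ ?_
      simp only [Polynomial.eval_mul, Polynomial.eval_ofNat, Polynomial.eval_X]
      exact (ct_le _).trans (Nat.mul_le_mul_left _ (length_fs_le z))
    · unfold bb
      rw [Bool.and_eq_true, Bool.and_eq_true, Bool.and_eq_true, decide_eq_true_eq,
        decide_eq_true_eq, Bool.not_eq_true']
      exact ⟨⟨h1, h2⟩, h4, (good_iff' (le_max_left _ V.length)).1 h3 V (le_max_right _ _)⟩
  · rintro ⟨-, h⟩
    have key : ∀ V : List Bool, V.length ≤ vPol.eval (z.length + y.length) →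
        (y.length = nPol.eval (ct (fs z)) ∧ sn z <+: y) ∧
        relB (fun s => b (cx (fs z), s)) (cn (fs z)) (y.take (kLen (cn (fs z)))) (cq (fs z))
          ((y.drop (kLen (cn (fs z)))).take (vLen (cn (fs z)))) = true ∧
        certB (fun s => b (cx (fs z), s)) (cn (fs z)) (y.take (kLen (cn (fs z))))
          (rounds (cn (fs z)) (par (cn (fs z)) (y.take (kLen (cn (fs z)))))) V = false := by
      intro V hV
      have := h V hV
      unfold bb at this
      rw [Bool.and_eq_true, Bool.and_eq_true, Bool.and_eq_true, decide_eq_true_eq,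
        decide_eq_true_eq, Bool.not_eq_true'] at this
      exact this
    have h0 := key [] (Nat.zero_le _)
    refine ⟨h0.1.1, h0.1.2, ?_, h0.2.1⟩
    refine (good_iff' (L := vPol.eval (z.length + y.length)) ?_).2 fun V hV => (key V hV).2.2
    rw [← eval_vPol]
    refine eval_mono _ ?_
    exact (cn_le _).trans ((length_fs_le z).trans (Nat.le_add_right _ _))

/-- the packed input -/
def xl (l : List ((Bool ⊕ Bool) ⊕ Bool)) : List Bool :=
  pk (lefts (lefts l)) (pk (rights (lefts l)) (rights l))

theorem poly_xl : PolyTime xl := by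
  have h : PolyTime (fun l : List ((Bool ⊕ Bool) ⊕ Bool) => l) := PolyTime.id
  exact poly_pk (poly_lefts (poly_lefts h)) (poly_pk (poly_rights (poly_lefts h)) (poly_rights h))

end

/-- reading off the string from the result of the search -/
def outS (w : List Bool × List Bool) : List Bool :=
  blk (cn w.1) 0 ((w.2.drop (kLen (cn w.1))).take (vLen (cn w.1)))

theorem poly_outS : PolyTime outS := by
  have hw : PolyTime (fun w : List Bool × List Bool => w) := PolyTime.id
  have hn := poly_cn hw.fst
  exact poly_blk hn (PolyTime.const 0)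
    (PolyTime.take (PolyTime.drop hw.snd (poly_kLen hn)) (poly_vLen hn))

theorem length_unEnc {α A : Type} (e : α → List A) (p : α × ℕ) :
    (unEnc e p).length = (e p.1).length + p.2 := by
  simp [unEnc, pairEnc]

theorem length_pairEnc {α A : Type} (e : α → List A) (p : α × List Bool) :
    (pairEnc e p).length = (e p.1).length + p.2.length := by
  simp [pairEnc]

theorem fib_eq {b : List Bool × List Bool → Bool} {B : Set (List Bool × List Bool)}
    (h : ∀ x, x ∈ B ↔ b x = true) (x : List Bool) (n : ℕ) :
    fib B x n = XX (fun s => b (x, s)) n := by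
  ext s
  simp only [fib, XX, Set.mem_ofPred_eq, h]

/-- Decoding with a `Σ₂` oracle -/
theorem sigma2_decoder (B : Set (List Bool × List Bool)) (hB : InP (pairEnc id) B) :
    ∃ (O : List Bool → Prop) (D : (List Bool × List Bool) × ℕ → List Bool),
      InSigma2 (id : List Bool → List Bool) O ∧ InFPO O (unEnc (pairEnc id)) D ∧
      ∀ (x : List Bool) (n : ℕ), ∀ s ∈ fib B x n, ∃ q : List Bool,
        (q.length : ℝ) ≤ Real.logb 2 (fib B x n).ncard + 4 ∧ D ((q, x), n) = s := by
  obtain ⟨b, hb, hbB⟩ := inP_pair_iff.1 hB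
  have hxl : ∀ a : (List Bool × List Bool) × ℕ,
      xl (unEnc (pairEnc id) a) = pk a.1.1 (pk a.1.2 (List.replicate a.2 true)) := by
    intro a
    simp only [xl, unEnc, lefts_pairEnc, rights_pairEnc, id]
  have hct : ∀ a : (List Bool × List Bool) × ℕ,
      ct (xl (unEnc (pairEnc id) a)) = (unEnc (pairEnc id) a).length := by
    intro a
    rw [hxl, length_unEnc, length_pairEnc]
    simp only [ct, cq, cx, cn, fs_pk, sn_pk, List.length_replicate, id]
  refine ⟨OO b, fun a => outS (xl (unEnc (pairEnc id) a),
    greedy (fun u => OO b (pk (xl (unEnc (pairEnc id) a)) u))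
      (nPol.eval (unEnc (pairEnc id) a).length)), inSigma2_OO hb,
    fpo_greedy poly_xl nPol poly_outS fun a => rfl, fun x n s hs => ?_⟩
  rw [fib_eq hbB] at hs ⊢
  set bx : List Bool → Bool := fun s => b (x, s) with hbx
  obtain ⟨q, hq, ⟨V, hV, hVr⟩, huniq⟩ := exists_code (good_can bx n) hs
  refine ⟨q, code_length ⟨s, hs⟩ hq, ?_⟩
  set z : List Bool := xl (unEnc (pairEnc id) ((q, x), n)) with hz
  have hz' : z = pk q (pk x (List.replicate n true)) := hxl _
  have hcq : cq z = q := by rw [hz', cq, fs_pk]
  have hcx : cx z = x := by rw [hz', cx, sn_pk, fs_pk]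
  have hcn : cn z = n := by rw [hz', cn, sn_pk, sn_pk, List.length_replicate]
  set N : ℕ := nPol.eval (unEnc (pairEnc id) ((q, x), n)).length with hN
  have hNct : nPol.eval (ct z) = N := by rw [hN, hz, hct]
  have hO : (fun u => OO b (pk z u)) = Ext N (RR b z) := by
    funext u
    unfold OO
    rw [fs_pk, sn_pk, hNct]
  have hle : kLen n + vLen n ≤ N := by
    rw [hN, ← eval_nPol]
    refine eval_mono _ ?_
    rw [length_unEnc]
    exact Nat.le_add_left _ _
  have hRR : ∀ y : List Bool, RR b z y ↔ Good bx n (y.take (kLen n)) ∧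
      relB bx n (y.take (kLen n)) q ((y.drop (kLen n)).take (vLen n)) = true := by
    intro y
    unfold RR
    rw [hcq, hcx, hcn]
  -- a solution with the canonical scheme
  have hcl := length_can bx n
  set y₀ : List Bool := can bx n ++ V ++ List.replicate (N - kLen n - vLen n) false with hy₀
  have hy₀l : y₀.length = N := by
    rw [hy₀]
    simp only [List.length_append, List.length_replicate, hcl, hV]
    omega
  have hy₀t : y₀.take (kLen n) = can bx n := by
    rw [hy₀, List.append_assoc, ← hcl, List.take_left]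
  have hy₀d : (y₀.drop (kLen n)).take (vLen n) = V := by
    rw [hy₀, List.append_assoc, ← hcl, List.drop_left, ← hV, List.take_left]
  have hRy₀ : RR b z y₀ := by
    rw [hRR, hy₀t, hy₀d]
    exact ⟨good_can bx n, hVr⟩
  -- the result of the search
  have h1 : (greedy (Ext N (RR b z)) N).take (kLen n) = can bx n :=
    greedy_take (G := Good bx n) (by omega) (fun y _ hy => ((hRR y).1 hy).1) hy₀l hRy₀ hy₀t
  have h2 : RR b z (greedy (Ext N (RR b z)) N) := greedy_spec ⟨y₀, hy₀l, hRy₀⟩
  rw [hRR, h1] at h2
  have h3 := huniq _ h2.2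
  show outS (z, greedy (fun u => OO b (pk z u)) N) = s
  rw [hO]
  unfold outS
  simp only [hcn]
  exact h3

/-! ### decoding with an `NP` oracle and advice -/

section

variable (b : List Bool × List Bool → Bool)

/-- the advice in the packed input -/
def ca (z : List Bool) : List Bool := fs (sn (sn z))
/-- the length -/
def cm (z : List Bool) : ℕ := (sn (sn (sn z))).length
/-- the length of the input -/
def cs (z : List Bool) : ℕ := (cq z).length + (cx z).length + (ca z).length + cm z

/-- the relation -/
def relN (w : List Bool × List Bool) : Bool :=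
  relB (fun s => b (cx w.1, s)) (cm w.1) (ca w.1) (cq w.1) (w.2.take (vLen (cm w.1)))

/-- the oracle -/
noncomputable def ON (z : List Bool) : Prop :=
  Ext (vPol.eval (cs (fs z))) (fun y => relN b (fs z, y) = true) (sn z)

/-- the verifier -/
noncomputable def bn (w : List Bool × List Bool) : Bool :=
  (decide (w.2.length = vPol.eval (cs (fs w.1))) && decide (sn w.1 <+: w.2)) &&
    relN b (fs w.1, w.2)

theorem cs_le (z : List Bool) : cs z ≤ 4 * z.length := by
  unfold cs
  have h1 : (cq z).length ≤ z.length := length_fs_le z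
  have h2 : (cx z).length ≤ z.length := (length_fs_le _).trans (length_sn_le z)
  have h3 : (ca z).length ≤ z.length :=
    (length_fs_le _).trans ((length_sn_le _).trans (length_sn_le z))
  have h4 : cm z ≤ z.length :=
    (length_sn_le _).trans ((length_sn_le _).trans (length_sn_le z))
  omega

theorem poly_cm {α : Type} [BEnc α] {z : α → List Bool} (hz : PolyTime z) :
    PolyTime (fun a => cm (z a)) := PolyTime.length (poly_sn (poly_sn (poly_sn hz)))

theorem bound_cm {α : Type} [BEnc α] {z : α → List Bool} (hz : PolyTime z) :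
    ∃ β, PB β ∧ ∀ a, cm (z a) ≤ β (size a) := bound_length (poly_sn (poly_sn (poly_sn hz)))

theorem poly_cs {α : Type} [BEnc α] {z : α → List Bool} (hz : PolyTime z) :
    PolyTime (fun a => cs (z a)) :=
  PolyTime.add (PolyTime.add (PolyTime.add (PolyTime.length (poly_fs hz))
    (PolyTime.length (poly_fs (poly_sn hz)))) (PolyTime.length (poly_fs (poly_sn (poly_sn hz)))))
    (poly_cm hz)

variable {b}

theorem poly_relN (hb : PolyTime b) {α : Type} [BEnc α] {z y : α → List Bool} (hz : PolyTime z)
    (hy : PolyTime y) : PolyTime (fun a => relN b (z a, y a)) := by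
  unfold relN
  exact poly_relB hb (poly_fs (poly_sn hz)) (poly_cm hz) (poly_fs (poly_sn (poly_sn hz)))
    (poly_fs hz) (PolyTime.take hy (poly_vLen (poly_cm hz))) (bound_cm hz)

theorem poly_bn (hb : PolyTime b) : PolyTime (bn b) := by
  have hw : PolyTime (fun w : List Bool × List Bool => w) := PolyTime.id
  unfold bn
  exact PolyTime.and (PolyTime.and (PolyTime.eq (PolyTime.length hw.snd)
    (PolyTime.natEval vPol (poly_cs (poly_fs hw.fst)))) (poly_prefix (poly_sn hw.fst) hw.snd))
    (poly_relN hb (poly_fs hw.fst) hw.snd)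

theorem inNP_ON (hb : PolyTime b) : InNP (id : List Bool → List Bool) (ON b) := by
  refine inNP_of (poly_bn hb) (vPol.comp (4 * Polynomial.X)) fun z => ?_
  unfold ON Ext
  refine exists_congr fun y => ?_
  unfold bn
  rw [Bool.and_eq_true, Bool.and_eq_true, decide_eq_true_eq, decide_eq_true_eq]
  constructor
  · rintro ⟨h1, h2, h3⟩
    refine ⟨?_, ⟨h1, h2⟩, h3⟩
    rw [h1, Polynomial.eval_comp]
    refine eval_mono _ ?_
    simp only [Polynomial.eval_mul, Polynomial.eval_ofNat, Polynomial.eval_X]
    exact (cs_le _).trans (Nat.mul_le_mul_left _ (length_fs_le z))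
  · rintro ⟨-, ⟨h1, h2⟩, h3⟩
    exact ⟨h1, h2, h3⟩

/-- the packed input -/
def xa (l : List (((Bool ⊕ Bool) ⊕ Bool) ⊕ Bool)) : List Bool :=
  pk (lefts (lefts (lefts l))) (pk (rights (lefts (lefts l))) (pk (rights (lefts l)) (rights l)))

theorem poly_xa : PolyTime xa := by
  have h : PolyTime (fun l : List (((Bool ⊕ Bool) ⊕ Bool) ⊕ Bool) => l) := PolyTime.id
  exact poly_pk (poly_lefts (poly_lefts (poly_lefts h)))
    (poly_pk (poly_rights (poly_lefts (poly_lefts h)))
      (poly_pk (poly_rights (poly_lefts h)) (poly_rights h)))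

end

/-- reading off the string from the result of the search -/
def outN (w : List Bool × List Bool) : List Bool := blk (cm w.1) 0 (w.2.take (vLen (cm w.1)))

theorem poly_outN : PolyTime outN := by
  have hw : PolyTime (fun w : List Bool × List Bool => w) := PolyTime.id
  have hn := poly_cm hw.fst
  exact poly_blk hn (PolyTime.const 0) (PolyTime.take hw.snd (poly_vLen hn))

/-- Decoding with an `NP` oracle and advice -/
theorem np_decoder (B : Set (List Bool × List Bool)) (hB : InP (pairEnc id) B) :
    ∃ (O : List Bool → Prop) (D : ((List Bool × List Bool) × List Bool) × ℕ → List Bool)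
      (r : Polynomial ℕ),
      InNP (id : List Bool → List Bool) O ∧ InFPO O (unEnc (pairEnc (pairEnc id))) D ∧
      ∀ (x : List Bool) (n : ℕ), ∃ a : List Bool, a.length ≤ r.eval n ∧
        ∀ s ∈ fib B x n, ∃ q : List Bool,
          (q.length : ℝ) ≤ Real.logb 2 (fib B x n).ncard + 4 ∧ D (((q, x), a), n) = s := by
  obtain ⟨b, hb, hbB⟩ := inP_pair_iff.1 hB
  have hxa : ∀ a : ((List Bool × List Bool) × List Bool) × ℕ,
      xa (unEnc (pairEnc (pairEnc id)) a) =
        pk a.1.1.1 (pk a.1.1.2 (pk a.1.2 (List.replicate a.2 true))) := by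
    intro a
    simp only [xa, unEnc, lefts_pairEnc, rights_pairEnc, id]
  have hcs : ∀ a : ((List Bool × List Bool) × List Bool) × ℕ,
      cs (xa (unEnc (pairEnc (pairEnc id)) a)) = (unEnc (pairEnc (pairEnc id)) a).length := by
    intro a
    rw [hxa, length_unEnc, length_pairEnc, length_pairEnc]
    simp only [cs, cq, cx, ca, cm, fs_pk, sn_pk, List.length_replicate, id]
  refine ⟨ON b, fun a => outN (xa (unEnc (pairEnc (pairEnc id)) a),
    greedy (fun u => ON b (pk (xa (unEnc (pairEnc (pairEnc id)) a)) u))
      (vPol.eval (unEnc (pairEnc (pairEnc id)) a).length)), kPol, inNP_ON hb,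
    fpo_greedy poly_xa vPol poly_outN fun a => rfl, fun x n => ?_⟩
  set bx : List Bool → Bool := fun s => b (x, s) with hbx
  refine ⟨can bx n, by rw [length_can, eval_kPol], fun s hs => ?_⟩
  rw [fib_eq hbB] at hs ⊢
  obtain ⟨q, hq, ⟨V, hV, hVr⟩, huniq⟩ := exists_code (good_can bx n) hs
  refine ⟨q, code_length ⟨s, hs⟩ hq, ?_⟩
  set z : List Bool := xa (unEnc (pairEnc (pairEnc id)) (((q, x), can bx n), n)) with hz
  have hz' : z = pk q (pk x (pk (can bx n) (List.replicate n true))) := hxa _
  have hcq : cq z = q := by rw [hz', cq, fs_pk]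
  have hcx : cx z = x := by rw [hz', cx, sn_pk, fs_pk]
  have hca : ca z = can bx n := by rw [hz', ca, sn_pk, sn_pk, fs_pk]
  have hcm : cm z = n := by rw [hz', cm, sn_pk, sn_pk, sn_pk, List.length_replicate]
  set N : ℕ := vPol.eval (unEnc (pairEnc (pairEnc id)) (((q, x), can bx n), n)).length with hN
  have hNcs : vPol.eval (cs z) = N := by rw [hN, hz, hcs]
  have hO : (fun u => ON b (pk z u)) = Ext N (fun y => relN b (z, y) = true) := by
    funext u
    unfold ON
    rw [fs_pk, sn_pk, hNcs]
  have hle : vLen n ≤ N := by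
    rw [hN, ← eval_vPol]
    refine eval_mono _ ?_
    rw [length_unEnc]
    exact Nat.le_add_left _ _
  have hR : ∀ y : List Bool, relN b (z, y) = relB bx n (can bx n) q (y.take (vLen n)) := by
    intro y
    unfold relN
    simp only [hcq, hcx, hca, hcm]
    rfl
  set y₀ : List Bool := V ++ List.replicate (N - vLen n) false with hy₀
  have hy₀l : y₀.length = N := by
    rw [hy₀]
    simp only [List.length_append, List.length_replicate, hV]
    omega
  have hy₀t : y₀.take (vLen n) = V := by
    rw [hy₀, ← hV, List.take_left]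
  have hRy₀ : relN b (z, y₀) = true := by rw [hR, hy₀t, hVr]
  have h2 : relN b (z, greedy (Ext N (fun y => relN b (z, y) = true)) N) = true :=
    greedy_spec (R := fun y => relN b (z, y) = true) ⟨y₀, hy₀l, hRy₀⟩
  rw [hR] at h2
  have h3 := huniq _ h2
  show outN (z, greedy (fun u => ON b (pk z u)) N) = s
  rw [hO]
  unfold outN
  simp only [hcm]
  exact h3

end Pool.Agent.H83.TK
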