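import Pool.Agent.H83.TK.Orc
import Pool.Agent.H83.TK.Dec

/-!
# P = NP implies Q1
-/

set_option autoImplicit false

namespace Pool.Agent.H83.TK

open Pool.Agent.H80.Poly Pool.Agent.H72.NP Turing Computability

private theorem ncard_slice_le (A : Set (List Bool)) (n : ℕ) : (slice A n).ncard ≤ 2 ^ n := by
  have h1 : {s : List Bool | s.length = n} =
      List.Vector.toList '' (Set.univ : Set (List.Vector Bool n)) := by
    ext s
    constructor
    · intro hs
      exact ⟨⟨s, hs⟩, Set.mem_univ _, rfl⟩
    · rintro ⟨v, _, rfl⟩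
      exact v.toList_length
  have h2 : ({s : List Bool | s.length = n}).ncard = 2 ^ n := by
    rw [h1, Set.ncard_image_of_injective _ List.Vector.toList_injective, Set.ncard_univ,
      Nat.card_eq_fintype_card, card_vector]
    simp
  have h3 : ({s : List Bool | s.length = n}).Finite := by
    rw [h1]
    exact Set.toFinite _
  rw [← h2]
  exact Set.ncard_le_ncard (fun s hs => hs.2) h3

theorem q1_of_peqnp {U : BM} (hU : Universal U) (h : PeqNP) : Q1 U := by
  intro A hA
  obtain ⟨b, hb, hAb⟩ := inP_iff.1 hA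
  have hB : InP (pairEnc (id : List Bool → List Bool)) {z : List Bool × List Bool | z.2 ∈ A} :=
    inP_pair_iff.2 ⟨fun z => b z.2, hb.comp PolyTime.snd', fun x => hAb x.2⟩
  obtain ⟨O, D, hO, hD, hdec⟩ := sigma2_decoder _ hB
  obtain ⟨g, hg, hgD⟩ := poly_of_fpo (inP_of_inSigma2 h hO) hD
  have hD' : PolyTime (fun a : List Bool × UNat =>
      (fun z : List Bool × ℕ => D ((z.1, []), z.2)) (a.1, a.2.toNat)) := by
    have hr : PolyTime (fun a : List Bool × UNat => List.replicate a.2.toNat true) :=
      PolyTime.replicate PolyTime.snd'.unatToNat PolyTime.snd'.unat_bd (PolyTime.const true)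
    have h1 := hg.comp (poly_pairEnc (poly_pairEnc (PolyTime.fst' (α := List Bool) (β := UNat))
      (PolyTime.const ([] : List Bool))) hr)
    refine h1.congr (fun a => ?_)
    exact hgD ((a.1, []), a.2.toNat)
  obtain ⟨w, P, hw⟩ := exists_decoder (D := fun z : List Bool × ℕ => D ((z.1, []), z.2)) hU hD'
  refine ⟨w.length + 4, P.comp (2 * Polynomial.X + 4), ?_⟩
  intro n s hs
  have hfib : fib {z : List Bool × List Bool | z.2 ∈ A} [] n = slice A n := by
    ext t
    exact and_comm
  obtain ⟨q, hq, hDq⟩ := hdec [] n s (by rw [hfib]; exact hs)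
  rw [hfib] at hq
  have hqn : q.length ≤ n + 4 := by
    have h1 : ((slice A n).ncard : ℝ) ≤ (2 : ℝ) ^ n := by exact_mod_cast ncard_slice_le A n
    have hfin : (slice A n).Finite :=
      (List.finite_length_eq Bool n).subset (fun t ht => ht.2)
    have hne : 0 < (slice A n).ncard := (Set.ncard_pos hfin).2 ⟨s, hs⟩
    have h2 : Real.logb 2 (slice A n).ncard ≤ n := by
      have h4 : Real.logb 2 (slice A n).ncard ≤ Real.logb 2 ((2 : ℝ) ^ n) :=
        Real.logb_le_logb_of_le (by norm_num) (by exact_mod_cast hne) h1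
      rw [Real.logb_pow, Real.logb_self_eq_one (by norm_num), mul_one] at h4
      exact h4
    have h5 : (q.length : ℝ) ≤ ((n + 4 : ℕ) : ℝ) := by
      push_cast
      linarith
    exact_mod_cast h5
  refine ⟨w ++ q, ?_, ?_⟩
  · rw [List.length_append]
    push_cast
    linarith
  · have h1 := hw q n
    simp only [hDq] at h1
    refine h1.mono ?_
    rw [hs.2]
    change P.eval (q.length + n) ≤ (P.comp (2 * Polynomial.X + 4)).eval n
    rw [Polynomial.eval_comp]
    refine Pool.Agent.H80.Poly.eval_mono P ?_
    simp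
    omega

end Pool.Agent.H83.TK
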